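import Pool.Agent.H974R5.Exps

/-!
Kesten's scaling relations for bond percolation on `ℤ²` up to constants: statements.
-/

namespace H362S

open H974 Finset

/-- (N) near-critical stability up to constants. -/
def NearS : Prop := ∃ κ C : ℝ, 0 < κ ∧ 1 ≤ C ∧ ∀ (n : ℕ) (q : ℝ), 1 ≤ n →
  |q - 1/2| ≤ (n:ℝ) ^ (-(3/4) : ℝ) / C → H12S.Win q κ n ∧
    ∀ k : ℕ, 1 ≤ k → k ≤ n →
      (k:ℝ) ^ (-(5/4) : ℝ) / C ≤ H12S.a4 q k ∧ H12S.a4 q k ≤ C * (k:ℝ) ^ (-(5/4) : ℝ)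

/-- (E) the end of the scaling window up to constants. -/
def EndS : Prop := ∀ κ : ℝ, 0 < κ → κ ≤ 1/2 → ∃ C h0 : ℝ, 0 < C ∧ 0 < h0 ∧ ∀ q : ℝ, 1/2 < q →
  q ≤ 1/2 + h0 → ∃ n : ℕ, (n:ℝ) ≤ C * (q - 1/2) ^ (-(4/3) : ℝ) ∧ ¬ H12S.Win q κ n

/-- (F) supercritical crossings beyond the correlation length, up to constants. -/
def FarS : Prop := ∃ C : ℝ, 1 ≤ C ∧ ∀ q : ℝ, 1/2 < q → q ≤ 1 →
  ∃ N : ℕ, 2 ≤ N ∧ (N:ℝ) ≤ C * (q - 1/2) ^ (-(4/3) : ℝ) ∧ eps q N ≤ 1/100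

/-- (A) stability of the one-arm probability. -/
def ArmS : Prop := ∃ κ c : ℝ, 0 < κ ∧ 0 < c ∧ ∀ (n : ℕ) (q : ℝ), 1 ≤ n →
  |q - 1/2| ≤ c * (n:ℝ) ^ (-(3/4) : ℝ) →
    H12S.Win q κ n ∧ arm q n ≤ 3 * arm (1/2) n ∧ arm (1/2) n ≤ 3 * arm q n

def ThetaUp : Prop := ∃ C : ℝ, 0 < C ∧ ∀ p : unitInterval, (1/2 : ℝ) < p →
  theta p ≤ C * ((p:ℝ) - 1/2) ^ (5/36 : ℝ)

def ThetaLow : Prop := ∃ c : ℝ, 0 < c ∧ ∀ p : unitInterval, (1/2 : ℝ) < p →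
  c * ((p:ℝ) - 1/2) ^ (5/36 : ℝ) ≤ theta p

def SigLow : Prop := ∃ c : ℝ, 0 < c ∧ ∀ p : unitInterval, (p:ℝ) < 1/2 →
  ENNReal.ofReal (c * (1/2 - (p:ℝ)) ^ (-(43/18) : ℝ)) ≤ sigma p

def SigUp : Prop := ∃ C : ℝ, 0 < C ∧ ∀ p : unitInterval, (p:ℝ) < 1/2 →
  sigma p ≤ ENNReal.ofReal (C * (1/2 - (p:ℝ)) ^ (-(43/18) : ℝ))

/-- Task A: sharp version of `H31K.stab_dArm`, `H31K.stab`, `H31K.stab_inp` (put `ε = 0`). -/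
def TaskA : Prop := NearS → ArmS
/-- Task B: sharp version of `H31K.beta_upper_of` (with `Pool.Agent.H160R2.SA.arSharp`). -/
def TaskB : Prop := ArmS → ThetaUp
/-- Task C: sharp version of `H31K.beta_lower`. -/
def TaskC : Prop := FarS → ThetaLow
/-- Task D: sharp version of `H31K.gl_core`. -/
def TaskD : Prop := ArmS → SigLow
/-- Task E: sharp version of `H31K.gamma_upper`. -/
def TaskE : Prop := FarS → SigUp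
/-- Task F: `super_scale`. -/
def TaskF : Prop := EndS → FarS
/-- Task G: the end of the window. -/
def TaskG : Prop := NearS → EndS

theorem final (hN : NearS) (hA : TaskA) (hB : TaskB) (hC : TaskC) (hD : TaskD) (hE : TaskE)
    (hF : TaskF) (hG : TaskG) : (ThetaLow ∧ ThetaUp) ∧ (SigLow ∧ SigUp) :=
  ⟨⟨hC (hF (hG hN)), hB (hA hN)⟩, ⟨hD (hA hN), hE (hF (hG hN))⟩⟩

end H362S
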