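import Pool.Agent.H362S.A0
import Pool.Agent.H362S.Stmts

/-!
Near-critical stability of the four-arm probability, up to constants (no loss of exponent).
The bootstrap is the one of `Pool.Agent.H973R3.NC` (helper973); the key estimate is used at one
scale (`H974.key_scale`) and the critical input is `Pool.Agent.H988R6.a4_up`.
-/

set_option maxHeartbeats 2000000

namespace H362S

open H974 H12S H973N Finset

/-- The sum of the pivotal probabilities of a thin box. -/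
noncomputable def PFS (q : ℝ) (L m : ℕ) (I J : Set Vtx) : ℝ :=
  ∑ e ∈ boxE (m / 4), PQ q (SR L m) (Pf (fun F : Finset Edg => Cn I J ↑F) e)

theorem keyS (κ : ℝ) (hκ : 0 < κ) (p : ℝ) (hp : 0 < p) : ∃ (L M : ℕ) (C : ℝ), 2 ≤ L ∧ 512 ≤ M ∧
    0 < C ∧ ∀ (q : ℝ) (n : ℕ), Win q κ n → ∀ r m : ℕ, 1 ≤ r → m = M * r → 4 * L * m ≤ n →
      a4 q (4 * L * m) ≤ (192 * (L:ℝ)) ^ (-p) * a4 q (m / 8) ∨
      ∃ I J : Set Vtx, (∀ v ∈ I ∪ J, (m:ℤ) ≤ |v.2|) ∧
        (m:ℝ) ^ 2 * a4 q (4 * L * m) ≤ C * PFS q L m I J := by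
  obtain ⟨L, M1, M2, C1, hL, hM1, hM2, -, hC1, hkey⟩ := key_scale exit3 κ hκ p hp 0
  refine ⟨L, M2, C1, hL, by omega, hC1, ?_⟩
  intro q n hW r m hr hm hmn
  have h0 : 0 ≤ q := by linarith [hW.lo]
  have h1 : q ≤ 1 := by linarith [hW.hi]
  have hL0 : (0:ℝ) < 192 * L := by
    have : (2:ℝ) ≤ L := by exact_mod_cast hL
    linarith
  by_cases hreg : a4 q (m / 8) ≤ (192 * (L:ℝ)) ^ p * a4 q (4 * L * m)
  · right
    obtain ⟨σ, k1, σ', k2, -, -, h3⟩ := hkey q n hW r m hr hm hmn hreg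
    refine ⟨cell σ m (2 * r * k1) r, cell σ' m (2 * r * k2) r, ?_, ?_⟩
    · have hc : ∀ (τ : Bool) (x : ℤ) (r : ℕ), ∀ v ∈ cell τ m x r, (m:ℤ) ≤ |v.2| := by
        intro τ x r v hv
        have hv2 : v.2 = sy τ m := (mem_cell.mp hv).1
        rw [hv2]
        cases τ
        · unfold sy; simp
        · unfold sy; simp
      rintro v (hv | hv)
      · exact hc _ _ _ v hv
      · exact hc _ _ _ v hv
    · have h5 : TS q L m r (m / M1) σ k1 σ' k2 ≤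
          PFS q L m (cell σ m (2 * r * k1) r) (cell σ' m (2 * r * k2) r) := by
        unfold TS PFS
        apply Finset.sum_le_sum
        intro e _
        apply Pr_mono (okq h0 h1)
        intro F _ hF
        rw [← Pv_iff]
        refine Qev_Pv ?_ hF.1
        have h6 : r ≤ m / M1 := by
          rw [Nat.le_div_iff_mul_le (by omega), hm, mul_comm]
          exact Nat.mul_le_mul_right _ (by omega)
        omega
      exact h3.trans (mul_le_mul_of_nonneg_left h5 hC1.le)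
  · left
    push Not at hreg
    rw [Real.rpow_neg hL0.le, inv_mul_eq_div, le_div_iff₀ (Real.rpow_pos_of_pos hL0 _)]
    linarith

theorem pow23 : (1/3 : ℝ) ≤ (2:ℝ) ^ (-(5/4 : ℝ)) := by
  have j3 : (2:ℝ) ^ (-(3/2 : ℝ)) ≤ (2:ℝ) ^ (-(5/4 : ℝ)) :=
    Real.rpow_le_rpow_of_exponent_le (by norm_num) (by norm_num)
  have j4 : (1/3 : ℝ) ≤ (2:ℝ) ^ (-(3/2 : ℝ)) := by
    have j5 : ((2:ℝ) ^ (-(3/2 : ℝ)))^2 = 1/8 := by
      rw [← Real.rpow_natCast, ← Real.rpow_mul (by norm_num)]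
      rw [show (-(3/2:ℝ)) * ((2:ℕ):ℝ) = ((-3 : ℤ) : ℝ) by norm_num, Real.rpow_intCast]
      norm_num
    have j6 : 0 < (2:ℝ) ^ (-(3/2 : ℝ)) := by positivity
    nlinarith
  exact j4.trans j3

theorem cmp_succ {k : ℕ} (hk : 1 ≤ k) :
    (1/3 : ℝ) * (k:ℝ) ^ (-(5/4 : ℝ)) ≤ ((k:ℝ) + 1) ^ (-(5/4 : ℝ)) := by
  have hk1 : (1:ℝ) ≤ k := by exact_mod_cast hk
  have j1 : (2 * (k:ℝ)) ^ (-(5/4 : ℝ)) ≤ ((k:ℝ) + 1) ^ (-(5/4 : ℝ)) :=
    Real.rpow_le_rpow_of_nonpos (by linarith) (by linarith) (by norm_num)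
  rw [Real.mul_rpow (by norm_num) (by linarith)] at j1
  exact (mul_le_mul_of_nonneg_right pow23 (by positivity)).trans j1

/-- `(m/2)^(-5/4) ≤ 4 m^(-5/4)` -/
theorem half_pow {m : ℕ} (hm : 16 ≤ m) :
    ((m / 2 : ℕ) : ℝ) ^ (-(5/4 : ℝ)) ≤ 4 * (m:ℝ) ^ (-(5/4 : ℝ)) := by
  have hmr : (16:ℝ) ≤ m := by exact_mod_cast hm
  have hmpos : (0:ℝ) < m := by linarith
  have j2 : (m:ℝ) / 3 ≤ ((m / 2 : ℕ) : ℝ) := by
    have : m ≤ 3 * (m / 2) := by omega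
    have : (m:ℝ) ≤ 3 * ((m / 2 : ℕ) : ℝ) := by exact_mod_cast this
    linarith
  have j3 : ((m / 2 : ℕ) : ℝ) ^ (-(5/4 : ℝ)) ≤ ((m:ℝ) / 3) ^ (-(5/4 : ℝ)) :=
    Real.rpow_le_rpow_of_nonpos (by linarith) j2 (by norm_num)
  have j4 : ((m:ℝ) / 3) ^ (-(5/4 : ℝ)) ≤ 4 * (m:ℝ) ^ (-(5/4 : ℝ)) := by
    rw [Real.div_rpow hmpos.le (by norm_num), div_le_iff₀ (by positivity)]
    have j5 : 1 ≤ 4 * (3:ℝ) ^ (-(5/4 : ℝ)) := by
      have j7 : ((3:ℝ) ^ (-(5/4 : ℝ)))^4 = 1/243 := by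
        rw [← Real.rpow_natCast, ← Real.rpow_mul (by norm_num)]
        rw [show (-(5/4:ℝ)) * ((4:ℕ):ℝ) = ((-5 : ℤ) : ℝ) by norm_num, Real.rpow_intCast]
        norm_num
      have j8 : 0 < (3:ℝ) ^ (-(5/4 : ℝ)) := by positivity
      have j9 : 1/4 ≤ (3:ℝ) ^ (-(5/4 : ℝ)) := by
        by_contra hcon
        push Not at hcon
        have : ((3:ℝ) ^ (-(5/4 : ℝ)))^4 < (1/4)^4 := pow_lt_pow_left₀ hcon j8.le (by norm_num)
        rw [j7] at this
        norm_num at this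
      linarith
    have j10 : 0 < (m:ℝ) ^ (-(5/4 : ℝ)) := by positivity
    nlinarith
  exact j3.trans j4

/-- One step of the bootstrap, four-arm part, sharp. -/
theorem step_s {κ : ℝ} (hκ : 0 < κ) {a : ℝ} (ha0 : a = 0) :
    ∃ A : ℝ, 1 ≤ A ∧ (∀ k : ℕ, a4 (1/2) k ≤ A * ((k:ℝ) + 1) ^ (-(5/4 : ℝ) + a)) ∧
      ∀ (q δ : ℝ) (n : ℕ), 1 ≤ n → A^2 * |q - 1/2| ≤ (n:ℝ) ^ (-(3/4 : ℝ) - 4 * a) →
      (∀ t ∈ Set.uIcc (1/2) q, Win t κ n ∧ A4le t A a n) →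
      ∀ k ≤ n, a4 q k < A * ((k:ℝ) + 1) ^ (-(5/4 : ℝ) + a) := by
  subst ha0
  rw [add_zero, mul_zero, sub_zero]
  obtain ⟨L, M, C, hL, hM, hC, hk⟩ := keyS κ hκ 2 (by norm_num)
  obtain ⟨Cc, hCc0, hCc⟩ := Pool.Agent.H988R6.a4_up
  obtain ⟨C1, hC1, hT⟩ := T_deriv0 κ hκ (le_refl (0:ℝ)) (by norm_num) L hL
  have hLr : (2:ℝ) ≤ L := by exact_mod_cast hL
  set Cc' : ℝ := max Cc 1 with hCc'
  have hCc1 : 1 ≤ Cc' := le_max_right _ _
  set C5 : ℝ := 4 * C * Cc' + C * C1 with hC5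
  have hC50 : 0 < C5 := by positivity
  set C6 : ℝ := C5 * (8 * L : ℝ) ^ (5/4 : ℝ) with hC6
  have hC60 : 0 < C6 := by positivity
  set K0 : ℕ := 8 * L * M with hK0
  set A0 : ℝ := 3 * ((K0:ℝ) + 1)^2 with hA0
  set A : ℝ := A0 + 3 * Cc' + 3 * C6 with hA
  have hK0r : (0:ℝ) ≤ K0 := Nat.cast_nonneg _
  have hA03 : 3 ≤ A0 := by rw [hA0]; nlinarith
  have hA3 : 3 ≤ A := by rw [hA]; linarith
  have hApos : 0 < A := by linarith
  have hcrit : ∀ k : ℕ, 1 ≤ k → a4 (1/2) k ≤ Cc' * (k:ℝ) ^ (-(5/4 : ℝ)) := by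
    intro k hk
    exact (hCc k hk).trans (mul_le_mul_of_nonneg_right (le_max_left _ _) (by positivity))
  refine ⟨A, by linarith, ?_, ?_⟩
  · intro k
    rcases Nat.eq_zero_or_pos k with h | h
    · subst h
      have i1 := a4_le_two' (q := 1/2) (by norm_num) (by norm_num) 0
      simp only [Nat.cast_zero, zero_add, Real.one_rpow, mul_one]
      linarith
    · have i1 := hcrit k h
      have i2 := cmp_succ h
      have i6 : 3 * Cc' * ((1/3 : ℝ) * (k:ℝ) ^ (-(5/4 : ℝ))) ≤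
          3 * Cc' * ((k:ℝ) + 1) ^ (-(5/4 : ℝ)) := mul_le_mul_of_nonneg_left i2 (by linarith)
      have i7 : 3 * Cc' * ((k:ℝ) + 1) ^ (-(5/4 : ℝ)) ≤ A * ((k:ℝ) + 1) ^ (-(5/4 : ℝ)) :=
        mul_le_mul_of_nonneg_right (by linarith) (by positivity)
      linarith
  intro q _ n hn hq hseg k hkn
  have hwq := hseg q Set.right_mem_uIcc
  have hq0 : 0 ≤ q := by linarith [hwq.1.lo]
  have hq1 : q ≤ 1 := by linarith [hwq.1.hi]
  have hnr : (1:ℝ) ≤ n := by exact_mod_cast hn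
  rcases Nat.lt_or_ge k K0 with hlt | hge
  · -- small scales
    have i1 := a4_le_two' hq0 hq1 k
    have hkr : ((k:ℝ) + 1) ≤ (K0:ℝ) + 1 := by
      have : (k:ℝ) ≤ K0 := by exact_mod_cast hlt.le
      linarith
    have hk1r : (1:ℝ) ≤ (k:ℝ) + 1 := by
      have : (0:ℝ) ≤ k := Nat.cast_nonneg _
      linarith
    have i2 : ((k:ℝ) + 1) ^ (-(2:ℝ)) ≤ ((k:ℝ) + 1) ^ (-(5/4 : ℝ)) :=
      Real.rpow_le_rpow_of_exponent_le hk1r (by norm_num)
    have i3 : ((K0:ℝ) + 1) ^ (-(2:ℝ)) ≤ ((k:ℝ) + 1) ^ (-(2:ℝ)) :=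
      Real.rpow_le_rpow_of_nonpos (by linarith) hkr (by norm_num)
    have i4 : 3 ≤ A * ((K0:ℝ) + 1) ^ (-(2:ℝ)) := by
      have i6 : A0 * ((K0:ℝ) + 1) ^ (-(2:ℝ)) = 3 := by
        rw [hA0, Real.rpow_neg (by linarith), Real.rpow_two]
        field_simp
      rw [← i6]
      exact mul_le_mul_of_nonneg_right (by linarith) (by positivity)
    have i5 : A * ((K0:ℝ) + 1) ^ (-(2:ℝ)) ≤ A * ((k:ℝ) + 1) ^ (-(5/4 : ℝ)) :=
      mul_le_mul_of_nonneg_left (i3.trans i2) (by linarith)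
    linarith
  · -- large scales
    have hq4 : 0 < 4 * L * M := by positivity
    obtain ⟨r, hr⟩ : ∃ r : ℕ, r = k / (4 * L * M) := ⟨_, rfl⟩
    obtain ⟨m, hm⟩ : ∃ m : ℕ, m = M * r := ⟨_, rfl⟩
    have e1 : 4 * L * M * r ≤ k := by rw [hr]; exact Nat.mul_div_le _ _
    have e2 : k < 4 * L * M * r + 4 * L * M := by
      rw [hr]
      have := Nat.lt_mul_div_succ k hq4
      rw [Nat.mul_add, Nat.mul_one] at this
      exact this
    have hr1 : 1 ≤ r := by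
      rw [hr, Nat.le_div_iff_mul_le hq4]
      have : K0 = 2 * (4 * L * M) := by rw [hK0]; ring
      omega
    have hLm : 4 * L * m = 4 * L * M * r := by rw [hm]; ring
    have h4m : 4 * L * m ≤ k := by rw [hLm]; exact e1
    have hkm : k ≤ 8 * L * m := by
      have h6 : 8 * L * m = 2 * (4 * L * M * r) := by rw [hm]; ring
      rw [h6]
      have h7 : 4 * L * M * 1 ≤ 4 * L * M * r := Nat.mul_le_mul_left _ hr1
      omega
    have hm512 : 512 ≤ m := by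
      rw [hm]
      exact hM.trans (Nat.le_mul_of_pos_right _ hr1)
    have hmr : (512:ℝ) ≤ m := by exact_mod_cast hm512
    have hmpos : (0:ℝ) < m := by linarith
    have hk1 : 1 ≤ k := by
      have : 0 < 4 * L * m := by positivity
      omega
    have hkpos : (0:ℝ) < k := by exact_mod_cast hk1
    have hmk' : m ≤ k := by
      have : 1 * m ≤ 4 * L * m := Nat.mul_le_mul_right _ (by omega)
      omega
    have hmn : m ≤ n := hmk'.trans hkn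
    have hkmr : (k:ℝ) / (8 * L) ≤ m := by
      rw [div_le_iff₀ (by positivity)]
      have : (k:ℝ) ≤ ((8 * L * m : ℕ) : ℝ) := by exact_mod_cast hkm
      push_cast at this
      linarith
    have hfin : ∀ X : ℝ, X < A / 3 * (k:ℝ) ^ (-(5/4 : ℝ)) → X < A * ((k:ℝ) + 1) ^ (-(5/4 : ℝ)) := by
      intro X hX
      have j1 : A * ((1/3 : ℝ) * (k:ℝ) ^ (-(5/4 : ℝ))) ≤ A * ((k:ℝ) + 1) ^ (-(5/4 : ℝ)) :=
        mul_le_mul_of_nonneg_left (cmp_succ hk1) hApos.le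
      linarith
    apply hfin
    have hmono : a4 q k ≤ a4 q (4 * L * m) := a4_anti hq0 hq1 (by
      have : 0 < 4 * L * m := by positivity
      omega) h4m
    have hkp : 0 < (k:ℝ) ^ (-(5/4 : ℝ)) := by positivity
    rcases hk q n hwq.1 r m hr1 hm (h4m.trans hkn) with h2 | ⟨I, J, hIJ, hbound⟩
    · -- non-regular scale
      have i1 := hwq.2 (m / 8) (by omega)
      rw [add_zero] at i1
      have i2 : (((m / 8 : ℕ) : ℝ) + 1) ^ (-(5/4 : ℝ)) ≤ ((k:ℝ) / (64 * L)) ^ (-(5/4 : ℝ)) := by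
        apply Real.rpow_le_rpow_of_nonpos (by positivity) _ (by norm_num)
        have j1 : m ≤ 8 * (m / 8) + 7 := by omega
        have j2 : (m:ℝ) ≤ 8 * ((m / 8 : ℕ) : ℝ) + 7 := by exact_mod_cast j1
        have j3 : (k:ℝ) / (64 * L) = (k:ℝ) / (8 * L) / 8 := by
          field_simp; norm_num
        rw [j3]
        linarith
      have i3 : ((k:ℝ) / (64 * L)) ^ (-(5/4 : ℝ)) = (64 * (L:ℝ)) ^ (5/4 : ℝ) * (k:ℝ) ^ (-(5/4 : ℝ)) := by
        rw [Real.div_rpow hkpos.le (by positivity), Real.rpow_neg (by positivity : (0:ℝ) ≤ 64 * L),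
          div_inv_eq_mul, mul_comm]
      have hL192 : (16:ℝ) ≤ 192 * L := by linarith
      have i4 : (192 * (L:ℝ)) ^ (-(2:ℝ)) * (64 * (L:ℝ)) ^ (5/4 : ℝ) ≤ 1/4 := by
        have j1 : (64 * (L:ℝ)) ^ (5/4 : ℝ) ≤ (192 * (L:ℝ)) ^ (5/4 : ℝ) :=
          Real.rpow_le_rpow (by positivity) (by linarith) (by norm_num)
        have j2 : (192 * (L:ℝ)) ^ (-(2:ℝ)) * (192 * (L:ℝ)) ^ (5/4 : ℝ) =
            (192 * (L:ℝ)) ^ (-(3/4) : ℝ) := by
          rw [← Real.rpow_add (by linarith)]; norm_num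
        have j3 : (192 * (L:ℝ)) ^ (-(3/4) : ℝ) ≤ (16:ℝ) ^ (-(3/4) : ℝ) :=
          Real.rpow_le_rpow_of_nonpos (by norm_num) hL192 (by norm_num)
        have j4 : (16:ℝ) ^ (-(3/4) : ℝ) ≤ (16:ℝ) ^ (-(1/2) : ℝ) :=
          Real.rpow_le_rpow_of_exponent_le (by norm_num) (by norm_num)
        have j5 : (16:ℝ) ^ (-(1/2) : ℝ) = 1/4 := by
          rw [Real.rpow_neg (by norm_num), ← Real.sqrt_eq_rpow,
            show (16:ℝ) = 4 ^ 2 by norm_num, Real.sqrt_sq (by norm_num)]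
          norm_num
        have j6 : 0 ≤ (192 * (L:ℝ)) ^ (-(2:ℝ)) := by positivity
        have j7 := mul_le_mul_of_nonneg_left j1 j6
        linarith
      have i5 : a4 q (m / 8) ≤ A * ((64 * (L:ℝ)) ^ (5/4 : ℝ) * (k:ℝ) ^ (-(5/4 : ℝ))) :=
        i1.trans (mul_le_mul_of_nonneg_left (i2.trans i3.le) hApos.le)
      have i6 : (192 * (L:ℝ)) ^ (-(2:ℝ)) * a4 q (m / 8) ≤
          (192 * (L:ℝ)) ^ (-(2:ℝ)) * (A * ((64 * (L:ℝ)) ^ (5/4 : ℝ) * (k:ℝ) ^ (-(5/4 : ℝ)))) :=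
        mul_le_mul_of_nonneg_left i5 (by positivity)
      have i7 : (192 * (L:ℝ)) ^ (-(2:ℝ)) * (A * ((64 * (L:ℝ)) ^ (5/4 : ℝ) * (k:ℝ) ^ (-(5/4 : ℝ)))) =
          ((192 * (L:ℝ)) ^ (-(2:ℝ)) * (64 * (L:ℝ)) ^ (5/4 : ℝ)) * (A * (k:ℝ) ^ (-(5/4 : ℝ))) := by
        ring
      have i8 : ((192 * (L:ℝ)) ^ (-(2:ℝ)) * (64 * (L:ℝ)) ^ (5/4 : ℝ)) * (A * (k:ℝ) ^ (-(5/4 : ℝ))) ≤
          1/4 * (A * (k:ℝ) ^ (-(5/4 : ℝ))) := mul_le_mul_of_nonneg_right i4 (by positivity)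
      have i9 : 0 < A * (k:ℝ) ^ (-(5/4 : ℝ)) := by positivity
      linarith
    · -- regular scale
      have hlip := lip (f := fun q => PFS q L m I J) (a := 1/2) (b := q)
          (B := C1 * A ^ 2 * (m:ℝ) ^ ((3/2 : ℝ) + 2 * 0))
          (fun t ht => hT t n (hseg t ht).1 A (by linarith) (hseg t ht).2 m (by omega) hmn I J hIJ)
      rw [mul_zero, add_zero] at hlip
      have hup : PFS (1/2) L m I J ≤ (m:ℝ)^2 * a4 (1/2) (m / 2) :=
        T_upper (q := 1/2) (by norm_num) (by norm_num) (L := L) (m := m) (by omega) hL hIJ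
      have hcr : a4 (1/2) (m / 2) ≤ Cc' * (4 * (m:ℝ) ^ (-(5/4 : ℝ))) :=
        (hcrit (m / 2) (by omega)).trans
          (mul_le_mul_of_nonneg_left (half_pow (by omega)) (by linarith))
      have hdiff : C1 * A ^ 2 * (m:ℝ) ^ (3/2 : ℝ) * |q - 1/2| ≤ C1 * (m:ℝ) ^ (3/4 : ℝ) := by
        have j1 : (n:ℝ) ^ (-(3/4 : ℝ)) ≤ (m:ℝ) ^ (-(3/4 : ℝ)) :=
          Real.rpow_le_rpow_of_nonpos hmpos (by exact_mod_cast hmn) (by norm_num)
        have j2 : (m:ℝ) ^ (3/2 : ℝ) * (m:ℝ) ^ (-(3/4 : ℝ)) = (m:ℝ) ^ (3/4 : ℝ) := by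
          rw [← Real.rpow_add hmpos]; norm_num
        have j3 : 0 ≤ C1 * (m:ℝ) ^ (3/2 : ℝ) := by positivity
        calc C1 * A ^ 2 * (m:ℝ) ^ (3/2 : ℝ) * |q - 1/2|
            = C1 * (m:ℝ) ^ (3/2 : ℝ) * (A^2 * |q - 1/2|) := by ring
          _ ≤ C1 * (m:ℝ) ^ (3/2 : ℝ) * (m:ℝ) ^ (-(3/4 : ℝ)) :=
            mul_le_mul_of_nonneg_left (hq.trans j1) j3
          _ = C1 * (m:ℝ) ^ (3/4 : ℝ) := by rw [mul_assoc, j2]
      have hm2 : (m:ℝ)^2 * (m:ℝ) ^ (-(5/4 : ℝ)) = (m:ℝ) ^ (3/4 : ℝ) := by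
        rw [← Real.rpow_natCast, ← Real.rpow_add hmpos]
        norm_num
      have hTq : PFS q L m I J ≤ (m:ℝ)^2 * (Cc' * (4 * (m:ℝ) ^ (-(5/4 : ℝ)))) +
          C1 * (m:ℝ) ^ (3/4 : ℝ) := by
        have j1 := (abs_le.mp (hlip.trans hdiff)).2
        have j2 : (m:ℝ)^2 * a4 (1/2) (m / 2) ≤ (m:ℝ)^2 * (Cc' * (4 * (m:ℝ) ^ (-(5/4 : ℝ)))) :=
          mul_le_mul_of_nonneg_left hcr (by positivity)
        linarith
      have hb2 : (m:ℝ)^2 * a4 q k ≤ C5 * (m:ℝ) ^ (3/4 : ℝ) := by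
        have j0 : (m:ℝ)^2 * a4 q k ≤ (m:ℝ)^2 * a4 q (4 * L * m) :=
          mul_le_mul_of_nonneg_left hmono (by positivity)
        have j1 := mul_le_mul_of_nonneg_left hTq hC.le
        have j2 : C * ((m:ℝ)^2 * (Cc' * (4 * (m:ℝ) ^ (-(5/4 : ℝ)))) + C1 * (m:ℝ) ^ (3/4 : ℝ)) =
            C5 * (m:ℝ) ^ (3/4 : ℝ) := by
          rw [hC5, ← hm2]; ring
        linarith
      have hb3 : a4 q k ≤ C5 * (m:ℝ) ^ (-(5/4 : ℝ)) := by
        rw [← hm2] at hb2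
        have j1 : (m:ℝ)^2 * a4 q k ≤ (m:ℝ)^2 * (C5 * (m:ℝ) ^ (-(5/4 : ℝ))) := by linarith
        exact le_of_mul_le_mul_left j1 (by positivity)
      have hb4 : (m:ℝ) ^ (-(5/4 : ℝ)) ≤ (8 * L : ℝ) ^ (5/4 : ℝ) * (k:ℝ) ^ (-(5/4 : ℝ)) := by
        have j1 : (m:ℝ) ^ (-(5/4 : ℝ)) ≤ ((k:ℝ) / (8 * L)) ^ (-(5/4 : ℝ)) :=
          Real.rpow_le_rpow_of_nonpos (by positivity) hkmr (by norm_num)
        refine j1.trans (le_of_eq ?_)
        rw [Real.div_rpow hkpos.le (by positivity), Real.rpow_neg (by positivity : (0:ℝ) ≤ 8 * L),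
          div_inv_eq_mul, mul_comm]
      have hb5 : a4 q k ≤ C6 * (k:ℝ) ^ (-(5/4 : ℝ)) := by
        rw [hC6, mul_assoc]
        exact hb3.trans (mul_le_mul_of_nonneg_left hb4 hC50.le)
      have hb6 : C6 < A / 3 := by
        rw [hA]; linarith
      exact lt_of_le_of_lt hb5 (mul_lt_mul_of_pos_right hb6 hkp)

/-- STABILITY of the four-arm upper bounds and of RSW, from the upper bound at `1/2`. -/
theorem stab_s0 :
    ∃ κ : ℝ, 0 < κ ∧ ∀ a : ℝ, a = 0 → ∃ C : ℝ, 1 ≤ C ∧ ∀ n : ℕ, 1 ≤ n → ∀ q : ℝ,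
      |q - 1/2| ≤ (n:ℝ) ^ (-(3/4 : ℝ) - 4 * a) / C → Win q κ n ∧ A4le q C a n := by
  obtain ⟨κ1, hκ1, hwin⟩ := H12S.win_half
  have hκ1' : κ1 ≤ 1/2 := (hwin 1).kle
  refine ⟨κ1 / 2, by linarith, ?_⟩
  intro a ha0
  have ha : a ≤ 1/32 := by rw [ha0]; norm_num
  have ha0' : 0 ≤ a := by rw [ha0]
  have hκ : 0 < κ1 / 2 := by linarith
  obtain ⟨A, hA, hAcrit, hstep⟩ := step_s hκ ha0
  obtain ⟨C2, hC2, hhd⟩ := hh_deriv0 (κ1 / 2) hκ ha0' (by linarith : a ≤ 1/8)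
  set C : ℝ := A^2 + 4 * (C2 * A / κ1) + 4 with hC
  have hA2 : 1 ≤ A^2 := by nlinarith
  have hx : 0 < C2 * A / κ1 := by positivity
  have hCpos : 0 < C := by linarith
  have hCA : A ≤ C := by nlinarith
  refine ⟨C, by linarith, ?_⟩
  intro n hn q hq
  have hnr : (1:ℝ) ≤ n := by exact_mod_cast hn
  have hn1 : (n:ℝ) ^ (-(3/4 : ℝ) - 4 * a) ≤ 1 := Real.rpow_le_one_of_one_le_of_nonpos hnr (by linarith)
  have hn0 : 0 < (n:ℝ) ^ (-(3/4 : ℝ) - 4 * a) := by positivity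
  set δ : ℝ := (n:ℝ) ^ (-(3/4 : ℝ) - 4 * a) / C with hδ
  have hδ0 : 0 < δ := by positivity
  have hδ4 : δ ≤ 1/4 := by
    rw [hδ, div_le_iff₀ hCpos]; linarith
  -- the family of constraints
  set g : Bool × (Fin (n+1) ⊕ Fin (n+1)) → ℝ → ℝ := fun i s =>
    match i.2 with
    | Sum.inl k => a4 (qs i.1 s) k - A * (((k:ℕ):ℝ) + 1) ^ (-(5/4 : ℝ) + a)
    | Sum.inr h => if (h:ℕ) = 0 then -1 else κ1 / 2 - hh (qs i.1 s) (16 * (h:ℕ)) (h:ℕ) with hg
  have hgcont : ∀ i, Continuous (g i) := by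
    rintro ⟨τ, k | h⟩
    · simp only [hg]
      apply Continuous.sub _ continuous_const
      unfold a4
      exact ((cont_Pr _ _).comp (cont_qs τ)).add ((cont_Pr _ _).comp (cont_qs τ))
    · simp only [hg]
      split_ifs
      · exact continuous_const
      · apply Continuous.sub continuous_const
        exact (cont_Pr _ _).comp (cont_qs τ)
  -- meaning of the constraints
  have hmean : ∀ s, 0 ≤ s → s ≤ δ → (∀ i, g i s ≤ 0) → ∀ τ : Bool,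
      Win (qs τ s) (κ1 / 2) n ∧ A4le (qs τ s) A a n := by
    intro s hs hsδ hgs τ
    have hwin' : ∀ τ : Bool, ∀ h : ℕ, 1 ≤ h → h ≤ n → κ1 / 2 ≤ hh (qs τ s) (16 * h) h := by
      intro τ h h1 h2
      have := hgs (τ, Sum.inr ⟨h, by omega⟩)
      simp only [hg] at this
      rw [if_neg (by omega)] at this
      linarith
    refine ⟨⟨hκ, by linarith, ?_, ?_, hwin' τ, ?_⟩, ?_⟩
    · have := abs_qs (τ := τ) hs
      have := (abs_le.mp this.le).1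
      linarith
    · have := abs_qs (τ := τ) hs
      have := (abs_le.mp this.le).2
      linarith
    · intro h h1 h2
      rw [qs_flip]
      exact hwin' (!τ) h h1 h2
    · intro k hk
      have := hgs (τ, Sum.inl ⟨k, by omega⟩)
      simp only [hg] at this
      linarith
  -- constraints hold strictly at `0`
  have hstrict : ∀ t, 0 ≤ t → t ≤ δ → (∀ s, 0 ≤ s → s ≤ t → ∀ τ : Bool,
      Win (qs τ s) (κ1 / 2) n ∧ A4le (qs τ s) A a n) → ∀ i, g i t < 0 := by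
    intro t ht htδ hall
    rintro ⟨τ, k | h⟩
    · simp only [hg]
      have hseg : ∀ t' ∈ Set.uIcc (1/2) (qs τ t), Win t' (κ1 / 2) n ∧ A4le t' A a n := by
        intro t' ht'
        obtain ⟨s', h1, h2, rfl⟩ := uIcc_qs ht ht'
        exact hall s' h1 h2 τ
      have h3 := hstep (qs τ t) δ n hn (by
        rw [abs_qs ht]
        have h4 : A^2 * t ≤ C * δ := mul_le_mul (by linarith) htδ ht hCpos.le
        have h5 : C * δ = (n:ℝ) ^ (-(3/4 : ℝ) - 4 * a) := by rw [hδ]; field_simp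
        linarith) hseg k (by have := k.2; omega)
      linarith
    · simp only [hg]
      split_ifs with h0
      · norm_num
      · have h1 : 1 ≤ (h:ℕ) := by omega
        have h2 : (h:ℕ) ≤ n := by have := h.2; omega
        have hlip := lip (f := fun q => hh q (16 * ((h:ℕ):ℤ)) ((h:ℕ):ℤ)) (a := 1/2) (b := qs τ t)
          (B := C2 * A * ((h:ℕ):ℝ) ^ ((3/4 : ℝ) + a)) (by
            intro t' ht'
            obtain ⟨s', h3, h4, rfl⟩ := uIcc_qs ht ht'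
            obtain ⟨hw, hA4⟩ := hall s' h3 h4 τ
            exact hhd (qs τ s') n hw A hA hA4 h h1 h2)
        rw [abs_qs ht] at hlip
        have h3 := (hwin h).pri h h1 le_rfl
        have h4 : C2 * A * ((h:ℕ):ℝ) ^ ((3/4 : ℝ) + a) * t ≤ κ1 / 4 := by
          have hhr : (0:ℝ) < ((h:ℕ):ℝ) := by exact_mod_cast h1
          have h5 : ((h:ℕ):ℝ) ^ ((3/4 : ℝ) + a) ≤ (n:ℝ) ^ ((3/4 : ℝ) + a) :=
            Real.rpow_le_rpow hhr.le (by exact_mod_cast h2) (by linarith)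
          have h6 : (n:ℝ) ^ ((3/4 : ℝ) + a) * (n:ℝ) ^ (-(3/4 : ℝ) - 4 * a) ≤ 1 := by
            rw [← Real.rpow_add (by linarith)]
            exact Real.rpow_le_one_of_one_le_of_nonpos hnr (by linarith)
          have h7 : t * C ≤ (n:ℝ) ^ (-(3/4 : ℝ) - 4 * a) := by
            have : δ * C = (n:ℝ) ^ (-(3/4 : ℝ) - 4 * a) := by rw [hδ]; field_simp
            rw [← this]
            exact mul_le_mul_of_nonneg_right htδ hCpos.le
          have h8 : 4 * (C2 * A / κ1) ≤ C := by linarith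
          have h9 : ((h:ℕ):ℝ) ^ ((3/4 : ℝ) + a) * (t * C) ≤ 1 := by
            calc _ ≤ (n:ℝ) ^ ((3/4 : ℝ) + a) * (n:ℝ) ^ (-(3/4 : ℝ) - 4 * a) :=
                  mul_le_mul h5 h7 (by positivity) (by positivity)
              _ ≤ 1 := h6
          have h10 : ((h:ℕ):ℝ) ^ ((3/4 : ℝ) + a) * t * (4 * (C2 * A / κ1)) ≤ 1 := by
            calc _ ≤ ((h:ℕ):ℝ) ^ ((3/4 : ℝ) + a) * t * C :=
                  mul_le_mul_of_nonneg_left h8 (by positivity)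
              _ ≤ 1 := by linarith
          have h11 : C2 * A * ((h:ℕ):ℝ) ^ ((3/4 : ℝ) + a) * t =
              κ1 / 4 * (((h:ℕ):ℝ) ^ ((3/4 : ℝ) + a) * t * (4 * (C2 * A / κ1))) := by
            field_simp
          rw [h11]
          have : 0 ≤ κ1 / 4 := by linarith
          nlinarith
        have h5 := (abs_le.mp hlip).1
        linarith
  have hconc : ∀ t, 0 ≤ t → t ≤ δ → ∀ i, g i t < 0 := by
    apply bootstrap g δ hgcont
    · apply hstrict 0 le_rfl hδ0.le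
      intro s hs1 hs2 τ
      have hs0 : s = 0 := le_antisymm hs2 hs1
      subst hs0
      have hq0 : qs τ 0 = 1/2 := by cases τ <;> simp [qs]
      rw [hq0]
      refine ⟨⟨hκ, by linarith, by norm_num, by norm_num, ?_, ?_⟩, ?_⟩
      · intro h h1 h2
        exact le_trans (by linarith) ((hwin n).pri h h1 h2)
      · intro h h1 h2
        exact le_trans (by linarith) ((hwin n).dua h h1 h2)
      · exact fun k _ => hAcrit k
    · intro t ht htδ hall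
      apply hstrict t ht htδ
      intro s hs1 hs2 τ
      exact hmean s hs1 (hs2.trans htδ) (hall s hs1 hs2) τ
  -- conclusion
  obtain ⟨τ, hτ⟩ : ∃ τ : Bool, q = qs τ |q - 1/2| := by
    rcases le_total (1/2) q with h | h
    · refine ⟨true, ?_⟩
      unfold qs
      rw [abs_of_nonneg (by linarith)]
      simp
    · refine ⟨false, ?_⟩
      unfold qs
      rw [abs_of_nonpos (by linarith)]
      simp only [Bool.false_eq_true, if_false]
      ring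
  have hfin := hmean |q - 1/2| (abs_nonneg _) hq (fun i => (hconc _ (abs_nonneg _) hq i).le) τ
  rw [← hτ] at hfin
  refine ⟨hfin.1, fun k hk => (hfin.2 k hk).trans ?_⟩
  exact mul_le_mul_of_nonneg_right hCA (by positivity)

end H362S
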