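import Pool.Agent.H362S.A1

/-!
Near-critical stability up to constants, lower bound and conclusion.
-/

set_option maxHeartbeats 2000000

namespace H362S

open H974 H12S H973N Finset

theorem nearS : NearS := by
  obtain ⟨κ, hκ, hst0⟩ := stab_s0
  obtain ⟨C0, hC0, hst1⟩ := hst0 0 rfl
  have hst : ∀ n : ℕ, 1 ≤ n → ∀ q : ℝ, |q - 1/2| ≤ (n:ℝ) ^ (-(3/4 : ℝ)) / C0 →
      Win q κ n ∧ A4le q C0 0 n := by
    intro n hn q hq
    apply hst1 n hn q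
    rw [mul_zero, sub_zero]
    exact hq
  have hC0p : 0 < C0 := by linarith
  obtain ⟨c, Cc, hc, hCc, hcr⟩ := Pool.Agent.H988R6.a4_sharp
  obtain ⟨s, hs⟩ := pow_unbounded_of_one_lt (Cc / c) (by norm_num : (1:ℝ) < 384)
  obtain ⟨L, M, C, hL, hM, hC, hk⟩ := keyS κ hκ (5/4 + s) (by positivity)
  obtain ⟨C1, hC1, hT⟩ := T_deriv0 κ hκ (le_refl (0:ℝ)) (by norm_num) L hL
  have hLr : (2:ℝ) ≤ L := by exact_mod_cast hL
  have hMr : (512:ℝ) ≤ M := by exact_mod_cast hM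
  -- regular scales at the critical point
  have hreg : ∀ r m : ℕ, 1 ≤ r → m = M * r → ∃ I J : Set Vtx, (∀ v ∈ I ∪ J, (m:ℤ) ≤ |v.2|) ∧
      (m:ℝ) ^ 2 * a4 (1/2) (4 * L * m) ≤ C * PFS (1/2) L m I J := by
    intro r m hr hm
    have hm512 : 512 ≤ m := by
      rw [hm]; exact hM.trans (Nat.le_mul_of_pos_right _ hr)
    have hn1 : 1 ≤ 4 * L * m := by
      have : 0 < 4 * L * m := by positivity
      omega
    have hW : Win (1/2) κ (4 * L * m) := (hst (4 * L * m) hn1 (1/2) (by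
      rw [sub_self, abs_zero]; positivity)).1
    rcases hk (1/2) (4 * L * m) hW r m hr hm le_rfl with h2 | h2
    · exfalso
      set Y : ℝ := ((4 * L * m : ℕ) : ℝ) with hY
      have hYp : 0 < Y := by rw [hY]; exact_mod_cast hn1
      have i1 := (hcr (4 * L * m) hn1).1
      have i2 := (hcr (m / 8) (by omega)).2
      rw [← hY] at i1
      have i3 : Y / (64 * L) ≤ ((m / 8 : ℕ) : ℝ) := by
        have j1 : m ≤ 16 * (m / 8) := by omega
        have j2 : (m:ℝ) ≤ 16 * ((m / 8 : ℕ) : ℝ) := by exact_mod_cast j1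
        have j3 : Y / (64 * L) = (m:ℝ) / 16 := by
          rw [hY]; push_cast; field_simp; norm_num
        rw [j3]; linarith
      have i4 : ((m / 8 : ℕ) : ℝ) ^ (-(5/4 : ℝ)) ≤ (Y / (64 * L)) ^ (-(5/4 : ℝ)) :=
        Real.rpow_le_rpow_of_nonpos (by positivity) i3 (by norm_num)
      have i5 : (Y / (64 * L)) ^ (-(5/4 : ℝ)) = (64 * (L:ℝ)) ^ (5/4 : ℝ) * Y ^ (-(5/4 : ℝ)) := by
        rw [Real.div_rpow hYp.le (by positivity), Real.rpow_neg (by positivity : (0:ℝ) ≤ 64 * L),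
          div_inv_eq_mul, mul_comm]
      rw [i5] at i4
      have hX : 0 < Y ^ (-(5/4 : ℝ)) := by positivity
      have i6 : (64 * (L:ℝ)) ^ (5/4 : ℝ) ≤ (192 * (L:ℝ)) ^ (5/4 : ℝ) :=
        Real.rpow_le_rpow (by positivity) (by linarith) (by norm_num)
      have i7 : (192 * (L:ℝ)) ^ (-(5/4 + (s:ℝ))) * (192 * (L:ℝ)) ^ (5/4 : ℝ) =
          ((192 * (L:ℝ)) ^ s)⁻¹ := by
        rw [← Real.rpow_add (by linarith), ← Real.rpow_natCast, ← Real.rpow_neg (by linarith)]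
        congr 1; ring
      have i8 : (384:ℝ) ^ s ≤ (192 * (L:ℝ)) ^ s := pow_le_pow_left₀ (by norm_num) (by linarith) s
      have i9 : ((192 * (L:ℝ)) ^ s)⁻¹ ≤ ((384:ℝ) ^ s)⁻¹ := inv_anti₀ (by positivity) i8
      have hP : 0 ≤ (192 * (L:ℝ)) ^ (-(5/4 + (s:ℝ))) := by positivity
      have i10 : c * Y ^ (-(5/4 : ℝ)) ≤ ((384:ℝ) ^ s)⁻¹ * Cc * Y ^ (-(5/4 : ℝ)) := by
        calc c * Y ^ (-(5/4 : ℝ)) ≤ a4 (1/2) (4 * L * m) := i1
          _ ≤ (192 * (L:ℝ)) ^ (-(5/4 + (s:ℝ))) * a4 (1/2) (m / 8) := h2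
          _ ≤ (192 * (L:ℝ)) ^ (-(5/4 + (s:ℝ))) * (Cc * ((192 * (L:ℝ)) ^ (5/4 : ℝ) *
              Y ^ (-(5/4 : ℝ)))) := by
              apply mul_le_mul_of_nonneg_left _ hP
              refine i2.trans (mul_le_mul_of_nonneg_left ?_ hCc.le)
              exact i4.trans (mul_le_mul_of_nonneg_right i6 hX.le)
          _ = ((192 * (L:ℝ)) ^ (-(5/4 + (s:ℝ))) * (192 * (L:ℝ)) ^ (5/4 : ℝ)) *
              (Cc * Y ^ (-(5/4 : ℝ))) := by ring
          _ = ((192 * (L:ℝ)) ^ s)⁻¹ * (Cc * Y ^ (-(5/4 : ℝ))) := by rw [i7]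
          _ ≤ ((384:ℝ) ^ s)⁻¹ * (Cc * Y ^ (-(5/4 : ℝ))) :=
              mul_le_mul_of_nonneg_right i9 (by positivity)
          _ = _ := by ring
      have i11 : c ≤ ((384:ℝ) ^ s)⁻¹ * Cc := le_of_mul_le_mul_right i10 hX
      have i12 : Cc < c * 384 ^ s := by
        rw [div_lt_iff₀ hc] at hs
        linarith
      have i13 : ((384:ℝ) ^ s)⁻¹ * Cc < c := by
        rw [inv_mul_lt_iff₀ (by positivity)]
        linarith
      linarith
    · exact h2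
  -- constants
  set c1 : ℝ := c / (C * (4 * (L:ℝ)) ^ (5/4 : ℝ)) with hc1
  have hc1p : 0 < c1 := by positivity
  set η : ℝ := c1 / (2 * (C1 * C0 ^ 2)) with hη
  have hηp : 0 < η := by positivity
  set Q : ℝ := (4 * (L:ℝ) * M) ^ (3/4 : ℝ) with hQ
  have hQ1 : 1 ≤ Q := Real.one_le_rpow (by nlinarith) (by norm_num)
  set D : ℝ := Q * C0 + Q / η + C0 + 2 / c1 * (M:ℝ) ^ (5/4 : ℝ) with hD
  have d1 : 0 < Q * C0 := by positivity
  have d2 : 0 < Q / η := by positivity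
  have d3 : 0 < 2 / c1 * (M:ℝ) ^ (5/4 : ℝ) := by positivity
  have hDp : 0 < D := by linarith
  refine ⟨κ, D, hκ, by linarith, ?_⟩
  intro n q hn hq
  have hnr : (1:ℝ) ≤ n := by exact_mod_cast hn
  have hnp : (0:ℝ) < n := by linarith
  set n' : ℕ := 4 * L * (M * n) with hn'
  have hn'1 : 1 ≤ n' := by
    have : 0 < n' := by rw [hn']; positivity
    omega
  have hnn' : n ≤ n' := by
    rw [hn']
    have : 1 * n ≤ (4 * L * M) * n := Nat.mul_le_mul_right _ (by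
      have : 0 < 4 * L * M := by positivity
      omega)
    calc n = 1 * n := (one_mul n).symm
      _ ≤ (4 * L * M) * n := this
      _ = 4 * L * (M * n) := by ring
  have hn'pow : (n':ℝ) ^ (-(3/4 : ℝ)) = (n:ℝ) ^ (-(3/4 : ℝ)) / Q := by
    have e1 : (n':ℝ) = (4 * (L:ℝ) * M) * n := by rw [hn']; push_cast; ring
    rw [e1, Real.mul_rpow (by positivity) hnp.le, Real.rpow_neg (by positivity), ← hQ]
    field_simp
  have hx : 0 < (n:ℝ) ^ (-(3/4 : ℝ)) := by positivity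
  have hq1 : |q - 1/2| ≤ (n':ℝ) ^ (-(3/4 : ℝ)) / C0 := by
    refine hq.trans ?_
    rw [hn'pow, div_div]
    exact div_le_div_of_nonneg_left hx.le d1 (by linarith)
  have hq2 : |q - 1/2| ≤ η * (n':ℝ) ^ (-(3/4 : ℝ)) := by
    refine hq.trans ?_
    rw [hn'pow]
    have e1 : η * ((n:ℝ) ^ (-(3/4 : ℝ)) / Q) = (n:ℝ) ^ (-(3/4 : ℝ)) / (Q / η) := by
      field_simp
    rw [e1]
    exact div_le_div_of_nonneg_left hx.le d2 (by linarith)
  have hW := hst n' hn'1 q hq1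
  have hWn : Win q κ n := ⟨hW.1.kpos, hW.1.kle, hW.1.lo, hW.1.hi,
    fun k h1 h2 => hW.1.pri k h1 (h2.trans hnn'), fun k h1 h2 => hW.1.dua k h1 (h2.trans hnn')⟩
  have hq0 : 0 ≤ q := by linarith [hWn.lo]
  have hq1' : q ≤ 1 := by linarith [hWn.hi]
  refine ⟨hWn, ?_⟩
  intro k hk1 hkn
  have hkr : (1:ℝ) ≤ k := by exact_mod_cast hk1
  have hkp : (0:ℝ) < k := by linarith
  have hkpow : 0 < (k:ℝ) ^ (-(5/4 : ℝ)) := by positivity
  constructor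
  · -- lower bound
    obtain ⟨m, hm⟩ : ∃ m : ℕ, m = M * k := ⟨_, rfl⟩
    have hm512 : 512 ≤ m := by
      rw [hm]; exact hM.trans (Nat.le_mul_of_pos_right _ hk1)
    have hmn' : 4 * L * m ≤ n' := by
      rw [hm, hn']
      exact Nat.mul_le_mul_left _ (Nat.mul_le_mul_left _ hkn)
    have hmn'' : m ≤ n' := by
      refine le_trans ?_ hmn'
      calc m = 1 * m := (one_mul m).symm
        _ ≤ 4 * L * m := Nat.mul_le_mul_right _ (by omega)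
    have hmr : (512:ℝ) ≤ m := by exact_mod_cast hm512
    have hmp : (0:ℝ) < m := by linarith
    obtain ⟨I, J, hIJ, hb⟩ := hreg k m hk1 hm
    have hn1 : 1 ≤ 4 * L * m := by
      have : 0 < 4 * L * m := by positivity
      omega
    have hm2 : (m:ℝ)^2 * (m:ℝ) ^ (-(5/4 : ℝ)) = (m:ℝ) ^ (3/4 : ℝ) := by
      rw [← Real.rpow_natCast, ← Real.rpow_add hmp]
      norm_num
    have i1 : c1 * (m:ℝ) ^ (3/4 : ℝ) ≤ PFS (1/2) L m I J := by
      have j1 := (hcr (4 * L * m) hn1).1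
      have j2 : ((4 * L * m : ℕ) : ℝ) ^ (-(5/4 : ℝ)) =
          ((4 * (L:ℝ)) ^ (5/4 : ℝ))⁻¹ * (m:ℝ) ^ (-(5/4 : ℝ)) := by
        push_cast
        rw [Real.mul_rpow (by positivity) hmp.le, Real.rpow_neg (by positivity : (0:ℝ) ≤ 4 * L)]
      rw [j2] at j1
      have j3 : (m:ℝ)^2 * (c * (((4 * (L:ℝ)) ^ (5/4 : ℝ))⁻¹ * (m:ℝ) ^ (-(5/4 : ℝ)))) ≤
          C * PFS (1/2) L m I J :=
        (mul_le_mul_of_nonneg_left j1 (by positivity)).trans hb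
      have j4 : (m:ℝ)^2 * (c * (((4 * (L:ℝ)) ^ (5/4 : ℝ))⁻¹ * (m:ℝ) ^ (-(5/4 : ℝ)))) =
          C * (c1 * (m:ℝ) ^ (3/4 : ℝ)) := by
        rw [← hm2, hc1]
        field_simp
      rw [j4] at j3
      exact le_of_mul_le_mul_left j3 hC
    have hseg : ∀ t ∈ Set.uIcc (1/2) q, Win t κ n' ∧ A4le t C0 0 n' := by
      intro t ht
      apply hst n' hn'1 t
      exact (Set.abs_sub_left_of_mem_uIcc ht).trans hq1
    have hlip := lip (f := fun q => PFS q L m I J) (a := 1/2) (b := q)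
        (B := C1 * C0 ^ 2 * (m:ℝ) ^ ((3/2 : ℝ) + 2 * 0))
        (fun t ht => hT t n' (hseg t ht).1 C0 hC0 (hseg t ht).2 m (by omega) hmn'' I J hIJ)
    rw [mul_zero, add_zero] at hlip
    have hdiff : C1 * C0 ^ 2 * (m:ℝ) ^ (3/2 : ℝ) * |q - 1/2| ≤ c1 / 2 * (m:ℝ) ^ (3/4 : ℝ) := by
      have j1 : (n':ℝ) ^ (-(3/4 : ℝ)) ≤ (m:ℝ) ^ (-(3/4 : ℝ)) :=
        Real.rpow_le_rpow_of_nonpos hmp (by exact_mod_cast hmn'') (by norm_num)
      have j2 : (m:ℝ) ^ (3/2 : ℝ) * (m:ℝ) ^ (-(3/4 : ℝ)) = (m:ℝ) ^ (3/4 : ℝ) := by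
        rw [← Real.rpow_add hmp]; norm_num
      calc C1 * C0 ^ 2 * (m:ℝ) ^ (3/2 : ℝ) * |q - 1/2|
          ≤ C1 * C0 ^ 2 * (m:ℝ) ^ (3/2 : ℝ) * (η * (m:ℝ) ^ (-(3/4 : ℝ))) := by
            apply mul_le_mul_of_nonneg_left _ (by positivity)
            exact hq2.trans (mul_le_mul_of_nonneg_left j1 hηp.le)
        _ = (C1 * C0 ^ 2 * η) * ((m:ℝ) ^ (3/2 : ℝ) * (m:ℝ) ^ (-(3/4 : ℝ))) := by ring
        _ = c1 / 2 * (m:ℝ) ^ (3/4 : ℝ) := by
            rw [j2, hη]; field_simp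
    have i2 : c1 / 2 * (m:ℝ) ^ (3/4 : ℝ) ≤ PFS q L m I J := by
      have j1 := (abs_le.mp (hlip.trans hdiff)).1
      linarith
    have i3 : PFS q L m I J ≤ (m:ℝ)^2 * a4 q (m / 2) :=
      T_upper hq0 hq1' (L := L) (m := m) (by omega) hL hIJ
    have i4 : c1 / 2 * (m:ℝ) ^ (-(5/4 : ℝ)) ≤ a4 q (m / 2) := by
      have j1 : (m:ℝ)^2 * (c1 / 2 * (m:ℝ) ^ (-(5/4 : ℝ))) ≤ (m:ℝ)^2 * a4 q (m / 2) := by
        calc (m:ℝ)^2 * (c1 / 2 * (m:ℝ) ^ (-(5/4 : ℝ))) = c1 / 2 * (m:ℝ) ^ (3/4 : ℝ) := by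
              rw [← hm2]; ring
          _ ≤ _ := i2.trans i3
      exact le_of_mul_le_mul_left j1 (by positivity)
    have hk2 : k ≤ m / 2 := by
      rw [Nat.le_div_iff_mul_le (by norm_num), hm, mul_comm]
      exact Nat.mul_le_mul_right _ (by omega)
    have i5 : a4 q (m / 2) ≤ a4 q k := a4_anti hq0 hq1' hk1 hk2
    have i6 : (m:ℝ) ^ (-(5/4 : ℝ)) = ((M:ℝ) ^ (5/4 : ℝ))⁻¹ * (k:ℝ) ^ (-(5/4 : ℝ)) := by
      rw [hm]; push_cast
      rw [Real.mul_rpow (by positivity) hkp.le, Real.rpow_neg (by positivity : (0:ℝ) ≤ M)]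
    have i7 : (k:ℝ) ^ (-(5/4 : ℝ)) / (2 / c1 * (M:ℝ) ^ (5/4 : ℝ)) ≤ a4 q k := by
      refine le_trans (le_of_eq ?_) (i4.trans i5)
      rw [i6]
      field_simp
    refine le_trans ?_ i7
    exact div_le_div_of_nonneg_left hkpow.le d3 (by linarith)
  · -- upper bound
    have h := hW.2 k (hkn.trans hnn')
    rw [add_zero] at h
    refine h.trans ?_
    have j1 : ((k:ℝ) + 1) ^ (-(5/4 : ℝ)) ≤ (k:ℝ) ^ (-(5/4 : ℝ)) :=
      Real.rpow_le_rpow_of_nonpos hkp (by linarith) (by norm_num)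
    exact mul_le_mul (by linarith) j1 (by positivity) (by linarith)

end H362S
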