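import Pool.Agent.H362S.Stmts
import Pool.Agent.H31R3.Kes.Stab

/-!
KS-A: one-arm stability in the sharp window (helper744), adapted from `H31K.stab_inp`
(`Pool/Agent/H31R3/Kes/Stab.lean`, helper31).
-/

set_option maxHeartbeats 400000

namespace H362S.A

open H974 Finset H31K

/-- the geometric sum -/
theorem geomS {ε : ℝ} (he : 0 ≤ ε) {n : ℕ} (hn : 1 ≤ n) :
    ∑ k ∈ (range n).filter (fun k => 9 * 2^k ≤ n), ((2:ℝ)^(1/4 + ε))^k ≤
      7 * (n:ℝ)^(1/4 + ε) := by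
  set ρ : ℝ := (2:ℝ)^(1/4 + ε) with hρ
  have hρ1 : 1.18 ≤ ρ := by
    have h1 : (1.18:ℝ) ≤ (2:ℝ)^(1/4 : ℝ) := by
      have h2 : ((1.18:ℝ)^(4:ℕ))^(1/4 : ℝ) ≤ (2:ℝ)^(1/4 : ℝ) :=
        Real.rpow_le_rpow (by norm_num) (by norm_num) (by norm_num)
      rw [← Real.rpow_natCast, ← Real.rpow_mul (by norm_num)] at h2
      norm_num at h2 ⊢
      exact h2
    refine h1.trans ?_
    rw [hρ]
    exact Real.rpow_le_rpow_of_exponent_le (by norm_num) (by linarith)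
  have hsub : (range n).filter (fun k => 9 * 2^k ≤ n) ⊆ range (Nat.log 2 n + 1) := by
    intro k hk
    rw [mem_filter] at hk
    rw [mem_range, Nat.lt_succ_iff]
    apply Nat.le_log_of_pow_le (by norm_num)
    omega
  have h1 : ∑ k ∈ (range n).filter (fun k => 9 * 2^k ≤ n), ρ^k ≤
      ∑ k ∈ range (Nat.log 2 n + 1), ρ^k :=
    sum_le_sum_of_subset_of_nonneg hsub (fun k _ _ => by positivity)
  refine h1.trans ?_
  rw [geom_sum_eq (by linarith), div_le_iff₀ (by linarith)]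
  have h2 : ρ^(Nat.log 2 n) ≤ (n:ℝ)^(1/4 + ε) := by
    have h3 : ρ^(Nat.log 2 n) = ((2:ℝ)^(Nat.log 2 n))^(1/4 + ε) := by
      rw [hρ, ← Real.rpow_natCast, ← Real.rpow_natCast, ← Real.rpow_mul (by norm_num),
        ← Real.rpow_mul (by norm_num), mul_comm]
    rw [h3]
    apply Real.rpow_le_rpow (by positivity) _ (by linarith)
    exact_mod_cast Nat.pow_log_le_self 2 (by omega)
  have h4 : 0 ≤ (n:ℝ)^(1/4 + ε) := by positivity
  rw [pow_succ]
  have h5 : ρ^(Nat.log 2 n) * ρ ≤ (n:ℝ)^(1/4 + ε) * ρ := mul_le_mul_of_nonneg_right h2 (by linarith)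
  nlinarith

/-- the derivative is at most `Λ` times the one-arm probability -/
theorem dArmS {κ B ε : ℝ} (hκ : 0 < κ) (hB : 0 < B) (he : 0 ≤ ε) (he1 : ε ≤ 1/4) :
    ∃ L : ℝ, 0 < L ∧ ∀ (n : ℕ) (q : ℝ), 1 ≤ n → H12S.Win q κ n →
      (∀ m : ℕ, 1 ≤ m → m ≤ n → H12S.a4 q m ≤ B * (m:ℝ)^(-(5/4) + ε)) →
      dArm q n ≤ L * (n:ℝ)^(3/4 + ε) * arm q n := by
  obtain ⟨C, hC, hd⟩ := dArm_le
  refine ⟨C / κ^7 * (1 + 7 * B) + 133128, by positivity, ?_⟩
  intro n q hn hW h4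
  have hq0 : 0 ≤ q := by linarith [hW.lo]
  have hq1 : q ≤ 1 := by linarith [hW.hi]
  have harm := arm_nonneg hq0 hq1 n
  have hn1 : (1:ℝ) ≤ n := by exact_mod_cast hn
  have hn0 : (0:ℝ) < n := by linarith
  have hpow1 : 1 ≤ (n:ℝ)^(3/4 + ε) := Real.one_le_rpow hn1 (by linarith)
  rcases lt_or_ge n 64 with hn64 | hn64
  · -- small n
    have h1 : dArm q n ≤ ∑ _e ∈ boxE n, 4 * arm q n := by
      unfold dArm
      apply sum_le_sum
      intro e he
      have h2 := piv_le (P := fun _ => q) (okq hq0 hq1) he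
      have h3 : armP (fun _ => q) n = arm q n := rfl
      rw [h3] at h2
      have h5 : 0 ≤ Pr (fun _ => q) ((boxE n).erase e) (PivA n e) := Pr_nonneg (okq hq0 hq1) _ _
      have h6 := hW.lo
      nlinarith
    rw [sum_const, nsmul_eq_mul] at h1
    have hcard : ((boxE n).card : ℝ) ≤ 33282 := by
      have hM : (2 * n + 1) * ((2 * n + 1) * 2) ≤ 33282 := by
        have h0 : 2 * n + 1 ≤ 129 := by omega
        calc (2 * n + 1) * ((2 * n + 1) * 2) ≤ 129 * (129 * 2) :=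
              Nat.mul_le_mul h0 (Nat.mul_le_mul_right 2 h0)
          _ = 33282 := by norm_num
      have h2 := card_boxE_le hM
      push_cast at h2
      exact h2
    have h7 : ((boxE n).card : ℝ) * (4 * arm q n) ≤ 33282 * (4 * arm q n) :=
      mul_le_mul_of_nonneg_right hcard (by linarith)
    have h8 : 33282 * (4 * arm q n) ≤ 133128 * (n:ℝ)^(3/4 + ε) * arm q n := by nlinarith
    have h9 : 0 ≤ C / κ^7 * (1 + 7 * B) * (n:ℝ)^(3/4 + ε) * arm q n := by positivity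
    nlinarith
  · have h1 := hd q κ n hn64 hW
    have hterm : ∀ k ∈ (range n).filter (fun k => 9 * 2^k ≤ n),
        Real.sqrt (n / (2:ℝ)^k) * ((4:ℝ)^k * H12S.a4 q (3 * 2^k)) ≤
          B * Real.sqrt n * ((2:ℝ)^(1/4 + ε))^k := by
      intro k hk
      rw [mem_filter] at hk
      have hk2 := hk.2
      have h2k : 0 < 2^k := by positivity
      have h5 := h4 (3 * 2^k) (by omega) (by omega)
      have hx : (0:ℝ) < (2:ℝ)^k := by positivity
      have h6 : (((3 * 2^k : ℕ) : ℝ))^(-(5/4) + ε) ≤ ((2:ℝ)^k)^(-(5/4) + ε) := by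
        push_cast
        apply Real.rpow_le_rpow_of_nonpos hx _ (by linarith)
        linarith
      have h7 : Real.sqrt (n / (2:ℝ)^k) = Real.sqrt n * ((2:ℝ)^k)^(-(1/2) : ℝ) := by
        rw [Real.sqrt_div hn0.le, Real.rpow_neg hx.le, ← Real.sqrt_eq_rpow, div_eq_mul_inv]
      have h8 : (4:ℝ)^k = ((2:ℝ)^k)^(2:ℝ) := by
        rw [Real.rpow_two, ← pow_mul, mul_comm, pow_mul]; norm_num
      have h9 : ((2:ℝ)^(1/4 + ε))^k = ((2:ℝ)^k)^(1/4 + ε) := by
        rw [← Real.rpow_natCast, ← Real.rpow_natCast, ← Real.rpow_mul (by norm_num),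
          ← Real.rpow_mul (by norm_num), mul_comm]
      rw [h7, h8, h9]
      calc Real.sqrt n * ((2:ℝ)^k)^(-(1/2) : ℝ) * (((2:ℝ)^k)^(2:ℝ) * H12S.a4 q (3 * 2^k))
          ≤ Real.sqrt n * ((2:ℝ)^k)^(-(1/2) : ℝ) * (((2:ℝ)^k)^(2:ℝ) *
            (B * ((2:ℝ)^k)^(-(5/4) + ε))) := by
            apply mul_le_mul_of_nonneg_left _ (by positivity)
            apply mul_le_mul_of_nonneg_left _ (by positivity)
            exact h5.trans (mul_le_mul_of_nonneg_left h6 hB.le)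
        _ = B * Real.sqrt n * (((2:ℝ)^k)^(-(1/2) : ℝ) * ((2:ℝ)^k)^(2:ℝ) *
            ((2:ℝ)^k)^(-(5/4) + ε)) := by ring
        _ = B * Real.sqrt n * ((2:ℝ)^k)^(1/4 + ε) := by
            rw [← Real.rpow_add hx, ← Real.rpow_add hx]
            congr 2
            ring
    have hsum : ∑ k ∈ (range n).filter (fun k => 9 * 2^k ≤ n),
        Real.sqrt (n / (2:ℝ)^k) * ((4:ℝ)^k * H12S.a4 q (3 * 2^k)) ≤
          7 * B * (n:ℝ)^(3/4 + ε) := by
      refine (sum_le_sum hterm).trans ?_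
      rw [← mul_sum]
      have h5 := geomS he hn
      calc B * Real.sqrt n * ∑ k ∈ (range n).filter (fun k => 9 * 2^k ≤ n), ((2:ℝ)^(1/4 + ε))^k
          ≤ B * Real.sqrt n * (7 * (n:ℝ)^(1/4 + ε)) :=
            mul_le_mul_of_nonneg_left h5 (by positivity)
        _ = 7 * B * ((n:ℝ)^(1/2 : ℝ) * (n:ℝ)^(1/4 + ε)) := by rw [Real.sqrt_eq_rpow]; ring
        _ = 7 * B * (n:ℝ)^(3/4 + ε) := by
            rw [← Real.rpow_add hn0]
            congr 2
            ring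
    have hsq : Real.sqrt n ≤ (n:ℝ)^(3/4 + ε) := by
      rw [Real.sqrt_eq_rpow]
      exact Real.rpow_le_rpow_of_exponent_le hn1 (by linarith)
    have hc : 0 ≤ C / κ^7 * arm q n := by positivity
    calc dArm q n ≤ C / κ^7 * arm q n * (Real.sqrt n +
        ∑ k ∈ (range n).filter (fun k => 9 * 2^k ≤ n),
          Real.sqrt (n / (2:ℝ)^k) * ((4:ℝ)^k * H12S.a4 q (3 * 2^k))) := h1
      _ ≤ C / κ^7 * arm q n * ((n:ℝ)^(3/4 + ε) + 7 * B * (n:ℝ)^(3/4 + ε)) :=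
          mul_le_mul_of_nonneg_left (add_le_add hsq hsum) hc
      _ = C / κ^7 * (1 + 7 * B) * (n:ℝ)^(3/4 + ε) * arm q n := by ring
      _ ≤ (C / κ^7 * (1 + 7 * B) + 133128) * (n:ℝ)^(3/4 + ε) * arm q n := by
          apply mul_le_mul_of_nonneg_right _ harm
          apply mul_le_mul_of_nonneg_right _ (by linarith)
          linarith

/-- one-arm stability, `ε ≥ 0` -/
theorem stabS {κ B ε : ℝ} (hκ : 0 < κ) (hB : 0 < B) (he : 0 ≤ ε) (he1 : ε ≤ 1/4) :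
    ∃ c : ℝ, 0 < c ∧ ∀ (n : ℕ) (δ : ℝ), 1 ≤ n → 0 ≤ δ → δ * (n:ℝ)^(3/4 + ε) ≤ c →
      (∀ q : ℝ, |q - 1/2| ≤ δ → H12S.Win q κ n ∧
        ∀ m : ℕ, 1 ≤ m → m ≤ n → H12S.a4 q m ≤ B * (m:ℝ)^(-(5/4) + ε)) →
      ∀ q : ℝ, |q - 1/2| ≤ δ → arm q n ≤ 3 * arm (1/2) n ∧ arm (1/2) n ≤ 3 * arm q n := by
  obtain ⟨L, hL, hd⟩ := dArmS hκ hB he he1
  refine ⟨1 / L, by positivity, ?_⟩
  intro n δ hn hδ hδc hwin q hq
  set Λ : ℝ := L * (n:ℝ)^(3/4 + ε) with hΛ
  have hΛ0 : 0 ≤ Λ := by positivity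
  have hδΛ : Λ * δ ≤ 1 := by
    have h1 := mul_le_mul_of_nonneg_left hδc hL.le
    rw [mul_one_div, div_self hL.ne'] at h1
    rw [hΛ]
    linarith
  obtain ⟨hW, _⟩ := hwin q hq
  have hq0 : 0 ≤ q := by linarith [hW.lo]
  have hq1 : q ≤ 1 := by linarith [hW.hi]
  have harm := arm_nonneg hq0 hq1 n
  have harm2 := arm_nonneg (q := 1/2) (by norm_num) (by norm_num) n
  have hexp : ∀ t : ℝ, t ≤ 1 → Real.exp t ≤ 3 := by
    intro t ht
    have h1 := Real.exp_le_exp.mpr ht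
    have h2 := Real.exp_one_lt_d9
    linarith
  have hab := abs_le.mp hq
  rcases le_total (1/2) q with h | h
  · constructor
    · have h1 := stab_gron (n := n) (Λ := Λ) h (fun x h1 h2 => by
        obtain ⟨hWx, h4x⟩ := hwin x (by rw [abs_le]; constructor <;> linarith)
        exact hd n x hn hWx h4x)
      refine h1.trans (mul_le_mul_of_nonneg_right (hexp _ ?_) harm2)
      have h3 : Λ * (q - 1/2) ≤ Λ * δ := mul_le_mul_of_nonneg_left hab.2 hΛ0
      linarith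
    · have h1 := arm_mono_param (by norm_num) h hq1 n
      linarith
  · constructor
    · have h1 := arm_mono_param hq0 h (by norm_num) n
      linarith
    · have h1 := stab_gron (n := n) (Λ := Λ) h (fun x h1 h2 => by
        obtain ⟨hWx, h4x⟩ := hwin x (by rw [abs_le]; constructor <;> linarith)
        exact hd n x hn hWx h4x)
      refine h1.trans (mul_le_mul_of_nonneg_right (hexp _ ?_) harm)
      have h3 : Λ * (1/2 - q) ≤ Λ * δ := mul_le_mul_of_nonneg_left (by linarith) hΛ0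
      linarith


theorem taskA : TaskA := by
  rintro ⟨κ, C, hκ, hC, hN⟩
  have hC0 : 0 < C := by linarith
  obtain ⟨c, hc, hst⟩ := stabS (ε := 0) hκ hC0 le_rfl (by norm_num)
  refine ⟨κ, min (1 / C) c, hκ, lt_min (by positivity) hc, ?_⟩
  intro n q hn hq
  have hn1 : (1:ℝ) ≤ n := by exact_mod_cast hn
  have hn0 : (0:ℝ) < n := by linarith
  set δ : ℝ := min (1 / C) c * (n:ℝ)^(-(3/4) : ℝ) with hδ
  have hm0 : 0 < min (1 / C) c := lt_min (by positivity) hc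
  have hp0 : 0 < (n:ℝ)^(-(3/4) : ℝ) := by positivity
  have hwin : ∀ q' : ℝ, |q' - 1/2| ≤ δ → H12S.Win q' κ n ∧
        ∀ m : ℕ, 1 ≤ m → m ≤ n → H12S.a4 q' m ≤ C * (m:ℝ)^(-(5/4) + (0:ℝ)) := by
    intro q' hq'
    have h1 : |q' - 1/2| ≤ (n:ℝ)^(-(3/4) : ℝ) / C := by
      have h2 : δ ≤ 1 / C * (n:ℝ)^(-(3/4) : ℝ) :=
        mul_le_mul_of_nonneg_right (min_le_left _ _) hp0.le
      have h3 : 1 / C * (n:ℝ)^(-(3/4) : ℝ) = (n:ℝ)^(-(3/4) : ℝ) / C := by ring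
      exact hq'.trans (h2.trans h3.le)
    obtain ⟨hW, h4⟩ := hN n q' hn h1
    refine ⟨hW, fun m h1 h2 => ?_⟩
    rw [add_zero]
    exact (h4 m h1 h2).2
  refine ⟨(hwin q hq).1, ?_⟩
  refine hst n δ hn (by positivity) ?_ hwin q hq
  rw [hδ, add_zero, mul_assoc, ← Real.rpow_add hn0]
  norm_num

end H362S.A
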