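import Pool.Agent.H362S.Stmts

/-!
Task C: the sharp lower bound of theta from the sharp scale of supercritical crossings.
-/

namespace H362S

open H974 H31K Finset

theorem taskC : TaskC := by
  intro hF
  obtain ⟨C, hC, hF⟩ := hF
  obtain ⟨c, C', hc, hC', harm⟩ := Pool.Agent.H160R2.SA.arSharp
  have hC0 : (0:ℝ) < 2 * C := by linarith
  refine ⟨1/2 * (c * (2 * C) ^ (-(5/48) : ℝ)), by positivity, ?_⟩
  intro p hp
  set s : ℝ := (p:ℝ) - 1/2 with hs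
  have hs0 : 0 < s := by rw [hs]; linarith
  obtain ⟨N, hN2, hNle, hfar⟩ := hF p hp p.2.2
  have h5 : 1/2 * arm p (2 * N) ≤ theta p :=
    le_theta p (fun m => arm_chain p.2.1 p.2.2 (by omega) hfar m)
  have h6 : arm (1/2) (2 * N) ≤ arm p (2 * N) :=
    arm_mono_param (by norm_num) hp.le p.2.2 _
  have h7 : c * ((2 * N : ℕ) : ℝ) ^ (-(5/48) : ℝ) ≤ arm (1/2) (2 * N) :=
    (harm (2 * N) (by omega)).1
  have hNpos : (0:ℝ) < ((2 * N : ℕ) : ℝ) := by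
    have : 0 < 2 * N := by omega
    exact_mod_cast this
  have h9 : (2 * C) ^ (-(5/48) : ℝ) * s ^ (5/36 : ℝ) ≤ ((2 * N : ℕ) : ℝ) ^ (-(5/48) : ℝ) := by
    have h11 : ((2 * N : ℕ) : ℝ) ≤ (2 * C) * s ^ (-(4/3) : ℝ) := by
      push_cast
      linarith
    have h12 : (0:ℝ) < s ^ (-(4/3) : ℝ) := Real.rpow_pos_of_pos hs0 _
    calc (2 * C) ^ (-(5/48) : ℝ) * s ^ (5/36 : ℝ)
        = (2 * C) ^ (-(5/48) : ℝ) * (s ^ (-(4/3) : ℝ)) ^ (-(5/48) : ℝ) := by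
          rw [← Real.rpow_mul hs0.le]
          congr 2
          norm_num
      _ = ((2 * C) * s ^ (-(4/3) : ℝ)) ^ (-(5/48) : ℝ) :=
          (Real.mul_rpow hC0.le h12.le).symm
      _ ≤ ((2 * N : ℕ) : ℝ) ^ (-(5/48) : ℝ) :=
          Real.rpow_le_rpow_of_nonpos hNpos h11 (by norm_num)
  calc 1/2 * (c * (2 * C) ^ (-(5/48) : ℝ)) * s ^ (5/36 : ℝ)
      = 1/2 * (c * ((2 * C) ^ (-(5/48) : ℝ) * s ^ (5/36 : ℝ))) := by ring
    _ ≤ 1/2 * (c * ((2 * N : ℕ) : ℝ) ^ (-(5/48) : ℝ)) := by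
        have := mul_le_mul_of_nonneg_left h9 hc.le
        linarith
    _ ≤ 1/2 * arm p (2 * N) := by linarith
    _ ≤ theta p := h5

end H362S
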