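import Pool.Agent.H362S.Stmts

/-!
Task F: supercritical crossings beyond the correlation length, up to constants.
-/

namespace H362S

open H974 Finset

theorem taskF_core {Win : ℝ → ℝ → ℕ → Prop} {eps : ℝ → ℕ → ℝ}
    (hsup : ∃ κ : ℝ, 0 < κ ∧ κ ≤ 1/2 ∧ ∀ q : ℝ, 1/2 ≤ q → q ≤ 3/4 → ∀ n : ℕ,
      ¬ Win q κ n → ∃ N : ℕ, 2 ≤ N ∧ N ≤ n + 2 ∧ eps q N ≤ 1/100)
    (hmono : ∀ p q : ℝ, ∀ N : ℕ, 0 ≤ p → p ≤ q → q ≤ 1 → eps q N ≤ eps p N)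
    (hend : ∀ κ : ℝ, 0 < κ → κ ≤ 1/2 → ∃ C h0 : ℝ, 0 < C ∧ 0 < h0 ∧ ∀ q : ℝ,
      1/2 < q → q ≤ 1/2 + h0 → ∃ n : ℕ, (n:ℝ) ≤ C * (q - 1/2) ^ (-(4/3) : ℝ) ∧ ¬ Win q κ n) :
    ∃ C : ℝ, 1 ≤ C ∧ ∀ q : ℝ, 1/2 < q → q ≤ 1 →
      ∃ N : ℕ, 2 ≤ N ∧ (N:ℝ) ≤ C * (q - 1/2) ^ (-(4/3) : ℝ) ∧ eps q N ≤ 1/100 := by
  obtain ⟨κ, hκ, hκ2, hs⟩ := hsup
  obtain ⟨C, h0, hC, hh0, he⟩ := hend κ hκ hκ2
  set h1 : ℝ := min h0 (1/4) with hh1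
  have h1p : 0 < h1 := lt_min hh0 (by norm_num)
  have h1a : h1 ≤ h0 := min_le_left _ _
  have h1b : h1 ≤ 1/4 := min_le_right _ _
  have one : ∀ q : ℝ, 1/2 < q → q ≤ 1 → 1 ≤ (q - 1/2) ^ (-(4/3) : ℝ) := by
    intro q hq1 hq2
    exact Real.one_le_rpow_of_pos_of_le_one_of_nonpos (by linarith) (by linarith) (by norm_num)
  have near : ∀ q : ℝ, 1/2 < q → q ≤ 1/2 + h1 →
      ∃ N : ℕ, 2 ≤ N ∧ (N:ℝ) ≤ (C + 2) * (q - 1/2) ^ (-(4/3) : ℝ) ∧ eps q N ≤ 1/100 := by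
    intro q hq1 hq2
    obtain ⟨n, hn, hnW⟩ := he q hq1 (by linarith)
    obtain ⟨N, hN2, hNn, hNe⟩ := hs q hq1.le (by linarith) n hnW
    refine ⟨N, hN2, ?_, hNe⟩
    have hN : (N:ℝ) ≤ n + 2 := by exact_mod_cast hNn
    have := one q hq1 (by linarith)
    linarith
  obtain ⟨N1, hN1, hN1C, hN1e⟩ := near (1/2 + h1) (by linarith) le_rfl
  set K : ℝ := (C + 2) * (1/2 + h1 - 1/2) ^ (-(4/3) : ℝ) with hK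
  have hKp : 0 ≤ K := by
    have : (0:ℝ) ≤ N1 := Nat.cast_nonneg _
    linarith
  refine ⟨C + 2 + K, by linarith, ?_⟩
  intro q hq1 hq2
  have h1q := one q hq1 hq2
  rcases le_total q (1/2 + h1) with h | h
  · obtain ⟨N, a, b, c⟩ := near q hq1 h
    refine ⟨N, a, ?_, c⟩
    nlinarith
  · refine ⟨N1, hN1, ?_, (hmono _ _ _ (by linarith) h hq2).trans hN1e⟩
    nlinarith

theorem taskF : TaskF := fun hE =>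
  taskF_core super_scale
    (fun _ _ N h0 hpq h1 => sub_le_sub_left (hh_mono_param h0 hpq h1 (2 * N) (N - 1)) 1) hE

end H362S
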