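import Pool.Agent.H362S.Stmts
import Pool.Agent.H974R4.W2.Close
import Pool.Agent.H12R2.Sep.WinHalf

/-!
Task G: the end of the scaling window up to constants.
-/

set_option autoImplicit false

namespace H362S

open H974 Finset

/-- Number of blocks that meet the rectangle. -/
theorem G_SB_up {q : ℝ} (h0 : 0 ≤ q) (h1 : q ≤ 1) {s t B g : ℕ} (hg : 1 ≤ g)
    (hs : s ≤ 2 * (B * g)) (ht : t ≤ 2 * (B * g)) (M : ℕ) :
    SB q s t M g ≤ (4 * (B:ℝ) + 5) ^ 2 := by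
  classical
  have e1 : ∑ i ∈ (idx M).filter (fun i => i ∈ idx (2 * B + 2)), PB q s t (gp g i) (2 * g - 1) =
      ∑ i ∈ idx M, PB q s t (gp g i) (2 * g - 1) := by
    apply Finset.sum_filter_of_ne
    intro i _ hne
    by_contra hn
    apply hne
    apply PB_out hg
    unfold idx at hn
    rw [Finset.mem_product, Finset.mem_Icc, Finset.mem_Icc] at hn
    push_cast at hn
    have hg0 : (0:ℤ) < g := by exact_mod_cast hg
    have hsz : (s:ℤ) ≤ 2 * (B * g) := by exact_mod_cast hs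
    have htz : (t:ℤ) ≤ 2 * (B * g) := by exact_mod_cast ht
    have key : ∀ x : ℤ, ¬ (-(2 * (B:ℤ) + 2) ≤ x ∧ x ≤ 2 * B + 2) →
        2 * ((B:ℤ) * g) + 2 * g < |(g:ℤ) * x| := by
      intro x hx
      have hx' : 2 * (B:ℤ) + 3 ≤ |x| := by
        rcases lt_or_ge x 0 with h | h
        · rw [abs_of_neg h]; by_contra hh; exact hx ⟨by omega, by omega⟩
        · rw [abs_of_nonneg h]; by_contra hh; exact hx ⟨by omega, by omega⟩
      rw [abs_mul, abs_of_pos hg0]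
      have := mul_le_mul_of_nonneg_left hx' hg0.le
      nlinarith
    by_cases hx : -(2 * (B:ℤ) + 2) ≤ i.1 ∧ i.1 ≤ 2 * B + 2
    · right
      have hy : ¬ (-(2 * (B:ℤ) + 2) ≤ i.2 ∧ i.2 ≤ 2 * B + 2) := fun h => hn ⟨hx, h⟩
      have := key _ hy
      unfold gp
      simp only
      linarith
    · left
      have := key _ hx
      unfold gp
      simp only
      linarith
  unfold SB
  rw [← e1]
  have e2 : ∀ i ∈ (idx M).filter (fun i => i ∈ idx (2 * B + 2)),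
      PB q s t (gp g i) (2 * g - 1) ≤ 1 := fun i _ => Pr_le_one (SM2_ok h0 h1) _ _
  have e3 := Finset.sum_le_card_nsmul _ _ _ e2
  refine e3.trans ?_
  rw [nsmul_eq_mul, mul_one]
  have e4 : ((idx M).filter (fun i => i ∈ idx (2 * B + 2))).card ≤ (idx (2 * B + 2)).card := by
    apply Finset.card_le_card
    intro i hi
    exact (Finset.mem_filter.mp hi).2
  have e5 : (idx (2 * B + 2)).card = (4 * B + 5) ^ 2 := by
    unfold idx
    rw [Finset.card_product, Int.card_Icc]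
    have : (((2 * B + 2 : ℕ) : ℤ) + 1 - -((2 * B + 2 : ℕ) : ℤ)).toNat = 4 * B + 5 := by
      push_cast; omega
    rw [this, sq]
  rw [e5] at e4
  exact_mod_cast e4

theorem G_WS_up {q : ℝ} (h0 : 0 ≤ q) (h1 : q ≤ 1) {B g : ℕ} (hg : 1 ≤ g) :
    WS q (B * g) g ≤ (((B * g : ℕ) : ℝ) + 1) ^ 2 * (4 * B + 5) ^ 2 := by
  set n := B * g with hn
  have hcard : ((Icc n (2 * n)).card : ℝ) = (n:ℝ) + 1 := by
    rw [Nat.card_Icc]
    have : 2 * n + 1 - n = n + 1 := by omega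
    rw [this]; push_cast; ring
  unfold WS
  have h2 : ∀ s ∈ Icc n (2 * n),
      ∑ t ∈ Icc n (2 * n), SB q s t (2 * n + 1) g ≤ ((n:ℝ) + 1) * ((4 * B + 5) ^ 2) := by
    intro s hs
    rw [← hcard, ← nsmul_eq_mul]
    apply Finset.sum_le_card_nsmul
    intro t ht
    exact G_SB_up h0 h1 hg (Finset.mem_Icc.mp hs).2 (Finset.mem_Icc.mp ht).2 _
  have h3 := Finset.sum_le_card_nsmul _ _ _ h2
  rw [nsmul_eq_mul, hcard] at h3
  linarith

/-- Regularity of the four-arm probability at a scale. -/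
theorem G_reg {C L p : ℝ} (hC : 1 ≤ C) (hL : 2 ≤ L) (hp : p = 2 + C ^ 2) {x1 x2 k1 k2 : ℝ}
    (hk1 : 1 ≤ k1) (hk2 : 1 ≤ k2) (hk : k2 ≤ 64 * L * k1)
    (h1 : x1 ≤ C * k1 ^ (-(5/4) : ℝ)) (h2 : k2 ^ (-(5/4) : ℝ) / C ≤ x2) :
    x1 ≤ (192 * L) ^ p * x2 := by
  have hL0 : 0 < 192 * L := by linarith
  have e1 : C ^ 2 ≤ (192 * L) ^ (C ^ 2 : ℝ) := by
    calc (C ^ 2 : ℝ) ≤ Real.exp (C ^ 2) := by have := Real.add_one_le_exp (C ^ 2); linarith
      _ = Real.exp 1 ^ (C ^ 2 : ℝ) := by rw [← Real.exp_mul, one_mul]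
      _ ≤ _ := by
          apply Real.rpow_le_rpow (Real.exp_pos _).le _ (by positivity)
          have := Real.exp_one_lt_d9
          linarith
  have e2 : (64 * L) ^ (5/4 : ℝ) ≤ (192 * L) ^ (2:ℝ) := by
    calc (64 * L) ^ (5/4 : ℝ) ≤ (192 * L) ^ (5/4 : ℝ) :=
          Real.rpow_le_rpow (by positivity) (by linarith) (by norm_num)
      _ ≤ _ := Real.rpow_le_rpow_of_exponent_le (by linarith) (by norm_num)
  have e3 : C ^ 2 * (64 * L) ^ (5/4 : ℝ) ≤ (192 * L) ^ p := by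
    rw [hp, Real.rpow_add hL0, mul_comm]
    exact mul_le_mul e2 e1 (by positivity) (by positivity)
  have e4 : (64 * L * k1) ^ (-(5/4) : ℝ) ≤ k2 ^ (-(5/4) : ℝ) :=
    Real.rpow_le_rpow_of_nonpos (by linarith) hk (by norm_num)
  rw [Real.mul_rpow (by positivity) (by linarith)] at e4
  have e5 : (64 * L) ^ (5/4 : ℝ) * (64 * L) ^ (-(5/4) : ℝ) = 1 := by
    rw [← Real.rpow_add (by positivity)]; norm_num
  have hk10 : 0 < k1 ^ (-(5/4) : ℝ) := by positivity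
  have h64 : 0 < (64 * L) ^ (-(5/4) : ℝ) := by positivity
  have e6 : (64 * L) ^ (-(5/4) : ℝ) * k1 ^ (-(5/4) : ℝ) / C ≤ x2 :=
    le_trans (div_le_div_of_nonneg_right e4 (by linarith)) h2
  calc x1 ≤ C * k1 ^ (-(5/4) : ℝ) := h1
    _ = (C ^ 2 * ((64 * L) ^ (5/4 : ℝ) * (64 * L) ^ (-(5/4) : ℝ))) * k1 ^ (-(5/4) : ℝ) / C := by
        rw [e5]; field_simp
    _ = (C ^ 2 * (64 * L) ^ (5/4 : ℝ)) * ((64 * L) ^ (-(5/4) : ℝ) * k1 ^ (-(5/4) : ℝ) / C) := by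
        ring
    _ ≤ (192 * L) ^ p * x2 := by
        apply mul_le_mul e3 e6 _ (by positivity)
        have : 0 < C := by linarith
        positivity

/-- Size of the number of pivotal edges at a scale. -/
theorem G_Y {C L m r0 x : ℝ} (hC : 1 ≤ C) (hL : 2 ≤ L) (hr0 : 1 ≤ r0) (hm : r0 ≤ m)
    (h : (4 * L * m) ^ (-(5/4) : ℝ) / C ≤ x) :
    r0 ^ (3/4 : ℝ) / (16 * L ^ 2 * C) ≤ m ^ 2 * x := by
  have hm0 : 0 < m := by linarith
  rw [Real.mul_rpow (by positivity) hm0.le] at h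
  have i4 : (1:ℝ) / (16 * L ^ 2) ≤ (4 * L) ^ (-(5/4) : ℝ) := by
    calc (1:ℝ) / (16 * L ^ 2) = (4 * L) ^ (-(2:ℝ)) := by
          rw [Real.rpow_neg (by positivity), Real.rpow_two, one_div]
          congr 1; ring
      _ ≤ _ := Real.rpow_le_rpow_of_exponent_le (by linarith) (by norm_num)
  have i5 : m ^ 2 * m ^ (-(5/4) : ℝ) = m ^ (3/4 : ℝ) := by
    rw [← Real.rpow_natCast, ← Real.rpow_add hm0]
    congr 1
    norm_num
  have i6 : r0 ^ (3/4 : ℝ) ≤ m ^ (3/4 : ℝ) := Real.rpow_le_rpow (by linarith) hm (by norm_num)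
  have hC0 : 0 < C := by linarith
  calc r0 ^ (3/4 : ℝ) / (16 * L ^ 2 * C) ≤ m ^ (3/4 : ℝ) / (16 * L ^ 2 * C) :=
        div_le_div_of_nonneg_right i6 (by positivity)
    _ = m ^ (3/4 : ℝ) * (1 / (16 * L ^ 2)) / C := by field_simp
    _ ≤ m ^ (3/4 : ℝ) * (4 * L) ^ (-(5/4) : ℝ) / C := by
        apply div_le_div_of_nonneg_right _ hC0.le
        exact mul_le_mul_of_nonneg_left i4 (by positivity)
    _ = m ^ 2 * ((4 * L) ^ (-(5/4) : ℝ) * m ^ (-(5/4) : ℝ) / C) := by rw [← i5]; ring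
    _ ≤ m ^ 2 * x := mul_le_mul_of_nonneg_left h (by positivity)

theorem G_lower (κ C : ℝ) (hκ : 0 < κ) (hC : 1 ≤ C) : ∃ (A L M2 G0 Mr J0 : ℕ) (c : ℝ),
    1 ≤ A ∧ 2 ≤ L ∧ 8 ≤ M2 ∧ 1 ≤ G0 ∧ 1 ≤ Mr ∧ 1 ≤ J0 ∧ 0 < c ∧ ∀ J : ℕ, J0 ≤ J → ∀ r0 : ℕ,
    Mr ≤ r0 → ∀ q : ℝ, (∀ k : ℕ, 1 ≤ k → k ≤ 4 * L * (M2 * (6 ^ J * r0)) →
      (k:ℝ) ^ (-(5/4) : ℝ) / C ≤ H12S.a4 q k ∧ H12S.a4 q k ≤ C * (k:ℝ) ^ (-(5/4) : ℝ)) →
    H12S.Win q κ (A ^ J * (G0 * (6 ^ J * r0))) →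
    c * 6 ^ J * (r0:ℝ) ^ (3/4 : ℝ) * (((A ^ J * (G0 * (6 ^ J * r0)) : ℕ):ℝ) + 1) ^ 2 ≤
      WD q (A ^ J * (G0 * (6 ^ J * r0))) := by
  obtain ⟨c0, α, hc0, hα, hlowS⟩ := WS_low κ hκ
  obtain ⟨Cb, hCb, hbd⟩ := scale_bd κ hκ
  set A : ℕ := ⌈(6:ℝ) ^ (1 / α)⌉₊ + 100 with hA
  have hA100 : 100 ≤ A := by omega
  have hA1 : (1:ℝ) ≤ A := by
    have : (100:ℝ) ≤ A := by exact_mod_cast hA100
    linarith
  have hA0 : (0:ℝ) < A := by linarith
  have hAα : (6:ℝ) ≤ (A:ℝ) ^ α := by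
    have i1 : (6:ℝ) ^ (1 / α) ≤ A := by
      rw [hA]; push_cast
      have := Nat.le_ceil ((6:ℝ) ^ (1 / α))
      linarith
    calc (6:ℝ) = ((6:ℝ) ^ (1 / α)) ^ α := by
          rw [← Real.rpow_mul (by norm_num), one_div_mul_cancel hα.ne', Real.rpow_one]
      _ ≤ _ := Real.rpow_le_rpow (by positivity) i1 hα.le
  set K2 : ℝ := 36 * (A:ℝ) ^ 2 with hK2
  have hK20 : 0 < K2 := by positivity
  set p : ℝ := 2 + C ^ 2 with hp
  have hp0 : 0 < p := by positivity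
  set δ : ℝ := 1 / (144 * K2) with hδ
  have hδ0 : 0 < δ := by positivity
  obtain ⟨L, M2, G0, Mr, Cin, hL, hM2, hG0, hMr, hCin, hgood⟩ :=
    good_scale exit3 H974.stIn κ hκ p δ hp0 hδ0
  obtain ⟨J1, hJ1⟩ := pow_unbounded_of_one_lt ((4 * Cb + 82) / c0) (by norm_num : (1:ℝ) < 6)
  have hLr : (2:ℝ) ≤ L := by exact_mod_cast hL
  have hC0 : 0 < C := by linarith
  refine ⟨A, L, M2, G0, Mr, J1 + 1, c0 / (800 * Cin * (L:ℝ) ^ 2 * C), by omega, hL, hM2, hG0, hMr,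
    by omega, by positivity, ?_⟩
  intro J hJ r0 hr0 q hreg hW
  set n : ℕ := A ^ J * (G0 * (6 ^ J * r0)) with hn
  have h0 : 0 ≤ q := by linarith [hW.lo]
  have h1 : q ≤ 1 := by linarith [hW.hi]
  have hr01 : 1 ≤ r0 := hMr.trans hr0
  have hJ6 : 4 * Cb + 82 ≤ c0 * 6 ^ J := by
    have i1 : (6:ℝ) ^ J1 ≤ 6 ^ J := pow_le_pow_right₀ (by norm_num) (by omega)
    have i2 : (4 * Cb + 82) / c0 ≤ 6 ^ J := hJ1.le.trans i1
    rw [div_le_iff₀ hc0] at i2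
    linarith
  have hg1 : ∀ j : ℕ, 1 ≤ G0 * (6 ^ j * r0) := fun j =>
    Nat.mul_pos (by omega) (Nat.mul_pos (by positivity) (by omega))
  have hgJ : ∀ j, j ≤ J → A ^ J * (G0 * (6 ^ j * r0)) ≤ n := by
    intro j hj
    rw [hn]
    apply Nat.mul_le_mul_left
    apply Nat.mul_le_mul_left
    apply Nat.mul_le_mul_right
    exact Nat.pow_le_pow_right (by norm_num) hj
  have hAJ : 100 ≤ A ^ J := hA100.trans (Nat.le_self_pow (by omega) A)
  have hgn : ∀ j, j ≤ J → 100 * (G0 * (6 ^ j * r0)) ≤ n := fun j hj =>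
    (Nat.mul_le_mul_right _ hAJ).trans (hgJ j hj)
  set S : ℕ → ℝ := fun j => WS q n (G0 * (6 ^ j * r0)) with hS
  have hn1' : 0 < ((n:ℝ) + 1) ^ 2 := by positivity
  have hSlow : ∀ j, j ≤ J → c0 * 6 ^ J * ((n:ℝ) + 1) ^ 2 ≤ S j := by
    intro j hj
    have i1 := hlowS q n hW n _ (hg1 j) (by have := hgn j hj; omega) le_rfl
    refine le_trans ?_ i1
    apply mul_le_mul_of_nonneg_right _ hn1'.le
    apply mul_le_mul_of_nonneg_left _ hc0.le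
    have i2 : (0:ℝ) < ((G0 * (6 ^ j * r0) : ℕ) : ℝ) := by exact_mod_cast hg1 j
    have i3 : (A:ℝ) ^ J ≤ (n:ℝ) / ((G0 * (6 ^ j * r0) : ℕ) : ℝ) := by
      rw [le_div_iff₀ i2]
      exact_mod_cast hgJ j hj
    calc (6:ℝ) ^ J ≤ ((A:ℝ) ^ α) ^ J := pow_le_pow_left₀ (by norm_num) hAα J
      _ = ((A:ℝ) ^ J) ^ α := by
          rw [← Real.rpow_natCast, ← Real.rpow_natCast, ← Real.rpow_mul hA0.le,
            ← Real.rpow_mul hA0.le, mul_comm]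
      _ ≤ _ := Real.rpow_le_rpow (by positivity) i3 hα.le
  have hSpos : ∀ j, j ≤ J → 0 < S j := fun j hj => lt_of_lt_of_le (by positivity) (hSlow j hj)
  -- pigeonhole
  have hpig : ∃ j, j < J ∧ S (j + 1) ≤ K2 * S j := by
    by_contra hno
    push Not at hno
    have hpow : ∀ j, j ≤ J → K2 ^ j * S 0 ≤ S j := by
      intro j
      induction j with
      | zero => intro _; simp
      | succ j ih =>
        intro hj
        have i1 := ih (by omega)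
        have i2 := hno j (by omega)
        calc K2 ^ (j + 1) * S 0 = K2 * (K2 ^ j * S 0) := by rw [pow_succ]; ring
          _ ≤ K2 * S j := mul_le_mul_of_nonneg_left i1 hK20.le
          _ ≤ S (j + 1) := i2.le
    have i1 := hpow J le_rfl
    have i2 : S J ≤ ((n:ℝ) + 1) ^ 2 * (4 * ((A ^ J : ℕ) : ℝ) + 5) ^ 2 := G_WS_up h0 h1 (hg1 J)
    have i3 := hSlow 0 (by omega)
    have hAJr : (100:ℝ) ≤ (A:ℝ) ^ J := by exact_mod_cast hAJ
    have i4 : (4 * ((A ^ J : ℕ) : ℝ) + 5) ^ 2 ≤ 81 * ((A:ℝ) ^ J) ^ 2 := by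
      push_cast
      nlinarith
    have i5 : K2 ^ J * (c0 * 6 ^ J * ((n:ℝ) + 1) ^ 2) ≤ ((n:ℝ) + 1) ^ 2 * (81 * ((A:ℝ) ^ J) ^ 2) :=
      calc K2 ^ J * (c0 * 6 ^ J * ((n:ℝ) + 1) ^ 2) ≤ K2 ^ J * S 0 :=
            mul_le_mul_of_nonneg_left i3 (by positivity)
        _ ≤ S J := i1
        _ ≤ _ := i2
        _ ≤ _ := mul_le_mul_of_nonneg_left i4 hn1'.le
    have i6 : K2 ^ J = 36 ^ J * ((A:ℝ) ^ J) ^ 2 := by
      rw [hK2, mul_pow, ← pow_mul, ← pow_mul, mul_comm 2 J]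
    rw [i6] at i5
    have i7 : (36 ^ J * (c0 * 6 ^ J)) * (((A:ℝ) ^ J) ^ 2 * ((n:ℝ) + 1) ^ 2) ≤
        81 * (((A:ℝ) ^ J) ^ 2 * ((n:ℝ) + 1) ^ 2) := by
      calc _ = 36 ^ J * ((A:ℝ) ^ J) ^ 2 * (c0 * 6 ^ J * ((n:ℝ) + 1) ^ 2) := by ring
        _ ≤ _ := i5
        _ = _ := by ring
    have i8 := le_of_mul_le_mul_right i7 (by positivity)
    have i9 : (1:ℝ) ≤ 36 ^ J := one_le_pow₀ (by norm_num)
    nlinarith
  obtain ⟨j, hjJ, hjS⟩ := hpig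
  set r : ℕ := 6 ^ j * r0 with hr
  have h6j : 1 ≤ 6 ^ j := Nat.one_le_pow _ _ (by norm_num)
  have hrr0 : r0 ≤ r := by
    calc r0 = 1 * r0 := (one_mul _).symm
      _ ≤ 6 ^ j * r0 := Nat.mul_le_mul_right _ h6j
  have hrMr : Mr ≤ r := hr0.trans hrr0
  have hgr : 100 * (G0 * r) ≤ n := hgn j hjJ.le
  have hr1 : 1 ≤ r := hMr.trans hrMr
  have hrJ : r ≤ 6 ^ J * r0 := Nat.mul_le_mul_right _ (Nat.pow_le_pow_right (by norm_num) hjJ.le)
  have hMr8 : 8 ≤ M2 * r := by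
    calc 8 = 8 * 1 := rfl
      _ ≤ M2 * r := Nat.mul_le_mul hM2 hr1
  have hk4 : 4 * L * (M2 * r) ≤ 4 * L * (M2 * (6 ^ J * r0)) :=
    Nat.mul_le_mul_left _ (Nat.mul_le_mul_left _ hrJ)
  have hk41 : 1 ≤ 4 * L * (M2 * r) := Nat.mul_pos (by omega) (by omega)
  have hk8 : 1 ≤ (M2 * r) / 8 := by rw [Nat.le_div_iff_mul_le (by norm_num)]; omega
  have hk8' : (M2 * r) / 8 ≤ 4 * L * (M2 * r) := by
    refine (Nat.div_le_self _ _).trans ?_
    calc M2 * r = 1 * (M2 * r) := (one_mul _).symm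
      _ ≤ 4 * L * (M2 * r) := Nat.mul_le_mul_right _ (by omega)
  have hlow4 := (hreg _ hk41 hk4).1
  have hup8 := (hreg _ hk8 (hk8'.trans hk4)).2
  have hregr : H12S.a4 q ((M2 * r) / 8) ≤ (192 * (L:ℝ)) ^ p * H12S.a4 q (4 * L * (M2 * r)) := by
    refine G_reg hC hLr hp (by exact_mod_cast hk8) (by exact_mod_cast hk41) ?_ hup8 hlow4
    have i1 : M2 * r ≤ 16 * ((M2 * r) / 8) := by omega
    have i2 : 4 * L * (M2 * r) ≤ 64 * L * ((M2 * r) / 8) := by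
      calc 4 * L * (M2 * r) ≤ 4 * L * (16 * ((M2 * r) / 8)) := Nat.mul_le_mul_left _ i1
        _ = _ := by ring
    exact_mod_cast i2
  have hins := hgood q n hW r hrMr (by omega) hregr
  set Y : ℝ := ((M2 * r : ℕ) : ℝ) ^ 2 * H12S.a4 q (4 * L * (M2 * r)) with hY
  have hYlow : (r0:ℝ) ^ (3/4 : ℝ) / (16 * (L:ℝ) ^ 2 * C) ≤ Y := by
    apply G_Y hC hLr (by exact_mod_cast hr01)
    · have : r0 ≤ M2 * r := by
        calc r0 = 1 * r0 := (one_mul _).symm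
          _ ≤ M2 * r := Nat.mul_le_mul (by omega) hrr0
      exact_mod_cast this
    · have i3 : ((4 * L * (M2 * r) : ℕ) : ℝ) = 4 * (L:ℝ) * ((M2 * r : ℕ) : ℝ) := by
        push_cast; ring
      rw [i3] at hlow4
      exact hlow4
  have hY0 : 0 ≤ Y := le_trans (by positivity) hYlow
  have hmain := hbd q n hW n (G0 * r) (hg1 j) hgr le_rfl δ Y Cin hδ0.le hY0 hCin.le hins
  have hSj : WS q n (G0 * r) = S j := rfl
  have hSj1 : WS q n (6 * (G0 * r)) = S (j + 1) := by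
    show WS q n _ = WS q n _
    congr 1
    rw [hr, pow_succ]; ring
  rw [hSj, hSj1] at hmain
  have hd1 : 36 * δ * S (j + 1) ≤ S j / 4 := by
    calc 36 * δ * S (j + 1) ≤ 36 * δ * (K2 * S j) :=
          mul_le_mul_of_nonneg_left hjS (by positivity)
      _ = S j / 4 := by rw [hδ]; field_simp; ring
  have hSj0 := hSlow j hjJ.le
  have hd2 : Cb * ((n:ℝ) + 1) ^ 2 ≤ S j / 4 := by
    have i5 := mul_le_mul_of_nonneg_right hJ6 hn1'.le
    nlinarith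
  have hd3 : S j / 2 * Y ≤ 25 * Cin * WD q n := by
    refine le_trans ?_ hmain
    apply mul_le_mul_of_nonneg_right _ hY0
    linarith
  have hf1 : c0 * 6 ^ J * ((n:ℝ) + 1) ^ 2 / 2 * ((r0:ℝ) ^ (3/4 : ℝ) / (16 * (L:ℝ) ^ 2 * C)) ≤
      25 * Cin * WD q n := by
    refine le_trans ?_ hd3
    apply mul_le_mul _ hYlow (by positivity) (by linarith [hSpos j hjJ.le])
    linarith
  have hL0 : (0:ℝ) < L := by linarith
  have hf2 : c0 * 6 ^ J * ((n:ℝ) + 1) ^ 2 / 2 * ((r0:ℝ) ^ (3/4 : ℝ) / (16 * (L:ℝ) ^ 2 * C)) =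
      25 * Cin * (c0 / (800 * Cin * (L:ℝ) ^ 2 * C) * 6 ^ J * (r0:ℝ) ^ (3/4 : ℝ) *
        ((n:ℝ) + 1) ^ 2) := by
    field_simp
    ring
  rw [hf2] at hf1
  exact le_of_mul_le_mul_left hf1 (by positivity)

theorem taskG : TaskG := by
  intro hN κ hκ hκ2
  obtain ⟨κN, C, hκN, hC, hnear⟩ := hN
  obtain ⟨κh, hκh, hhalf⟩ := H12S.win_half
  set κ' : ℝ := min κ κh with hκ'
  have hκ'0 : 0 < κ' := lt_min hκ hκh
  obtain ⟨A, L, M2, G0, Mr, J0, c, hA, hL, hM2, hG0, hMr, hJ0, hc, hlow⟩ :=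
    G_lower κ' C hκ'0 hC
  have hC0 : 0 < C := by linarith
  set b : ℝ := (6:ℝ) ^ (1/4 : ℝ) with hb
  have hb1 : 1 < b := Real.one_lt_rpow (by norm_num) (by norm_num)
  obtain ⟨J1, hJ1⟩ := pow_unbounded_of_one_lt (C * (8 * L * M2) / c) hb1
  set J : ℕ := max J0 J1 with hJ
  have hJJ0 : J0 ≤ J := le_max_left _ _
  have hbJ : C * (8 * L * M2) < c * b ^ J := by
    have i1 : b ^ J1 ≤ b ^ J := pow_le_pow_right₀ hb1.le (le_max_right _ _)
    have i2 := hJ1.trans_le i1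
    rw [div_lt_iff₀ hc] at i2
    linarith
  set D : ℕ := 4 * L * (M2 * 6 ^ J) with hD
  have h6J : 1 ≤ 6 ^ J := Nat.one_le_pow _ _ (by norm_num)
  have hD1 : 1 ≤ D := Nat.mul_pos (by omega) (Nat.mul_pos (by omega) h6J)
  have hDr : (1:ℝ) ≤ D := by exact_mod_cast hD1
  have hD0 : (0:ℝ) < D := by linarith
  set Z : ℝ := (D:ℝ) * (Mr + 1) with hZ
  have hZ0 : 0 < Z := by positivity
  set h0 : ℝ := min (1/4) (Z ^ (-(3/4) : ℝ) / C) with hh0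
  have hh00 : 0 < h0 := lt_min (by norm_num) (by positivity)
  refine ⟨(A:ℝ) ^ J * G0 * 6 ^ J, h0, by positivity, hh00, ?_⟩
  intro q hq1 hq2
  set h : ℝ := q - 1/2 with hhd
  have hpos : 0 < h := by linarith
  have hle : h ≤ h0 := by linarith
  have hle1 : h ≤ 1/4 := hle.trans (min_le_left _ _)
  have hle2 : h ≤ Z ^ (-(3/4) : ℝ) / C := hle.trans (min_le_right _ _)
  set r1 : ℝ := (1 / (C * h)) ^ (4/3 : ℝ) with hr1
  have hCh : 0 < 1 / (C * h) := by positivity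
  have hr1b : r1 ^ (3/4 : ℝ) = 1 / (C * h) := by
    rw [hr1, ← Real.rpow_mul hCh.le]; norm_num
  have hr10 : 0 < r1 := by positivity
  have hZr1 : Z ≤ r1 := by
    have i1 : Z ^ (3/4 : ℝ) ≤ 1 / (C * h) := by
      rw [le_div_iff₀ hC0, Real.rpow_neg hZ0.le] at hle2
      have j2 : 0 < Z ^ (3/4 : ℝ) := by positivity
      rw [le_div_iff₀ (by positivity)]
      calc Z ^ (3/4 : ℝ) * (C * h) = Z ^ (3/4 : ℝ) * (h * C) := by ring
        _ ≤ Z ^ (3/4 : ℝ) * (Z ^ (3/4 : ℝ))⁻¹ := mul_le_mul_of_nonneg_left hle2 j2.le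
        _ = 1 := mul_inv_cancel₀ j2.ne'
    rw [← hr1b] at i1
    exact (Real.rpow_le_rpow_iff hZ0.le hr10.le (by norm_num)).mp i1
  set r0 : ℕ := ⌊r1 / D⌋₊ with hr0
  have hr0le : (r0:ℝ) ≤ r1 / D := Nat.floor_le (by positivity)
  have hr0lt : r1 / D < r0 + 1 := Nat.lt_floor_add_one _
  have hr0D : (D:ℝ) * r0 ≤ r1 := by
    rw [le_div_iff₀ hD0] at hr0le
    linarith
  have hMrr0 : Mr ≤ r0 := by
    have i1 : (Mr:ℝ) + 1 ≤ r1 / D := by
      rw [le_div_iff₀ hD0]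
      rw [hZ] at hZr1
      linarith
    have i2 : (Mr:ℝ) < r0 := by linarith
    exact_mod_cast i2.le
  have hr01 : 1 ≤ r0 := hMr.trans hMrr0
  have hr01r : (1:ℝ) ≤ r0 := by exact_mod_cast hr01
  have hr1D : r1 ≤ 2 * D * r0 := by
    rw [div_lt_iff₀ hD0] at hr0lt
    nlinarith
  refine ⟨A ^ J * (G0 * (6 ^ J * r0)), ?_, ?_⟩
  · have i1 : (r0:ℝ) ≤ h ^ (-(4/3) : ℝ) := by
      calc (r0:ℝ) ≤ D * r0 := le_mul_of_one_le_left (by linarith) hDr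
        _ ≤ r1 := hr0D
        _ ≤ (1 / h) ^ (4/3 : ℝ) := by
            apply Real.rpow_le_rpow hCh.le _ (by norm_num)
            apply one_div_le_one_div_of_le hpos
            nlinarith
        _ = h ^ (-(4/3) : ℝ) := by
            rw [one_div, Real.inv_rpow hpos.le, ← Real.rpow_neg hpos.le]
    push_cast
    calc (A:ℝ) ^ J * (G0 * (6 ^ J * r0)) = ((A:ℝ) ^ J * G0 * 6 ^ J) * r0 := by ring
      _ ≤ _ := mul_le_mul_of_nonneg_left i1 (by positivity)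
  · intro hW
    set n : ℕ := A ^ J * (G0 * (6 ^ J * r0)) with hn
    have hq0 : q ≤ 1 := by linarith [hW.hi]
    have hWs : ∀ t ∈ Set.Icc (1/2) q, H12S.Win t κ' n := by
      intro t ht
      have hwh := hhalf n
      refine ⟨hκ'0, (min_le_left _ _).trans hκ2, by linarith [ht.1], by linarith [ht.2, hW.hi],
        ?_, ?_⟩
      · intro k k1 k2
        calc κ' ≤ κh := min_le_right _ _
          _ ≤ hh (1/2) (16 * k) k := hwh.pri k k1 k2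
          _ ≤ _ := hh_mono_param (by norm_num) ht.1 (by linarith [ht.2]) _ _
      · intro k k1 k2
        calc κ' ≤ κ := min_le_left _ _
          _ ≤ hh (1 - q) (16 * k) k := hW.dua k k1 k2
          _ ≤ _ := hh_mono_param (by linarith) (by linarith [ht.2]) (by linarith [ht.1]) _ _
    have hlb : ∀ t ∈ Set.Icc (1/2) q,
        c * 6 ^ J * (r0:ℝ) ^ (3/4 : ℝ) * ((n:ℝ) + 1) ^ 2 ≤ WD t n := by
      intro t ht
      refine hlow J hJJ0 r0 hMrr0 t ?_ (hWs t ht)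
      intro k hk1 hk2
      have hDr0 : 4 * L * (M2 * (6 ^ J * r0)) = D * r0 := by rw [hD]; ring
      rw [hDr0] at hk2
      have hDr1 : 1 ≤ D * r0 := Nat.mul_pos hD1 hr01
      refine (hnear (D * r0) t hDr1 ?_).2 k hk1 hk2
      rw [abs_of_nonneg (by linarith [ht.1])]
      have i1 : t - 1/2 ≤ h := by linarith [ht.2]
      refine i1.trans ?_
      have i2 : r1 ^ (-(3/4) : ℝ) = C * h := by
        rw [Real.rpow_neg hr10.le, hr1b, one_div, inv_inv]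
      have i3 : r1 ^ (-(3/4) : ℝ) ≤ ((D * r0 : ℕ) : ℝ) ^ (-(3/4) : ℝ) := by
        apply Real.rpow_le_rpow_of_nonpos
        · exact_mod_cast hDr1
        · push_cast; exact hr0D
        · norm_num
      rw [i2] at i3
      rw [le_div_iff₀ hC0]
      linarith
    have hint := WD_int (by norm_num) hq1.le hq0 n hlb
    have hnn : 0 < ((n:ℝ) + 1) ^ 2 := by positivity
    have hle1 : c * 6 ^ J * (r0:ℝ) ^ (3/4 : ℝ) * h ≤ 1 := by
      have : (c * 6 ^ J * (r0:ℝ) ^ (3/4 : ℝ) * h) * ((n:ℝ) + 1) ^ 2 ≤ 1 * ((n:ℝ) + 1) ^ 2 := by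
        rw [one_mul]
        calc _ = c * 6 ^ J * (r0:ℝ) ^ (3/4 : ℝ) * ((n:ℝ) + 1) ^ 2 * (q - 1/2) := by
              rw [hhd]; ring
          _ ≤ _ := hint
      exact le_of_mul_le_mul_right this hnn
    -- comparison
    have hLr : (2:ℝ) ≤ L := by exact_mod_cast hL
    have hM2r : (8:ℝ) ≤ M2 := by exact_mod_cast hM2
    have hE1 : (1:ℝ) ≤ 8 * L * M2 := by nlinarith
    have i1 : r1 ^ (3/4 : ℝ) ≤ (8 * L * M2) * ((6:ℝ) ^ J) ^ (3/4 : ℝ) * (r0:ℝ) ^ (3/4 : ℝ) := by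
      have j1 : r1 ≤ (8 * L * M2) * (6:ℝ) ^ J * r0 := by
        refine hr1D.trans (le_of_eq ?_)
        rw [hD]; push_cast; ring
      calc r1 ^ (3/4 : ℝ) ≤ ((8 * L * M2) * (6:ℝ) ^ J * r0) ^ (3/4 : ℝ) :=
            Real.rpow_le_rpow hr10.le j1 (by norm_num)
        _ = (8 * L * M2 : ℝ) ^ (3/4 : ℝ) * ((6:ℝ) ^ J) ^ (3/4 : ℝ) * (r0:ℝ) ^ (3/4 : ℝ) := by
            rw [Real.mul_rpow (by positivity) (by positivity),
              Real.mul_rpow (by positivity) (by positivity)]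
        _ ≤ _ := by
            apply mul_le_mul_of_nonneg_right _ (by positivity)
            apply mul_le_mul_of_nonneg_right _ (by positivity)
            calc (8 * L * M2 : ℝ) ^ (3/4 : ℝ) ≤ (8 * L * M2 : ℝ) ^ (1 : ℝ) :=
                  Real.rpow_le_rpow_of_exponent_le hE1 (by norm_num)
              _ = _ := Real.rpow_one _
    have i2 : ((6:ℝ) ^ J) = ((6:ℝ) ^ J) ^ (3/4 : ℝ) * b ^ J := by
      have j1 : b ^ J = ((6:ℝ) ^ J) ^ (1/4 : ℝ) := by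
        rw [hb, ← Real.rpow_natCast, ← Real.rpow_natCast, ← Real.rpow_mul (by norm_num),
          ← Real.rpow_mul (by norm_num), mul_comm]
      rw [j1, ← Real.rpow_add (by positivity)]
      norm_num
    rw [hr1b] at i1
    have i3 : 1 ≤ C * h * ((8 * L * M2) * ((6:ℝ) ^ J) ^ (3/4 : ℝ) * (r0:ℝ) ^ (3/4 : ℝ)) := by
      rw [div_le_iff₀ (by positivity)] at i1
      linarith
    have hPpos : 0 < h * ((6:ℝ) ^ J) ^ (3/4 : ℝ) * (r0:ℝ) ^ (3/4 : ℝ) := by positivity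
    have i4 : C * (8 * L * M2) * (h * ((6:ℝ) ^ J) ^ (3/4 : ℝ) * (r0:ℝ) ^ (3/4 : ℝ)) <
        c * b ^ J * (h * ((6:ℝ) ^ J) ^ (3/4 : ℝ) * (r0:ℝ) ^ (3/4 : ℝ)) :=
      mul_lt_mul_of_pos_right hbJ hPpos
    have i5 : c * b ^ J * (h * ((6:ℝ) ^ J) ^ (3/4 : ℝ) * (r0:ℝ) ^ (3/4 : ℝ)) =
        c * 6 ^ J * (r0:ℝ) ^ (3/4 : ℝ) * h := by
      conv_rhs => rw [i2]
      ring
    rw [i5] at i4
    linarith

end H362S
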