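import Pool.Agent.H362S.Stmts

/-!
The one-arm probability at and above the critical point, uniformly in the distance and in the
parameter.
-/

namespace H362S

open H974 Finset

theorem arm_law (p : unitInterval) (n : ℕ) : (bondLaw p).real
    {ω | ∃ w ∈ cluster0 ω, (n : ℤ) ≤ max |w.1| |w.2|} = arm p n := by
  have h : {ω : sqLattice.edgeSet → Bool | ∃ w ∈ cluster0 ω, (n : ℤ) ≤ max |w.1| |w.2|} =
      ArmE n := by
    apply Set.Subset.antisymm
    · exact Pool.Agent.H974R3.sup_sub_armE n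
    · intro ω hω
      obtain ⟨v, ⟨_, hv⟩, hr⟩ := armE_iff.mp hω
      refine ⟨v, (open_reach ω _ _).mpr (hr.mono Set.inter_subset_left), ?_⟩
      rcases hv with h | h | h | h
      · exact le_trans (le_trans (by rw [h, neg_neg]) (neg_le_abs v.1)) (le_max_left _ _)
      · exact le_trans (le_trans h.ge (le_abs_self v.1)) (le_max_left _ _)
      · exact le_trans (le_trans (by rw [h, neg_neg]) (neg_le_abs v.2)) (le_max_right _ _)
      · exact le_trans (le_trans h.ge (le_abs_self v.2)) (le_max_right _ _)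
  rw [h, law_armE]

theorem arm_unif (hA : ArmS) (hL : ThetaLow) : ∃ c C : ℝ, 0 < c ∧ 0 < C ∧
    ∀ (p : unitInterval) (n : ℕ), (1/2 : ℝ) ≤ p → 1 ≤ n →
      c * max ((n:ℝ) ^ (-(5/48) : ℝ)) (((p:ℝ) - 1/2) ^ (5/36 : ℝ)) ≤ arm p n ∧
      arm p n ≤ C * max ((n:ℝ) ^ (-(5/48) : ℝ)) (((p:ℝ) - 1/2) ^ (5/36 : ℝ)) := by
  obtain ⟨κ, a, -, ha, hA⟩ := hA
  obtain ⟨c1, hc1, hL⟩ := hL
  obtain ⟨c0, C0, hc0, hC0, h0⟩ := Pool.Agent.H160R2.SA.arSharp
  have hS : ∀ n : ℕ, 1 ≤ n → c0 * (n:ℝ) ^ (-(5/48) : ℝ) ≤ arm (1/2) n ∧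
      arm (1/2) n ≤ C0 * (n:ℝ) ^ (-(5/48) : ℝ) := fun n hn => h0 n hn
  refine ⟨min c0 c1, 6 * C0 * a ^ (-(5/36) : ℝ) + 3 * C0 + a ^ (-(5/36) : ℝ), lt_min hc0 hc1,
    by positivity, ?_⟩
  intro p n hp hn
  have hn1 : (1:ℝ) ≤ n := by exact_mod_cast hn
  have hn0 : (0:ℝ) < n := by linarith
  have hp0 : (0:ℝ) ≤ p := p.2.1
  have hp1 : (p:ℝ) ≤ 1 := p.2.2
  set h : ℝ := (p:ℝ) - 1/2 with hh
  have hh0 : 0 ≤ h := by rw [hh]; linarith
  have hx : 0 < (n:ℝ) ^ (-(5/48) : ℝ) := by positivity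
  have hy : 0 ≤ h ^ (5/36 : ℝ) := by positivity
  constructor
  · -- lower bound
    rw [mul_max_of_nonneg _ _ (lt_min hc0 hc1).le]
    apply max_le
    · have h1 := (hS n hn).1
      have h2 := arm_mono_param (by norm_num) hp hp1 n
      have h3 : min c0 c1 * (n:ℝ) ^ (-(5/48) : ℝ) ≤ c0 * (n:ℝ) ^ (-(5/48) : ℝ) :=
        mul_le_mul_of_nonneg_right (min_le_left _ _) hx.le
      linarith
    · rcases hh0.eq_or_lt with he | hlt
      · rw [← he, Real.zero_rpow (by norm_num), mul_zero]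
        exact arm_nonneg hp0 hp1 n
      · have h1 := hL p (by linarith)
        have h2 := theta_le_arm p n
        have h3 : min c0 c1 * h ^ (5/36 : ℝ) ≤ c1 * h ^ (5/36 : ℝ) :=
          mul_le_mul_of_nonneg_right (min_le_right _ _) hy
        linarith
  · -- upper bound
    set M := max ((n:ℝ) ^ (-(5/48) : ℝ)) (h ^ (5/36 : ℝ)) with hM
    have hM1 : (n:ℝ) ^ (-(5/48) : ℝ) ≤ M := le_max_left _ _
    have hM2 : h ^ (5/36 : ℝ) ≤ M := le_max_right _ _
    have hM0 : 0 ≤ M := hx.le.trans hM1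
    have hap : 0 < a ^ (-(5/36) : ℝ) := by positivity
    have t1 : 0 ≤ 6 * C0 * a ^ (-(5/36) : ℝ) * M := by positivity
    have t2 : 0 ≤ 3 * C0 * M := by positivity
    have t3 : 0 ≤ a ^ (-(5/36) : ℝ) * M := by positivity
    by_cases hw : h ≤ a * (n:ℝ) ^ (-(3/4) : ℝ)
    · have h1 := (hA n p hn (by rw [← hh, abs_of_nonneg hh0]; exact hw)).2.1
      have h2 := (hS n hn).2
      have h3 : 3 * (C0 * (n:ℝ) ^ (-(5/48) : ℝ)) ≤ 3 * C0 * M := by
        rw [mul_assoc]
        exact mul_le_mul_of_nonneg_left (mul_le_mul_of_nonneg_left hM1 hC0.le) (by norm_num)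
      linarith
    · push Not at hw
      have hhp : 0 < h := lt_of_le_of_lt (by positivity) hw
      have key : a ^ (-(5/36) : ℝ) * h ^ (5/36 : ℝ) = (h / a) ^ (5/36 : ℝ) := by
        rw [Real.div_rpow hh0 ha.le, Real.rpow_neg ha.le]
        field_simp
      rcases lt_or_ge a h with hah | hah
      · have h1 := arm_le_one hp0 hp1 n
        have h2 : 1 ≤ (h / a) ^ (5/36 : ℝ) := by
          apply Real.one_le_rpow _ (by norm_num)
          rw [le_div_iff₀ ha]; linarith
        have h3 : a ^ (-(5/36) : ℝ) * h ^ (5/36 : ℝ) ≤ a ^ (-(5/36) : ℝ) * M :=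
          mul_le_mul_of_nonneg_left hM2 hap.le
        rw [key] at h3
        linarith
      · set x : ℝ := (a / h) ^ (4/3 : ℝ) with hxd
        have hah1 : 1 ≤ a / h := by rw [le_div_iff₀ hhp]; linarith
        have hx1 : 1 ≤ x := Real.one_le_rpow hah1 (by norm_num)
        set m : ℕ := ⌊x⌋₊ with hm
        have hm1 : 1 ≤ m := Nat.le_floor (by exact_mod_cast hx1)
        have hm1r : (1:ℝ) ≤ m := by exact_mod_cast hm1
        have hmx : (m:ℝ) ≤ x := Nat.floor_le (by linarith)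
        have hxm : x ≤ 2 * m := by
          have := Nat.lt_floor_add_one x
          have h3 : x < m + 1 := this
          linarith
        have hx34 : x ^ (3/4 : ℝ) = a / h := by
          rw [hxd, ← Real.rpow_mul (by positivity)]
          norm_num
        have hxn : x < n := by
          by_contra hc
          push Not at hc
          have h4 : (n:ℝ) ^ (3/4 : ℝ) ≤ a / h := by
            rw [← hx34]; exact Real.rpow_le_rpow hn0.le hc (by norm_num)
          rw [le_div_iff₀ hhp] at h4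
          have h5 : a * (n:ℝ) ^ (-(3/4) : ℝ) * (n:ℝ) ^ (3/4 : ℝ) = a := by
            rw [mul_assoc, ← Real.rpow_add hn0]
            norm_num
          have h6 : a * (n:ℝ) ^ (-(3/4) : ℝ) * (n:ℝ) ^ (3/4 : ℝ) < h * (n:ℝ) ^ (3/4 : ℝ) :=
            mul_lt_mul_of_pos_right hw (by positivity)
          linarith
        have hmn : m ≤ n := by
          have : (m:ℝ) < n := by linarith
          exact_mod_cast this.le
        have hwm : h ≤ a * (m:ℝ) ^ (-(3/4) : ℝ) := by
          have h4 : (m:ℝ) ^ (3/4 : ℝ) ≤ a / h := by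
            rw [← hx34]; exact Real.rpow_le_rpow (by positivity) hmx (by norm_num)
          rw [le_div_iff₀ hhp] at h4
          rw [Real.rpow_neg (by positivity), ← div_eq_mul_inv, le_div_iff₀ (by positivity)]
          linarith
        have h1 := (hA m p hm1 (by rw [← hh, abs_of_nonneg hh0]; exact hwm)).2.1
        have h2 := (hS m hm1).2
        have h3 : (m:ℝ) ^ (-(5/48) : ℝ) ≤ 2 * (h / a) ^ (5/36 : ℝ) := by
          have e1 : (m:ℝ) ^ (-(5/48) : ℝ) ≤ (x / 2) ^ (-(5/48) : ℝ) :=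
            Real.rpow_le_rpow_of_nonpos (by positivity) (by linarith) (by norm_num)
          have e2 : (x / 2) ^ (-(5/48) : ℝ) = (2:ℝ) ^ (5/48 : ℝ) * (h / a) ^ (5/36 : ℝ) := by
            rw [Real.div_rpow (by linarith) (by norm_num), hxd, ← Real.rpow_mul (by positivity),
              Real.rpow_neg (by norm_num : (0:ℝ) ≤ 2), div_inv_eq_mul, mul_comm]
            congr 1
            rw [show (4/3 : ℝ) * -(5/48) = -(5/36) by norm_num, Real.rpow_neg (by positivity),
              ← Real.inv_rpow (by positivity), inv_div]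
          have e3 : (2:ℝ) ^ (5/48 : ℝ) ≤ 2 := by
            calc (2:ℝ) ^ (5/48 : ℝ) ≤ (2:ℝ) ^ (1:ℝ) :=
                  Real.rpow_le_rpow_of_exponent_le (by norm_num) (by norm_num)
              _ = 2 := Real.rpow_one _
          rw [e2] at e1
          exact e1.trans (mul_le_mul_of_nonneg_right e3 (by positivity))
        have h4 : arm p n ≤ arm p m := arm_anti hp0 hp1 hmn
        have h5 : (h / a) ^ (5/36 : ℝ) ≤ a ^ (-(5/36) : ℝ) * M := by
          rw [← key]; exact mul_le_mul_of_nonneg_left hM2 hap.le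
        have h6 : 3 * (C0 * (2 * (h / a) ^ (5/36 : ℝ))) ≤ 6 * C0 * a ^ (-(5/36) : ℝ) * M := by
          have := mul_le_mul_of_nonneg_left h5 (by positivity : 0 ≤ 6 * C0)
          linarith
        have h7 : C0 * (m:ℝ) ^ (-(5/48) : ℝ) ≤ C0 * (2 * (h / a) ^ (5/36 : ℝ)) :=
          mul_le_mul_of_nonneg_left h3 hC0.le
        linarith

end H362S
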