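import Pool.Agent.H362S.A2
import Pool.Agent.H362S.TaskA
import Pool.Agent.H362S.TaskC
import Pool.Agent.H362S.TaskF
import Pool.Agent.H362S.TaskG
import Pool.Agent.H362S.Uni

/-!
Percolation probability and one-arm probability up to constants: assembly.
-/

namespace H362S

theorem farS : FarS := taskF (taskG nearS)

theorem armS : ArmS := A.taskA nearS

theorem thetaLow : ThetaLow := taskC farS

end H362S
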