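import Pool.Agent.H362S.Stmts

/-!
The upper bound for the percolation probability, up to constants (TaskB of the project KS).
-/

namespace H362S

open H974 Finset

theorem taskB : TaskB := by
  rintro ⟨κ, c, hκ, hc, hst⟩
  obtain ⟨c1, C, hc1, hC, harm⟩ := Pool.Agent.H160R2.SA.arSharp
  refine ⟨3 * C * (2:ℝ)^(5/48 : ℝ) * c^(-(5/36) : ℝ) + c^(-(5/36) : ℝ), by positivity, ?_⟩
  intro p hp
  set s : ℝ := (p:ℝ) - 1/2 with hs
  have hs0 : 0 < s := by rw [hs]; linarith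
  have hse : 0 < s^(5/36 : ℝ) := Real.rpow_pos_of_pos hs0 _
  have hce : 0 < c^(-(5/36) : ℝ) := Real.rpow_pos_of_pos hc _
  rcases lt_or_ge c s with hks | hks
  · have h2 : c^(5/36 : ℝ) ≤ s^(5/36 : ℝ) := Real.rpow_le_rpow hc.le hks.le (by norm_num)
    have h3 : 1 ≤ c^(-(5/36) : ℝ) * s^(5/36 : ℝ) := by
      rw [Real.rpow_neg hc.le, ← div_eq_inv_mul, le_div_iff₀ (Real.rpow_pos_of_pos hc _), one_mul]
      exact h2
    calc theta p ≤ 1 := H31K.theta_le_one p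
      _ ≤ c^(-(5/36) : ℝ) * s^(5/36 : ℝ) := h3
      _ ≤ (3 * C * (2:ℝ)^(5/48 : ℝ) * c^(-(5/36) : ℝ) + c^(-(5/36) : ℝ)) * s^(5/36 : ℝ) := by
          apply mul_le_mul_of_nonneg_right _ hse.le
          have : 0 < 3 * C * (2:ℝ)^(5/48 : ℝ) * c^(-(5/36) : ℝ) := by positivity
          linarith
  · set x : ℝ := (c/s)^(4/3 : ℝ) with hx
    have hcs0 : 0 < c/s := div_pos hc hs0
    have hks1 : 1 ≤ c/s := by rw [le_div_iff₀ hs0, one_mul]; exact hks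
    have hx1 : 1 ≤ x := Real.one_le_rpow hks1 (by norm_num)
    have hxa : x^(3/4 : ℝ) = c/s := by
      rw [hx, ← Real.rpow_mul hcs0.le]
      norm_num
    set n : ℕ := ⌊x⌋₊ with hn
    have hn1 : 1 ≤ n := Nat.le_floor (by exact_mod_cast hx1)
    have hn1' : (1:ℝ) ≤ n := by exact_mod_cast hn1
    have hnx : (n:ℝ) ≤ x := Nat.floor_le (by linarith)
    have hxn : x ≤ 2 * n := by
      have := Nat.lt_floor_add_one x
      have h3 : x < n + 1 := this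
      linarith
    have hwin : |(p:ℝ) - 1/2| ≤ c * (n:ℝ)^(-(3/4) : ℝ) := by
      rw [← hs, abs_of_pos hs0]
      have h3 : (n:ℝ)^(3/4 : ℝ) ≤ c/s := by
        rw [← hxa]
        exact Real.rpow_le_rpow (by positivity) hnx (by norm_num)
      have h4 : (n:ℝ)^(-(3/4) : ℝ) = ((n:ℝ)^(3/4 : ℝ))⁻¹ := by
        rw [← Real.rpow_neg (by positivity)]
      have h5 : 0 < (n:ℝ)^(3/4 : ℝ) := by positivity
      rw [h4, ← div_eq_mul_inv, le_div_iff₀ h5]
      rw [le_div_iff₀ hs0] at h3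
      linarith
    obtain ⟨_, h5, _⟩ := hst n p hn1 hwin
    have h6 : arm (1/2) n ≤ C * (n:ℝ)^(-(5/48) : ℝ) := (harm n hn1).2
    have h7 : (n:ℝ)^(-(5/48) : ℝ) ≤ (2:ℝ)^(5/48 : ℝ) * c^(-(5/36) : ℝ) * s^(5/36 : ℝ) := by
      have hx2 : 0 < x / 2 := by linarith
      calc (n:ℝ)^(-(5/48) : ℝ) ≤ (x/2)^(-(5/48) : ℝ) :=
            Real.rpow_le_rpow_of_nonpos hx2 (by linarith) (by norm_num)
        _ = (2:ℝ)^(5/48 : ℝ) * (c/s)^(-(5/36) : ℝ) := by
            rw [Real.div_rpow (by linarith) (by norm_num), hx, ← Real.rpow_mul hcs0.le,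
              Real.rpow_neg (by norm_num : (0:ℝ) ≤ 2), div_inv_eq_mul, mul_comm]
            norm_num
        _ = (2:ℝ)^(5/48 : ℝ) * c^(-(5/36) : ℝ) * s^(5/36 : ℝ) := by
            rw [Real.div_rpow hc.le hs0.le, Real.rpow_neg hs0.le, div_inv_eq_mul, mul_assoc]
    calc theta p ≤ arm p n := theta_le_arm p n
      _ ≤ 3 * arm (1/2) n := h5
      _ ≤ 3 * (C * (n:ℝ)^(-(5/48) : ℝ)) := by linarith
      _ ≤ 3 * (C * ((2:ℝ)^(5/48 : ℝ) * c^(-(5/36) : ℝ) * s^(5/36 : ℝ))) := by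
          have := mul_le_mul_of_nonneg_left h7 hC.le
          linarith
      _ = (3 * C * (2:ℝ)^(5/48 : ℝ) * c^(-(5/36) : ℝ)) * s^(5/36 : ℝ) := by ring
      _ ≤ (3 * C * (2:ℝ)^(5/48 : ℝ) * c^(-(5/36) : ℝ) + c^(-(5/36) : ℝ)) * s^(5/36 : ℝ) := by
          apply mul_le_mul_of_nonneg_right _ hse.le
          linarith

end H362S
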