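import Pool.Agent.H362S.Stmts
import Pool.Agent.H31R3.Kes.GLow

/-!
Lower bound for the mean cluster size below the critical point, up to constants.
-/

set_option maxHeartbeats 400000

namespace H362S

open H974 H31K Finset

theorem taskD : TaskD := by
  rintro ⟨κ, w, hκ, hw, hst⟩
  obtain ⟨c0, C0, hc0, hC0, har0⟩ := Pool.Agent.H160R2.SA.arSharp
  set C : ℝ := c0⁻¹ with hCdef
  have hC : 0 < C := by positivity
  have har : ∀ n : ℕ, 1 ≤ n → (n:ℝ)^(-(5/48) : ℝ) ≤ C * arm (1/2) n := by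
    intro n hn
    have h1 : c0 * (n:ℝ)^(-(5/48) : ℝ) ≤ arm (1/2) n := (har0 n hn).1
    calc (n:ℝ)^(-(5/48) : ℝ) = c0⁻¹ * (c0 * (n:ℝ)^(-(5/48) : ℝ)) := by field_simp
      _ ≤ C * arm (1/2) n := mul_le_mul_of_nonneg_left h1 (by positivity)
  set a : ℝ := 3/4 with ha
  set b : ℝ := 5/48 with hb
  have ha0 : 0 < a := by positivity
  have ha1 : a ≤ 1 := by rw [ha]; norm_num
  have h2b : 0 < 2 - 2 * b := by rw [hb]; norm_num
  set e : ℝ := (2 - 2 * b) / a with hedef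
  have hexp : e = 43/18 := by
    rw [hedef, ha, hb]
    norm_num
  have hD : 0 < κ^4 / (36 * C^2) * ((1/2 : ℝ)^(2 - 2 * b) * w^e) := by positivity
  have hE : 0 < (w/4)^(43/18 : ℝ) := by positivity
  refine ⟨min (κ^4 / (36 * C^2) * ((1/2 : ℝ)^(2 - 2 * b) * w^e)) ((w/4)^(43/18 : ℝ)),
    lt_min hD hE, fun p hp => ?_⟩
  set s : ℝ := 1/2 - (p:ℝ) with hs
  have hs0 : 0 < s := by rw [hs]; linarith
  have hs1 : s ≤ 1 := by
    have := p.2.1
    rw [hs]; linarith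
  have hsp : 0 < s^(-(43/18) : ℝ) := Real.rpow_pos_of_pos hs0 _
  set x : ℝ := (w/s)^(1/a) with hx
  have hx0 : 0 < x := by positivity
  have hxa : x^a = w/s := by
    rw [hx, ← Real.rpow_mul (by positivity), one_div_mul_cancel ha0.ne', Real.rpow_one]
  by_cases hx4 : x < 4
  · -- small scale
    refine le_trans ?_ (sigma_ge_one p)
    rw [← ENNReal.ofReal_one]
    apply ENNReal.ofReal_le_ofReal
    have h1 : w / s ≤ 4 := by
      rw [← hxa]
      calc x^a ≤ 4^a := Real.rpow_le_rpow hx0.le hx4.le ha0.le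
        _ ≤ 4^(1:ℝ) := Real.rpow_le_rpow_of_exponent_le (by norm_num) ha1
        _ = 4 := Real.rpow_one _
    have h2 : w / 4 ≤ s := by
      rw [div_le_iff₀ hs0] at h1
      linarith
    have h3 : (w/4)^(43/18 : ℝ) ≤ s^(43/18 : ℝ) :=
      Real.rpow_le_rpow (by positivity) h2 (by norm_num)
    calc min (κ^4 / (36 * C^2) * ((1/2 : ℝ)^(2 - 2 * b) * w^e)) ((w/4)^(43/18 : ℝ)) *
          s^(-(43/18) : ℝ) ≤ s^(43/18 : ℝ) * s^(-(43/18) : ℝ) :=
          mul_le_mul_of_nonneg_right ((min_le_right _ _).trans h3) hsp.le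
      _ = 1 := by
          rw [← Real.rpow_add hs0]
          norm_num
  · push Not at hx4
    obtain ⟨r, hr, hr1, hr2, hr3⟩ : ∃ r : ℕ, 1 ≤ r ∧ ((4 * r : ℕ):ℝ) ≤ x ∧
        1/2 * x ≤ ((4 * r : ℕ):ℝ) ∧ 0 < r := by
      have h4 : 1 ≤ x/4 := by linarith
      refine ⟨⌊x/4⌋₊, Nat.le_floor (by exact_mod_cast h4), ?_, ?_, ?_⟩
      · have := Nat.floor_le (show 0 ≤ x/4 by positivity)
        push_cast
        linarith
      · have h5 := Nat.lt_floor_add_one (x/4)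
        have h6 : (1:ℝ) ≤ (⌊x/4⌋₊ : ℝ) := by
          have : 1 ≤ ⌊x/4⌋₊ := Nat.le_floor (by exact_mod_cast h4)
          exact_mod_cast this
        push_cast
        linarith
      · exact Nat.floor_pos.mpr h4
    set n : ℝ := ((4 * r : ℕ):ℝ) with hn
    have hn0 : 0 < n := by
      rw [hn]; exact_mod_cast (by omega : 0 < 4 * r)
    have hwin : |(p:ℝ) - 1/2| ≤ w * n^(-(3/4) : ℝ) := by
      rw [abs_sub_comm, abs_of_pos (by linarith)]
      have e1 : (-(3/4) : ℝ) = -a := by rw [ha]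
      rw [e1, Real.rpow_neg hn0.le, ← div_eq_mul_inv, le_div_iff₀ (by positivity)]
      have h7 : n^a ≤ w/s := by
        rw [← hxa]
        exact Real.rpow_le_rpow hn0.le hr1 ha0.le
      rw [le_div_iff₀ hs0] at h7
      calc (1/2 - (p:ℝ)) * n^a = n^a * s := by rw [hs]; ring
        _ ≤ w := h7
    obtain ⟨hW, -, hA⟩ := hst (4 * r) p (by omega) hwin
    have hb' := har (4 * r) (by omega)
    have hsum := H31K.gl_sum hr hW hA hC hb'
    refine le_trans (ENNReal.ofReal_le_ofReal ?_) (sigma_ge p (boxE (5 * r)) (boxV r))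
    refine le_trans ?_ hsum
    have h8 : (1/2 * x)^(2 - 2 * b) ≤ n^(2 - 2 * b) :=
      Real.rpow_le_rpow (by positivity) hr2 h2b.le
    have h9 : (1/2 * x)^(2 - 2 * b) = (1/2 : ℝ)^(2 - 2 * b) * (w^e * s^(-e)) := by
      rw [Real.mul_rpow (by norm_num) hx0.le, hx, ← Real.rpow_mul (by positivity)]
      have e3 : 1 / a * (2 - 2 * b) = e := by rw [hedef]; ring
      rw [e3, Real.div_rpow hw.le hs0.le, Real.rpow_neg hs0.le, div_eq_mul_inv (w^e)]
    have h10 : s^(-(43/18) : ℝ) ≤ s^(-e) := by rw [hexp]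
    calc min (κ^4 / (36 * C^2) * ((1/2 : ℝ)^(2 - 2 * b) * w^e)) ((w/4)^(43/18 : ℝ)) *
          s^(-(43/18) : ℝ)
        ≤ κ^4 / (36 * C^2) * ((1/2 : ℝ)^(2 - 2 * b) * w^e) * s^(-e) :=
          mul_le_mul (min_le_left _ _) h10 hsp.le hD.le
      _ = κ^4 / (36 * C^2) * (1/2 * x)^(2 - 2 * b) := by rw [h9]; ring
      _ ≤ κ^4 / (36 * C^2) * n^(2 - 2 * b) := mul_le_mul_of_nonneg_left h8 (by positivity)

end H362S
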