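import Pool.Agent.H31R3.Kes.GUp

/-!
Task E of KS-PROJECT (helper841), the core: the mean cluster size below the critical point is at
most `C N^(43/24)`, where `N` is the correlation length.
-/

set_option autoImplicit false

namespace H362S

open H974 H31K Finset MeasureTheory

/-- The arm to distance `2 N` needs the arm to distance `N - 1` and a crossing of the annulus. -/
theorem arm_le_mul {p : ℝ} (h0 : 0 ≤ p) (h1 : p ≤ 1) {N : ℕ} (hN : 2 ≤ N) :
    arm p (2 * N) ≤ arm p (N - 1) * (20 * eps (1 - p) N) := by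
  have hN' : (2:ℤ) ≤ N := by exact_mod_cast hN
  have ok := okq h0 h1
  have hN1 : ((N - 1 : ℕ) : ℤ) = (N:ℤ) - 1 := by omega
  set n : ℤ := (N:ℤ) with hn
  set S := boxE (2 * N) with hS
  have sub : ∀ a b c d : ℤ, -(2 * n) ≤ a → b ≤ 2 * n → -(2 * n) ≤ c → d ≤ 2 * n →
      RE a b c d ⊆ S := by
    intro a b c d ha hb hc hd
    rw [hS]
    unfold boxE
    exact RE_subset (by push_cast; omega) (by push_cast; omega) (by push_cast; omega)
      (by push_cast; omega)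
  have t1 : LRE (n - 1) (2 * n - 1) (-(2 * n - 1)) (2 * n - 1) ⊆ S :=
    LRE_subset_RE.trans (sub _ _ _ _ (by omega) (by omega) (by omega) (by omega))
  have t2 : LRE (-(2 * n - 1)) (-(n - 1)) (-(2 * n - 1)) (2 * n - 1) ⊆ S :=
    LRE_subset_RE.trans (sub _ _ _ _ (by omega) (by omega) (by omega) (by omega))
  have t3 : TBE (-(2 * n - 1)) (2 * n - 1) (n - 1) (2 * n - 1) ⊆ S :=
    TBE_subset_RE.trans (sub _ _ _ _ (by omega) (by omega) (by omega) (by omega))
  have t4 : TBE (-(2 * n - 1)) (2 * n - 1) (-(2 * n - 1)) (-(n - 1)) ⊆ S :=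
    TBE_subset_RE.trans (sub _ _ _ _ (by omega) (by omega) (by omega) (by omega))
  have e1 : Pr (fun _ => p) S (LRc (n - 1) (2 * n - 1) (-(2 * n - 1)) (2 * n - 1)) =
      hh p n (4 * n - 2) := by
    rw [pr_LRc p t1]
    congr 1 <;> ring
  have e2 : Pr (fun _ => p) S (LRc (-(2 * n - 1)) (-(n - 1)) (-(2 * n - 1)) (2 * n - 1)) =
      hh p n (4 * n - 2) := by
    rw [pr_LRc p t2]
    congr 1 <;> ring
  have e3 : Pr (fun _ => p) S (TBc (-(2 * n - 1)) (2 * n - 1) (n - 1) (2 * n - 1)) =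
      hh p n (4 * n - 2) := by
    rw [pr_TBc p t3]
    congr 1 <;> ring
  have e4 : Pr (fun _ => p) S (TBc (-(2 * n - 1)) (2 * n - 1) (-(2 * n - 1)) (-(n - 1))) =
      hh p n (4 * n - 2) := by
    rw [pr_TBc p t4]
    congr 1 <;> ring
  set B : Finset Edg → Prop := fun F =>
      ((LRc (n - 1) (2 * n - 1) (-(2 * n - 1)) (2 * n - 1) F ∨
        LRc (-(2 * n - 1)) (-(n - 1)) (-(2 * n - 1)) (2 * n - 1) F)) ∨
      (TBc (-(2 * n - 1)) (2 * n - 1) (n - 1) (2 * n - 1) F ∨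
        TBc (-(2 * n - 1)) (2 * n - 1) (-(2 * n - 1)) (-(n - 1)) F) with hB
  set T : Finset Edg := (LRE (n - 1) (2 * n - 1) (-(2 * n - 1)) (2 * n - 1) ∪
      LRE (-(2 * n - 1)) (-(n - 1)) (-(2 * n - 1)) (2 * n - 1)) ∪
      (TBE (-(2 * n - 1)) (2 * n - 1) (n - 1) (2 * n - 1) ∪
        TBE (-(2 * n - 1)) (2 * n - 1) (-(2 * n - 1)) (-(n - 1))) with hT
  have hTS : T ⊆ S := Finset.union_subset (Finset.union_subset t1 t2) (Finset.union_subset t3 t4)
  have hAS : boxE (N - 1) ⊆ S := boxE_mono (by omega)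
  have hd : Disjoint (boxE (N - 1)) T := by
    rw [Finset.disjoint_left]
    unfold boxE
    rw [hN1]
    rintro ⟨u, v, _ | _⟩ he1 he2
    · simp only [hT, Finset.mem_union, mem_LRE_false, mem_TBE_false, mem_RE_false] at he1 he2
      omega
    · simp only [hT, Finset.mem_union, mem_LRE_true, mem_TBE_true, mem_RE_true] at he1 he2
      omega
  have s1 : LRE (n - 1) (2 * n - 1) (-(2 * n - 1)) (2 * n - 1) ⊆ T := by
    intro e he
    simp only [hT, Finset.mem_union]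
    exact Or.inl (Or.inl he)
  have s2 : LRE (-(2 * n - 1)) (-(n - 1)) (-(2 * n - 1)) (2 * n - 1) ⊆ T := by
    intro e he
    simp only [hT, Finset.mem_union]
    exact Or.inl (Or.inr he)
  have s3 : TBE (-(2 * n - 1)) (2 * n - 1) (n - 1) (2 * n - 1) ⊆ T := by
    intro e he
    simp only [hT, Finset.mem_union]
    exact Or.inr (Or.inl he)
  have s4 : TBE (-(2 * n - 1)) (2 * n - 1) (-(2 * n - 1)) (-(n - 1)) ⊆ T := by
    intro e he
    simp only [hT, Finset.mem_union]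
    exact Or.inr (Or.inr he)
  have hloc : ∀ F, F ⊆ S → (B F ↔ B (F ∩ T)) := by
    intro F _
    exact or_congr (or_congr (LRc_local s1) (LRc_local s2)) (or_congr (TBc_local s3) (TBc_local s4))
  have i1 : arm p (2 * N) ≤ Pr (fun _ => p) S (fun F => Arm (N - 1) F ∧ B F) := by
    unfold arm
    apply Pr_mono ok
    rintro F hF ⟨v, hv, hr⟩
    constructor
    · obtain ⟨w, k1, k2, k3⟩ := first_exit (G := ↑F ∩ ↑(boxE (2 * N))) (a := -((N - 1 : ℕ) : ℤ))
        (b := ((N - 1 : ℕ) : ℤ)) (c := -((N - 1 : ℕ) : ℤ)) (d := ((N - 1 : ℕ) : ℤ))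
        (u := (0, 0)) (v := v) (by unfold inR; simp only; omega) hr (by
          unfold onB at hv
          push_cast at hv
          rw [hN1]
          omega)
      refine ⟨w, ⟨k1, k2⟩, k3.mono ?_⟩
      rintro e ⟨⟨k4, -⟩, k5⟩
      exact ⟨k4, k5⟩
    · have hnb := not_blk_of_arm (F := F) (R1 := n - 1) (R2 := 2 * n - 1) (by omega) (by omega)
        (v := v) (hr.mono Set.inter_subset_left) (by
          rcases hv.2 with hv | hv | hv | hv <;> push_cast at hv <;> omega)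
      unfold Blk at hnb
      simp only [hB]
      tauto
  have i0 : Pr (fun _ => p) S (fun F => Arm (N - 1) F ∧ B F) =
      arm p (N - 1) * Pr (fun _ => p) S B := by
    rw [Pr_indep (A := Arm (N - 1)) (B := B) hAS hTS hd
      (fun F _ => Arm_local (Finset.Subset.refl _)) hloc, pr_Arm p hAS]
  have i2 := Pr_or_le ok S (fun F => LRc (n - 1) (2 * n - 1) (-(2 * n - 1)) (2 * n - 1) F ∨
        LRc (-(2 * n - 1)) (-(n - 1)) (-(2 * n - 1)) (2 * n - 1) F)
      (fun F => TBc (-(2 * n - 1)) (2 * n - 1) (n - 1) (2 * n - 1) F ∨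
        TBc (-(2 * n - 1)) (2 * n - 1) (-(2 * n - 1)) (-(n - 1)) F)
  have i3 := Pr_or_le ok S (LRc (n - 1) (2 * n - 1) (-(2 * n - 1)) (2 * n - 1))
    (LRc (-(2 * n - 1)) (-(n - 1)) (-(2 * n - 1)) (2 * n - 1))
  have i4 := Pr_or_le ok S (TBc (-(2 * n - 1)) (2 * n - 1) (n - 1) (2 * n - 1))
    (TBc (-(2 * n - 1)) (2 * n - 1) (-(2 * n - 1)) (-(n - 1)))
  rw [e1, e2] at i3
  rw [e3, e4] at i4
  have d1 := hh_dual (q := p) (w := n) (h := 4 * n - 2) (by omega) (by omega)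
  have d2 : hh (1 - p) (4 * n) (n - 1) ≤ hh (1 - p) (4 * n - 2 + 1) (n - 1) :=
    hh_mono (by linarith) (by linarith) (by omega) (by omega) le_rfl
  have d3 := long_cross (p := 1 - p) (by linarith) (by linarith) hN
  rw [← hn] at d3
  have i5 : Pr (fun _ => p) S B ≤ 20 * eps (1 - p) N := by
    have i6 : Pr (fun _ => p) S B ≤ _ := i2
    linarith
  rw [i0] at i1
  exact i1.trans (mul_le_mul_of_nonneg_left i5 (arm_nonneg h0 h1 _))

theorem arm_decay_mul {p : ℝ} (h0 : 0 ≤ p) (h1 : p ≤ 1) {N : ℕ} (hN : 2 ≤ N)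
    (he : eps (1 - p) N ≤ 1/100) (j : ℕ) :
    arm p (2 * (2^j * N)) ≤ arm p (N - 1) * (1/4)^(2^j) := by
  have hle : N ≤ 2^j * N := Nat.le_mul_of_pos_left _ (by positivity)
  have h2 : 2 ≤ 2^j * N := hN.trans hle
  have h3 := arm_le_mul h0 h1 h2
  have h4 := eps_nonneg (p := 1 - p) (by linarith) (by linarith) (2^j * N)
  have h5 := eps_pow2 (p := 1 - p) (by linarith) (by linarith) hN he j
  have h6 : arm p (2^j * N - 1) ≤ arm p (N - 1) := arm_anti h0 h1 (by omega)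
  have h7 := arm_nonneg h0 h1 (N - 1)
  calc arm p (2 * (2^j * N)) ≤ arm p (2^j * N - 1) * (20 * eps (1 - p) (2^j * N)) := h3
    _ ≤ arm p (N - 1) * (1/4)^(2^j) :=
        mul_le_mul h6 (by linarith) (by linarith) h7

/-- Two arms and exponential decay. -/
theorem tau_far (p : unitInterval) {N : ℕ} (hN : 2 ≤ N) (he : eps (1 - (p:ℝ)) N ≤ 1/100)
    (x : Vtx) (hx : 4 * N < max x.1.natAbs x.2.natAbs) :
    tau p x ≤ (arm p (N - 1))^2 *
      Real.exp (-(((max x.1.natAbs x.2.natAbs : ℕ) : ℝ) / (8 * N))) := by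
  set r := max x.1.natAbs x.2.natAbs with hr
  set m := (r - 1) / (4 * N) with hm
  have hm1 : 1 ≤ m := by
    rw [hm, Nat.one_le_div_iff (by omega)]
    omega
  set j := Nat.log 2 m with hj
  have h1 : 2^j ≤ m := Nat.pow_log_le_self 2 (by omega)
  have h2 : m < 2^(j+1) := Nat.lt_pow_succ_log_self (by norm_num) m
  have h3 : m * (4 * N) ≤ r - 1 := Nat.div_mul_le_self (r - 1) (4*N)
  have h4 : r - 1 < (m + 1) * (4 * N) := by
    have := Nat.lt_mul_div_succ (r - 1) (show 0 < 4 * N by omega)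
    rw [← hm] at this
    calc r - 1 < 4 * N * (m + 1) := this
      _ = (m + 1) * (4 * N) := by ring
  have h5 : 2 * (2 * (2^j * N)) < r := by
    have : 2 * (2 * (2^j * N)) ≤ r - 1 := by
      calc 2 * (2 * (2^j * N)) = 2^j * (4 * N) := by ring
        _ ≤ m * (4 * N) := Nat.mul_le_mul_right _ h1
        _ ≤ r - 1 := h3
    omega
  have h6 : 2 * ((2 * (2^j * N) : ℕ):ℤ) < |x.1| ∨ 2 * ((2 * (2^j * N) : ℕ):ℤ) < |x.2| := by
    have : r = x.1.natAbs ∨ r = x.2.natAbs := by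
      rcases max_choice x.1.natAbs x.2.natAbs with h | h
      · left; rw [hr, h]
      · right; rw [hr, h]
    generalize 2 * (2^j * N) = t at h5
    rw [Int.abs_eq_natAbs, Int.abs_eq_natAbs]
    rcases this with h | h
    · left; omega
    · right; omega
  have h7 := tau_le_arm_sq p h6
  have h7' := arm_decay_mul p.2.1 p.2.2 hN he j
  have hN0 : (0:ℝ) < N := by exact_mod_cast (by omega : 0 < N)
  have h8 : ((r:ℝ) / (8 * N)) ≤ (2:ℝ)^j := by
    rw [div_le_iff₀ (by positivity)]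
    have h9 : r ≤ 2^j * (8 * N) := by
      have : (m + 1) * (4 * N) ≤ 2^(j+1) * (4 * N) := Nat.mul_le_mul_right _ h2
      have e : 2^(j+1) * (4 * N) = 2^j * (8 * N) := by ring
      omega
    exact_mod_cast h9
  have h10 : (1/4 : ℝ) ≤ Real.exp (-1) := by
    rw [Real.exp_neg, one_div]
    apply inv_anti₀ (Real.exp_pos _)
    have := Real.exp_one_lt_d9
    linarith
  have h11 : ((1:ℝ)/4)^(2^j) ≤ Real.exp (-((r:ℝ) / (8 * N))) := by
    calc ((1:ℝ)/4)^(2^j) ≤ (Real.exp (-1))^(2^j) := pow_le_pow_left₀ (by norm_num) h10 _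
      _ = Real.exp (-((2:ℝ)^j)) := by
          rw [← Real.exp_nat_mul]
          congr 1
          push_cast
          ring
      _ ≤ _ := Real.exp_le_exp.mpr (by linarith)
  have h12 : (0:ℝ) ≤ ((1:ℝ)/4)^(2^j) := by positivity
  have h13 : ((1:ℝ)/4)^(2^j) ≤ 1 := pow_le_one₀ (by norm_num) (by norm_num)
  have h14 := arm_nonneg p.2.1 p.2.2 (2 * (2^j * N))
  calc tau p x ≤ (arm p (2 * (2^j * N)))^2 := h7
    _ ≤ (arm p (N - 1) * (1/4)^(2^j))^2 := pow_le_pow_left₀ h14 h7' 2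
    _ = (arm p (N - 1))^2 * ((1/4)^(2^j) * (1/4)^(2^j)) := by ring
    _ ≤ (arm p (N - 1))^2 * (Real.exp (-((r:ℝ) / (8 * N))) * 1) :=
        mul_le_mul_of_nonneg_left (mul_le_mul h11 h13 h12 (Real.exp_pos _).le) (sq_nonneg _)
    _ = _ := by rw [mul_one]

/-- Sharp power bound for the two-point function at and below the critical point. -/
theorem tau_le_pow_sharp {C0 : ℝ} (hC0 : 0 < C0)
    (h : ∀ n : ℕ, 1 ≤ n → arm (1/2) n ≤ C0 * (n:ℝ)^(-(5/48) : ℝ)) :
    ∀ p : unitInterval, (p:ℝ) ≤ 1/2 → ∀ x : Vtx,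
      tau p x ≤ (8 * C0^2 + 3) *
        (((max x.1.natAbs x.2.natAbs : ℕ) : ℝ) + 1)^(-(5/24) : ℝ) := by
  intro p hp x
  set r := max x.1.natAbs x.2.natAbs with hr
  have hp0 : (0:ℝ) ≤ p := p.2.1
  have hr0 : (0:ℝ) < (r:ℝ) + 1 := by positivity
  by_cases h3 : r ≤ 2
  · have h4 : (1:ℝ)/3 ≤ ((r:ℝ) + 1)^(-(5/24) : ℝ) := by
      have h5 : (r:ℝ) + 1 ≤ 3 := by
        have : (r:ℝ) ≤ 2 := by exact_mod_cast h3
        linarith
      calc (1:ℝ)/3 = (3:ℝ)^(-1:ℝ) := by rw [Real.rpow_neg_one]; norm_num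
        _ ≤ (3:ℝ)^(-(5/24) : ℝ) :=
            Real.rpow_le_rpow_of_exponent_le (by norm_num) (by norm_num)
        _ ≤ ((r:ℝ) + 1)^(-(5/24) : ℝ) :=
            Real.rpow_le_rpow_of_nonpos hr0 h5 (by norm_num)
    have h6 := tau_le_one p x
    have h7 : 0 ≤ 8 * C0^2 * ((r:ℝ) + 1)^(-(5/24) : ℝ) := by positivity
    nlinarith
  · have h8 : 1 ≤ (r-1)/2 := by omega
    have h9 : r + 1 ≤ 8 * ((r-1)/2) := by omega
    have h10 : 2 * (((r-1)/2 : ℕ):ℤ) < |x.1| ∨ 2 * (((r-1)/2 : ℕ):ℤ) < |x.2| := by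
      have : r = x.1.natAbs ∨ r = x.2.natAbs := by
        rcases max_choice x.1.natAbs x.2.natAbs with h | h
        · left; rw [hr, h]
        · right; rw [hr, h]
      rw [Int.abs_eq_natAbs, Int.abs_eq_natAbs]
      rcases this with h | h
      · left; omega
      · right; omega
    have h11 := tau_le_arm_sq p h10
    set m := (r-1)/2 with hm
    have hm0 : (0:ℝ) < m := by exact_mod_cast (by omega : 0 < m)
    have h12 : arm p m ≤ C0 * (m:ℝ)^(-(5/48) : ℝ) :=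
      (arm_mono_param hp0 hp (by norm_num) m).trans (h m h8)
    have h13 : (arm p m)^2 ≤ (C0 * (m:ℝ)^(-(5/48) : ℝ))^2 :=
      pow_le_pow_left₀ (arm_nonneg hp0 (by linarith) m) h12 2
    have h14 : (C0 * (m:ℝ)^(-(5/48) : ℝ))^2 = C0^2 * (m:ℝ)^(-(5/24) : ℝ) := by
      rw [mul_pow, ← Real.rpow_natCast ((m:ℝ)^(-(5/48) : ℝ)), ← Real.rpow_mul hm0.le]
      congr 2
      push_cast
      ring
    have h15 : (m:ℝ)^(-(5/24) : ℝ) ≤ (((r:ℝ)+1)/8)^(-(5/24) : ℝ) := by
      apply Real.rpow_le_rpow_of_nonpos (by positivity) _ (by norm_num)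
      have : ((r + 1 : ℕ):ℝ) ≤ ((8 * m : ℕ) : ℝ) := by exact_mod_cast h9
      push_cast at this
      linarith
    have h16 : (((r:ℝ)+1)/8)^(-(5/24) : ℝ) ≤ 8 * ((r:ℝ)+1)^(-(5/24) : ℝ) := by
      rw [Real.div_rpow hr0.le (by norm_num)]
      rw [div_eq_mul_inv, mul_comm]
      apply mul_le_mul_of_nonneg_right _ (by positivity)
      rw [← Real.rpow_neg (by norm_num), neg_neg]
      calc (8:ℝ)^(5/24 : ℝ) ≤ (8:ℝ)^(1:ℝ) :=
            Real.rpow_le_rpow_of_exponent_le (by norm_num) (by norm_num)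
        _ = 8 := Real.rpow_one _
    have h17 : 0 ≤ ((r:ℝ)+1)^(-(5/24) : ℝ) := by positivity
    calc tau p x ≤ (arm p m)^2 := h11
      _ ≤ C0^2 * (m:ℝ)^(-(5/24) : ℝ) := h13.trans h14.le
      _ ≤ C0^2 * (8 * ((r:ℝ)+1)^(-(5/24) : ℝ)) :=
          mul_le_mul_of_nonneg_left (h15.trans h16) (by positivity)
      _ ≤ _ := by nlinarith

/-- The mean cluster size is at most `K N^(43/24)`. -/
theorem sigma_le_len {C0 : ℝ} (hC0 : 0 < C0)
    (harm : ∀ n : ℕ, 1 ≤ n → arm (1/2) n ≤ C0 * (n:ℝ)^(-(5/48) : ℝ)) :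
    ∃ K : ℝ, 0 < K ∧ ∀ p : unitInterval, (p:ℝ) ≤ 1/2 → ∀ N : ℕ, 2 ≤ N →
      eps (1 - (p:ℝ)) N ≤ 1/100 → sigma p ≤ ENNReal.ofReal (K * (N:ℝ)^(43/24 : ℝ)) := by
  set C : ℝ := 8 * C0^2 + 3 with hC
  have hC1 : 0 < C := by rw [hC]; positivity
  set D : ℝ := 64 * C + 12288 * C0^2 with hD
  have hD0 : 0 < D := by rw [hD]; positivity
  refine ⟨32 * C + 16 * D, by positivity, ?_⟩
  intro p hp N hN2 heps
  have hp0 : (0:ℝ) ≤ p := p.2.1
  have hNpos : (0:ℝ) < N := by exact_mod_cast (by omega : 0 < N)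
  have hN2' : (2:ℝ) ≤ N := by exact_mod_cast hN2
  have htau := tau_le_pow_sharp hC0 harm p hp
  -- the arm to distance `N - 1`
  have harmN : (arm p (N - 1))^2 ≤ 4 * C0^2 * (N:ℝ)^(-(5/24) : ℝ) := by
    have a1 : arm p (N - 1) ≤ C0 * ((N - 1 : ℕ):ℝ)^(-(5/48) : ℝ) :=
      (arm_mono_param hp0 hp (by norm_num) (N - 1)).trans (harm (N - 1) (by omega))
    have a2 : ((N:ℝ)/2) ≤ ((N - 1 : ℕ):ℝ) := by
      rw [Nat.cast_sub (by omega)]
      push_cast
      linarith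
    have a3 : ((N - 1 : ℕ):ℝ)^(-(5/48) : ℝ) ≤ ((N:ℝ)/2)^(-(5/48) : ℝ) :=
      Real.rpow_le_rpow_of_nonpos (by positivity) a2 (by norm_num)
    have a4 : ((N:ℝ)/2)^(-(5/48) : ℝ) ≤ 2 * (N:ℝ)^(-(5/48) : ℝ) := by
      rw [Real.div_rpow hNpos.le (by norm_num), div_eq_mul_inv, mul_comm]
      apply mul_le_mul_of_nonneg_right _ (by positivity)
      rw [← Real.rpow_neg (by norm_num), neg_neg]
      calc (2:ℝ)^(5/48 : ℝ) ≤ (2:ℝ)^(1:ℝ) :=
            Real.rpow_le_rpow_of_exponent_le (by norm_num) (by norm_num)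
        _ = 2 := Real.rpow_one _
    have a5 : arm p (N - 1) ≤ 2 * C0 * (N:ℝ)^(-(5/48) : ℝ) := by
      calc arm p (N - 1) ≤ C0 * ((N - 1 : ℕ):ℝ)^(-(5/48) : ℝ) := a1
        _ ≤ C0 * (2 * (N:ℝ)^(-(5/48) : ℝ)) :=
            mul_le_mul_of_nonneg_left (a3.trans a4) hC0.le
        _ = _ := by ring
    have a6 := pow_le_pow_left₀ (arm_nonneg hp0 p.2.2 (N - 1)) a5 2
    refine a6.trans (le_of_eq ?_)
    rw [mul_pow, ← Real.rpow_natCast ((N:ℝ)^(-(5/48) : ℝ)), ← Real.rpow_mul hNpos.le]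
    have a7 : (-(5/48) : ℝ) * ((2:ℕ):ℝ) = -(5/24) := by push_cast; ring
    rw [a7]
    ring
  -- the function `f`
  set f : ℕ → ℝ := fun r => if r < 2 * N then C * ((r:ℝ)+1)^(-(5/24) : ℝ)
    else D * (N:ℝ)^(-(5/24) : ℝ) * ((N:ℝ)/r)^3 with hf
  have hf0 : ∀ r, 0 ≤ f r := by
    intro r
    rw [hf]
    simp only
    split_ifs
    · positivity
    · positivity
  have hfx : ∀ x : Vtx, tau p x ≤ f (max x.1.natAbs x.2.natAbs) := by
    intro x
    rw [hf]
    simp only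
    split_ifs with h
    · exact htau x
    · rw [not_lt] at h
      set r := max x.1.natAbs x.2.natAbs with hr
      have hrN : (2:ℝ) * N ≤ r := by exact_mod_cast h
      have hr0 : (0:ℝ) < r := by linarith
      have hq0 : (0:ℝ) ≤ (N:ℝ)^(-(5/24) : ℝ) := by positivity
      by_cases h4 : r ≤ 4 * N
      · have h5 : (r:ℝ) ≤ 4 * N := by exact_mod_cast h4
        have h6 : (1:ℝ)/64 ≤ ((N:ℝ)/r)^3 := by
          have h7 : (1:ℝ)/4 ≤ (N:ℝ)/r := by
            rw [le_div_iff₀ hr0]; linarith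
          calc (1:ℝ)/64 = (1/4)^3 := by norm_num
            _ ≤ _ := pow_le_pow_left₀ (by norm_num) h7 3
        have h8 : ((r:ℝ) + 1)^(-(5/24) : ℝ) ≤ (N:ℝ)^(-(5/24) : ℝ) :=
          Real.rpow_le_rpow_of_nonpos hNpos (by linarith) (by norm_num)
        calc tau p x ≤ C * ((r:ℝ) + 1)^(-(5/24) : ℝ) := htau x
          _ ≤ C * (N:ℝ)^(-(5/24) : ℝ) := mul_le_mul_of_nonneg_left h8 hC1.le
          _ = (64 * C) * (N:ℝ)^(-(5/24) : ℝ) * (1/64) := by ring
          _ ≤ D * (N:ℝ)^(-(5/24) : ℝ) * ((N:ℝ)/r)^3 := by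
              apply mul_le_mul _ h6 (by norm_num) (by positivity)
              apply mul_le_mul_of_nonneg_right _ hq0
              rw [hD]
              have : 0 < C0^2 := by positivity
              linarith
      · rw [not_le] at h4
        have h9 := tau_far p hN2 heps x h4
        rw [← hr] at h9
        have h10 : Real.exp (-((r:ℝ) / (8 * N))) ≤ 3072 * ((N:ℝ)/r)^3 := by
          refine (exp_neg_cube (by positivity)).trans (le_of_eq ?_)
          field_simp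
          ring
        calc tau p x ≤ (arm p (N - 1))^2 * Real.exp (-((r:ℝ) / (8 * N))) := h9
          _ ≤ (4 * C0^2 * (N:ℝ)^(-(5/24) : ℝ)) * (3072 * ((N:ℝ)/r)^3) :=
              mul_le_mul harmN h10 (Real.exp_pos _).le (by positivity)
          _ = (12288 * C0^2) * (N:ℝ)^(-(5/24) : ℝ) * ((N:ℝ)/r)^3 := by ring
          _ ≤ D * (N:ℝ)^(-(5/24) : ℝ) * ((N:ℝ)/r)^3 := by
              apply mul_le_mul_of_nonneg_right _ (by positivity)
              apply mul_le_mul_of_nonneg_right _ hq0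
              rw [hD]
              linarith
  refine (sigma_le_shell p hf0 hfx).trans ?_
  rw [ENNReal.tsum_eq_iSup_nat]
  apply iSup_le
  intro M
  rw [← ENNReal.ofReal_sum_of_nonneg (fun r _ => mul_nonneg (by positivity) (hf0 r))]
  apply ENNReal.ofReal_le_ofReal
  have h1 : ∑ r ∈ range M, 8 * ((r:ℝ) + 1) * f r ≤
      ∑ r ∈ range (max M (2*N)), 8 * ((r:ℝ) + 1) * f r := by
    apply Finset.sum_le_sum_of_subset_of_nonneg
    · exact Finset.range_subset_range.mpr (le_max_left _ _)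
    · intro r _ _
      exact mul_nonneg (by positivity) (hf0 r)
  refine h1.trans ?_
  rw [← Finset.sum_range_add_sum_Ico _ (le_max_right M (2*N))]
  have e43 : (2:ℝ) - 5/24 = 43/24 := by norm_num
  have h2 : ∑ r ∈ range (2*N), 8 * ((r:ℝ) + 1) * f r ≤ 32 * C * (N:ℝ)^(43/24 : ℝ) := by
    have h2' := sum_near hN2 hC1.le (show (0:ℝ) ≤ 5/24 by norm_num) (le_refl (5/24 : ℝ))
      (by norm_num)
    rw [e43] at h2'
    refine le_trans (le_of_eq ?_) h2'
    apply Finset.sum_congr rfl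
    intro r hr
    rw [hf]
    simp only
    rw [if_pos (Finset.mem_range.mp hr)]
  have h3 : ∑ r ∈ Finset.Ico (2*N) (max M (2*N)), 8 * ((r:ℝ) + 1) * f r ≤
      16 * D * (N:ℝ)^(43/24 : ℝ) := by
    have h3' := sum_far hN2 hD0.le (a' := 5/24) (max M (2*N))
    rw [e43] at h3'
    refine le_trans (le_of_eq ?_) h3'
    apply Finset.sum_congr rfl
    intro r hr
    rw [hf]
    simp only
    rw [if_neg (not_lt.mpr (Finset.mem_Ico.mp hr).1)]
  linarith

end H362S
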