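import Pool.Agent.H362S.Stmts
import Pool.Agent.H362S.TaskE0

/-!
Task E of KS-PROJECT (helper841): the upper bound for the mean cluster size, up to constants.
-/

set_option autoImplicit false

namespace H362S

open H974 Finset

theorem taskE : TaskE := by
  rintro ⟨CF, hCF, hfar⟩
  obtain ⟨c, C0, -, hC0, h⟩ := Pool.Agent.H160R2.SA.arSharp
  have harm : ∀ n : ℕ, 1 ≤ n → arm (1/2) n ≤ C0 * (n:ℝ)^(-(5/48) : ℝ) := fun n hn => (h n hn).2
  obtain ⟨K, hK, hsig⟩ := sigma_le_len hC0 harm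
  have hCF0 : (0:ℝ) < CF := by linarith
  refine ⟨K * CF^(43/24 : ℝ), by positivity, ?_⟩
  intro p hp
  have hp0 : (0:ℝ) ≤ p := p.2.1
  set s : ℝ := 1/2 - (p:ℝ) with hs
  have hs0 : 0 < s := by rw [hs]; linarith
  obtain ⟨N, hN2, hNle, heps⟩ := hfar (1 - (p:ℝ)) (by linarith) (by linarith)
  have e1 : 1 - (p:ℝ) - 1/2 = s := by rw [hs]; ring
  rw [e1] at hNle
  refine (hsig p hp.le N hN2 heps).trans ?_
  apply ENNReal.ofReal_le_ofReal
  have hNpos : (0:ℝ) < N := by exact_mod_cast (by omega : 0 < N)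
  have h1 : (N:ℝ)^(43/24 : ℝ) ≤ (CF * s ^ (-(4/3) : ℝ))^(43/24 : ℝ) :=
    Real.rpow_le_rpow hNpos.le hNle (by norm_num)
  rw [Real.mul_rpow hCF0.le (by positivity), ← Real.rpow_mul hs0.le] at h1
  have e2 : (-(4/3) : ℝ) * (43/24) = -(43/18) := by norm_num
  rw [e2] at h1
  calc K * (N:ℝ)^(43/24 : ℝ) ≤ K * (CF^(43/24 : ℝ) * s^(-(43/18) : ℝ)) :=
        mul_le_mul_of_nonneg_left h1 hK.le
    _ = K * CF^(43/24 : ℝ) * s^(-(43/18) : ℝ) := by ring

end H362S
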