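import Pool.Agent.H362S.Stmts

/-!
Lower bound for the two-point function at and below the critical point, uniformly in the
distance and in the parameter.
-/

set_option maxHeartbeats 1000000

namespace H362S

open H974 H31K Finset MeasureTheory

theorem arm_long {q κ : ℝ} {r n : ℕ} (hW : H12S.Win q κ (2 * r)) (hr : 1 ≤ r)
    (h2 : 2 * r ≤ n) : κ^4 * hh q (n:ℤ) ((2 * r : ℕ) : ℤ) * arm q (2 * r) ≤ arm q n := by
  have h0 : 0 ≤ q := by linarith [hW.lo]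
  have h1 : q ≤ 1 := by linarith [hW.hi]
  have ok := okq h0 h1
  have hsub : boxE (2 * r) ⊆ boxE n := boxE_mono h2
  have hk := hW.kpos
  have e1 := pr_Arm q hsub
  have e2 : κ^4 ≤ Pr (fun _ => q) (boxE n) (Circ r ((2 * r : ℕ) : ℤ)) := by
    refine le_trans ?_ (pr_Circ h0 h1 (R1 := r) (R2 := ((2 * r : ℕ) : ℤ)) (by positivity)
      (by push_cast; omega) hsub)
    apply pow_le_pow_left₀ hk.le
    refine (hW.pri r hr (by omega)).trans ?_
    apply hh_mono h0 h1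
    · push_cast; omega
    · push_cast; omega
    · push_cast; omega
  have hsub2 : LRE 0 n (-(r:ℤ)) r ⊆ boxE n := by
    refine LRE_subset_RE.trans ?_
    unfold boxE
    apply RE_subset <;> omega
  have hhn : 0 ≤ hh q (n:ℤ) ((2 * r : ℕ) : ℤ) := hh_nonneg h0 h1 _ _
  have e3 : hh q (n:ℤ) ((2 * r : ℕ) : ℤ) ≤ Pr (fun _ => q) (boxE n) (LRc 0 n (-(r:ℤ)) r) := by
    rw [pr_LRc q hsub2]
    apply hh_mono h0 h1
    · omega
    · omega
    · push_cast; omega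
  have i1 := Pr_harris ok (Arm_incr (boxE n) (2 * r))
    (B := Circ r ((2 * r : ℕ) : ℤ)) (fun F G h _ hF => hF.mono h)
  have i2 := Pr_harris ok (S := boxE n)
    (A := fun F => Arm (2 * r) F ∧ Circ r ((2 * r : ℕ) : ℤ) F)
    (B := LRc 0 n (-(r:ℤ)) r) (fun F G h _ hF => ⟨hF.1.mono h, hF.2.mono h⟩)
    (LRc_incr _ _ _ _ _)
  have i3 : Pr (fun _ => q) (boxE n)
      (fun F => (Arm (2 * r) F ∧ Circ r ((2 * r : ℕ) : ℤ) F) ∧ LRc 0 n (-(r:ℤ)) r F) ≤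
        arm q n := by
    unfold arm
    apply Pr_mono ok
    rintro F _ ⟨⟨k1, k2⟩, k3⟩
    exact arm_of_glue3 hr h2 k1 k2 k3
  rw [e1] at i1
  have ha : 0 ≤ arm q (2 * r) := arm_nonneg h0 h1 _
  have j1 : arm q (2 * r) * κ^4 ≤ _ := (mul_le_mul_of_nonneg_left e2 ha).trans i1
  have j2 : (arm q (2 * r) * κ^4) * hh q (n:ℤ) ((2 * r : ℕ) : ℤ) ≤ _ :=
    (mul_le_mul j1 e3 hhn ((by positivity : 0 ≤ arm q (2 * r) * κ^4).trans j1)).trans i2
  calc κ^4 * hh q (n:ℤ) ((2 * r : ℕ) : ℤ) * arm q (2 * r) =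
        (arm q (2 * r) * κ^4) * hh q (n:ℤ) ((2 * r : ℕ) : ℤ) := by ring
    _ ≤ _ := j2
    _ ≤ _ := i3

theorem hh_chain {q κ : ℝ} {s : ℕ} (hW : H12S.Win q κ s) (hs : 1 ≤ s) (j : ℕ) :
    κ ^ (2 * j + 1) ≤ hh q (((15 * j + 1) * s : ℕ) : ℤ) (s:ℤ) := by
  have h0 : 0 ≤ q := by linarith [hW.lo]
  have h1 : q ≤ 1 := by linarith [hW.hi]
  have hk := hW.kpos
  have e16 := hW.pri s hs le_rfl
  have e1 : κ ≤ hh q (s:ℤ) (s:ℤ) := e16.trans (hh_mono h0 h1 (by omega) (by omega) le_rfl)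
  induction j with
  | zero => simpa using e1
  | succ j ih =>
    have hsz : (0:ℤ) < s := by exact_mod_cast hs
    have g := hh_glue h0 h1 (w1 := (((15 * j + 1) * s : ℕ) : ℤ)) (w2 := 16 * (s:ℤ)) (v := (s:ℤ))
      (h := (s:ℤ)) hsz (by push_cast; nlinarith [Int.natCast_nonneg j]) (by omega) hsz
    have e : (((15 * j + 1) * s : ℕ) : ℤ) + 16 * (s:ℤ) - (s:ℤ) =
        (((15 * (j+1) + 1) * s : ℕ) : ℤ) := by push_cast; ring
    rw [e] at g
    refine le_trans ?_ g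
    calc κ ^ (2 * (j + 1) + 1) = κ ^ (2 * j + 1) * κ * κ := by ring
      _ ≤ _ := mul_le_mul (mul_le_mul ih e16 hk.le (hh_nonneg h0 h1 _ _)) e1 hk.le
          (mul_nonneg (hh_nonneg h0 h1 _ _) (hh_nonneg h0 h1 _ _))

theorem hh_long {q κ : ℝ} {s : ℕ} (hW : H12S.Win q κ s) (hs : 1 ≤ s) {w : ℕ} (hw : 1 ≤ w) :
    κ ^ (2 * (w / s) + 3) ≤ hh q (w:ℤ) (s:ℤ) := by
  have h0 : 0 ≤ q := by linarith [hW.lo]
  have h1 : q ≤ 1 := by linarith [hW.hi]
  have h := hh_chain hW hs (w / s + 1)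
  have e : 2 * (w / s) + 3 = 2 * (w / s + 1) + 1 := by ring
  rw [e]
  refine h.trans (hh_mono h0 h1 (by omega) ?_ le_rfl)
  have h2 : w < s * (w / s + 1) := Nat.lt_mul_div_succ w (by omega)
  have h3 : w ≤ (15 * (w / s + 1) + 1) * s := by
    calc w ≤ s * (w / s + 1) := h2.le
      _ = (w / s + 1) * s := by ring
      _ ≤ (15 * (w / s + 1) + 1) * s := Nat.mul_le_mul_right _ (by omega)
  exact_mod_cast h3

theorem tp_le_tau (p : unitInterval) (x : Vtx) (S : Finset Edg) :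
    Pr (fun _ => (p:ℝ)) S (TP x) ≤ tau p x := by
  rw [← law_event]
  unfold tau
  refine measureReal_mono ?_
  intro ω h
  have h3 : Reach (↑(FF S ω) : Set Edg) (0, 0) x := h
  rw [FF_coe] at h3
  exact (open_reach ω _ _).mpr (h3.mono Set.inter_subset_left)

theorem two_low (hA : ArmS) : ∃ c C δ : ℝ, 0 < c ∧ 0 < C ∧ 0 < δ ∧
    ∀ (p : unitInterval) (x : Vtx) (r : ℕ), r = max x.1.natAbs x.2.natAbs → 1 ≤ r →
      (p:ℝ) ≤ 1/2 → 1/2 - δ ≤ (p:ℝ) →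
      c * ((r:ℝ) ^ (-(5/24) : ℝ) * Real.exp (-(C * (r * (1/2 - (p:ℝ)) ^ (4/3 : ℝ))))) ≤
        tau p x := by
  obtain ⟨κ, a, hκ, ha, hA⟩ := hA
  obtain ⟨c0, C0, hc0, hC0, h0⟩ := Pool.Agent.H160R2.SA.arSharp
  have hS : ∀ n : ℕ, 1 ≤ n → c0 * (n:ℝ) ^ (-(5/48) : ℝ) ≤ arm (1/2) n := fun n hn => (h0 n hn).1
  have hκ2 : κ ≤ 1/2 := (hA 1 (1/2) le_rfl (by simp; positivity)).1.kle
  set ℓ : ℝ := -Real.log κ with hℓ
  have hℓ0 : 0 < ℓ := by
    have := Real.log_neg hκ (by linarith)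
    rw [hℓ]; linarith
  have hpw : ∀ m : ℕ, κ ^ m = Real.exp (-(ℓ * m)) := by
    intro m
    conv_lhs => rw [← Real.exp_log hκ, ← Real.exp_nat_mul]
    congr 1
    rw [hℓ]; ring
  refine ⟨(c0 / 3)^2 * (1/2) * κ^26, 256 * ℓ * a ^ (-(4/3) : ℝ), a / 4, by positivity,
    by positivity, by positivity, ?_⟩
  rintro p ⟨x1, x2⟩ r hr hr1 hp hpδ
  simp only at hr
  have hp0 : (0:ℝ) ≤ p := p.2.1
  have hp1 : (p:ℝ) ≤ 1 := p.2.2
  have hrr : (1:ℝ) ≤ r := by exact_mod_cast hr1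
  have hrp : (0:ℝ) < r := by linarith
  set h : ℝ := 1/2 - (p:ℝ) with hh'
  have hh0 : 0 ≤ h := by rw [hh']; linarith
  have habs : |(p:ℝ) - 1/2| = h := by rw [abs_sub_comm, abs_of_nonneg hh0]
  have hx : inR (-(r:ℤ)) r (-(r:ℤ)) r (x1, x2) := by
    unfold inR; simp only; omega
  have h2 := (two_point hp0 hp1 (r := r) (by omega) hx (Finset.Subset.refl _)).trans
    (tp_le_tau p (x1, x2) (boxE (5 * r)))
  have hanti : arm p (4 * r) ≤ arm p (3 * r) := arm_anti hp0 hp1 (by omega)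
  set A : ℝ := c0 * ((4 * r : ℕ) : ℝ) ^ (-(5/48) : ℝ) / 3 with hAdef
  have hA0 : 0 < A := by
    rw [hAdef]
    have : (0:ℝ) < ((4 * r : ℕ) : ℝ) := by exact_mod_cast (by omega : 0 < 4 * r)
    positivity
  have hA2 : (c0 / 3)^2 * (1/2) * (r:ℝ) ^ (-(5/24) : ℝ) ≤ A^2 := by
    have e1 : A^2 = (c0 / 3)^2 * (((4 * r : ℕ) : ℝ) ^ (-(5/48) : ℝ))^2 := by
      rw [hAdef]; ring
    have e2 : (((4 * r : ℕ) : ℝ) ^ (-(5/48) : ℝ))^2 = (4:ℝ) ^ (-(5/24) : ℝ) * (r:ℝ) ^ (-(5/24) : ℝ) := by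
      rw [← Real.rpow_natCast, ← Real.rpow_mul (by positivity)]
      push_cast
      rw [Real.mul_rpow (by norm_num) hrp.le]
      norm_num
    have e3 : (1/2 : ℝ) ≤ (4:ℝ) ^ (-(5/24) : ℝ) := by
      calc (1/2 : ℝ) = (4:ℝ) ^ (-(1/2) : ℝ) := by
            rw [Real.rpow_neg (by norm_num), ← Real.sqrt_eq_rpow,
              show (4:ℝ) = 2 ^ 2 by norm_num, Real.sqrt_sq (by norm_num)]
            norm_num
        _ ≤ _ := Real.rpow_le_rpow_of_exponent_le (by norm_num) (by norm_num)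
    rw [e1, e2, mul_assoc]
    apply mul_le_mul_of_nonneg_left _ (by positivity)
    exact mul_le_mul_of_nonneg_right e3 (by positivity)
  by_cases hw : h ≤ a * ((4 * r : ℕ) : ℝ) ^ (-(3/4) : ℝ)
  · -- below the correlation length
    obtain ⟨hW, -, h3⟩ := hA (4 * r) p (by omega) (by rw [habs]; exact hw)
    have h4 := hS (4 * r) (by omega)
    have h5 : A ≤ arm p (4 * r) := by rw [hAdef]; linarith
    have h6 : κ ≤ hh p ((6 * r : ℕ) : ℤ) ((2 * r : ℕ) : ℤ) := by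
      have h := hW.pri (2 * r) (by omega) (by omega)
      refine h.trans (hh_mono hp0 hp1 (by push_cast; omega) (by push_cast; omega) le_rfl)
    have h7 : A * A * κ^4 ≤ tau p (x1, x2) := by
      refine le_trans ?_ h2
      exact mul_le_mul (mul_le_mul (h5.trans hanti) h5 hA0.le (hA0.le.trans (h5.trans hanti)))
        (pow_le_pow_left₀ hκ.le h6 4) (by positivity)
        (mul_nonneg (hA0.le.trans (h5.trans hanti)) (hA0.le.trans h5))
    have h8 : κ^26 ≤ κ^4 := pow_le_pow_of_le_one hκ.le (by linarith) (by norm_num)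
    have h9 : Real.exp (-(256 * ℓ * a ^ (-(4/3) : ℝ) * (r * h ^ (4/3 : ℝ)))) ≤ 1 := by
      rw [Real.exp_le_one_iff]
      have : 0 ≤ 256 * ℓ * a ^ (-(4/3) : ℝ) * (r * h ^ (4/3 : ℝ)) := by positivity
      linarith
    calc (c0 / 3)^2 * (1/2) * κ^26 * ((r:ℝ) ^ (-(5/24) : ℝ) *
          Real.exp (-(256 * ℓ * a ^ (-(4/3) : ℝ) * (r * h ^ (4/3 : ℝ)))))
        ≤ (c0 / 3)^2 * (1/2) * κ^26 * ((r:ℝ) ^ (-(5/24) : ℝ) * 1) := by
          apply mul_le_mul_of_nonneg_left _ (by positivity)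
          exact mul_le_mul_of_nonneg_left h9 (by positivity)
      _ = ((c0 / 3)^2 * (1/2) * (r:ℝ) ^ (-(5/24) : ℝ)) * κ^26 := by ring
      _ ≤ A^2 * κ^4 := mul_le_mul hA2 h8 (by positivity) (by positivity)
      _ = A * A * κ^4 := by ring
      _ ≤ _ := h7
  · -- above the correlation length
    push Not at hw
    have h4r : (0:ℝ) < ((4 * r : ℕ) : ℝ) := by exact_mod_cast (by omega : 0 < 4 * r)
    have hhp : 0 < h := lt_of_le_of_lt (by positivity) hw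
    set y : ℝ := (a / h) ^ (4/3 : ℝ) with hy
    have hah4 : 4 ≤ a / h := by
      rw [le_div_iff₀ hhp]; linarith
    have hy34 : y ^ (3/4 : ℝ) = a / h := by
      rw [hy, ← Real.rpow_mul (by positivity)]
      norm_num
    have hy4 : 4 ≤ y := by
      calc (4:ℝ) = (4:ℝ) ^ (1:ℝ) := (Real.rpow_one _).symm
        _ ≤ (4:ℝ) ^ (4/3 : ℝ) := Real.rpow_le_rpow_of_exponent_le (by norm_num) (by norm_num)
        _ ≤ y := Real.rpow_le_rpow (by norm_num) hah4 (by norm_num)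
    have hyr : y < ((4 * r : ℕ) : ℝ) := by
      by_contra hc
      push Not at hc
      have i1 : ((4 * r : ℕ) : ℝ) ^ (3/4 : ℝ) ≤ a / h := by
        rw [← hy34]; exact Real.rpow_le_rpow h4r.le hc (by norm_num)
      rw [le_div_iff₀ hhp] at i1
      have i2 : a * ((4 * r : ℕ) : ℝ) ^ (-(3/4) : ℝ) * ((4 * r : ℕ) : ℝ) ^ (3/4 : ℝ) = a := by
        rw [mul_assoc, ← Real.rpow_add h4r]
        norm_num
      have i3 : a * ((4 * r : ℕ) : ℝ) ^ (-(3/4) : ℝ) * ((4 * r : ℕ) : ℝ) ^ (3/4 : ℝ) <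
          h * ((4 * r : ℕ) : ℝ) ^ (3/4 : ℝ) := mul_lt_mul_of_pos_right hw (by positivity)
      linarith
    obtain ⟨s, hs⟩ : ∃ s : ℕ, s = ⌊y / 4⌋₊ := ⟨_, rfl⟩
    have hs1 : 1 ≤ s := by
      rw [hs]; exact Nat.le_floor (by push_cast; linarith)
    have hsr : (1:ℝ) ≤ s := by exact_mod_cast hs1
    have hsp : (0:ℝ) < s := by linarith
    have hsy : (s:ℝ) ≤ y / 4 := by rw [hs]; exact Nat.floor_le (by positivity)
    have hsy2 : y ≤ 8 * s := by
      have i1 : y / 4 < s + 1 := by rw [hs]; exact Nat.lt_floor_add_one _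
      linarith
    have h2s : 2 * s ≤ 2 * r := by
      have i1 : (s:ℝ) ≤ r := by
        push_cast at hyr
        linarith
      have i2 : s ≤ r := by exact_mod_cast i1
      omega
    have hwin : h ≤ a * ((2 * s : ℕ) : ℝ) ^ (-(3/4) : ℝ) := by
      have i0 : (0:ℝ) < ((2 * s : ℕ) : ℝ) := by exact_mod_cast (by omega : 0 < 2 * s)
      have i1 : ((2 * s : ℕ) : ℝ) ^ (3/4 : ℝ) ≤ a / h := by
        rw [← hy34]
        apply Real.rpow_le_rpow i0.le _ (by norm_num)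
        push_cast; linarith
      rw [le_div_iff₀ hhp] at i1
      rw [Real.rpow_neg i0.le, ← div_eq_mul_inv, le_div_iff₀ (by positivity)]
      linarith
    obtain ⟨hW, -, h3⟩ := hA (2 * s) p (by omega) (by rw [habs]; exact hwin)
    have h4 := hS (2 * s) (by omega)
    have h5 : A ≤ arm p (2 * s) := by
      have i0 : (0:ℝ) < ((2 * s : ℕ) : ℝ) := by exact_mod_cast (by omega : 0 < 2 * s)
      have i1 : ((4 * r : ℕ) : ℝ) ^ (-(5/48) : ℝ) ≤ ((2 * s : ℕ) : ℝ) ^ (-(5/48) : ℝ) := by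
        apply Real.rpow_le_rpow_of_nonpos i0 _ (by norm_num)
        exact_mod_cast (by omega : 2 * s ≤ 4 * r)
      have i2 := mul_le_mul_of_nonneg_left i1 hc0.le
      rw [hAdef]; linarith
    set K1 : ℕ := 2 * ((4 * r) / (2 * s)) + 3 with hK1
    set K2 : ℕ := 2 * ((6 * r) / (2 * s)) + 3 with hK2
    have g1 : κ ^ K1 ≤ hh p ((4 * r : ℕ) : ℤ) ((2 * s : ℕ) : ℤ) := hh_long hW (by omega) (by omega)
    have g2 : κ ^ K2 ≤ hh p ((6 * r : ℕ) : ℤ) ((2 * r : ℕ) : ℤ) := by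
      have i1 : κ ^ K2 ≤ hh p ((6 * r : ℕ) : ℤ) ((2 * s : ℕ) : ℤ) :=
        hh_long hW (by omega) (by omega)
      refine i1.trans (hh_mono hp0 hp1 (by push_cast; omega) le_rfl ?_)
      exact_mod_cast h2s
    have h6 : κ^4 * κ^K1 * A ≤ arm p (4 * r) := by
      refine le_trans ?_ (arm_long (n := 4 * r) hW hs1 (by omega))
      exact mul_le_mul (mul_le_mul_of_nonneg_left g1 (by positivity)) h5 hA0.le
        (mul_nonneg (by positivity) (hh_nonneg hp0 hp1 _ _))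
    have hB0 : 0 ≤ κ^4 * κ^K1 * A := by positivity
    have h7 : (κ^4 * κ^K1 * A) * (κ^4 * κ^K1 * A) * (κ^K2)^4 ≤ tau p (x1, x2) := by
      refine le_trans ?_ h2
      exact mul_le_mul (mul_le_mul (h6.trans hanti) h6 hB0 (hB0.trans (h6.trans hanti)))
        (pow_le_pow_left₀ (by positivity) g2 4) (by positivity)
        (mul_nonneg (hB0.trans (h6.trans hanti)) (hB0.trans h6))
    have h8 : (κ^4 * κ^K1 * A) * (κ^4 * κ^K1 * A) * (κ^K2)^4 = A^2 * κ^(8 + 2 * K1 + 4 * K2) := by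
      ring
    rw [h8] at h7
    have h9 : ((8 + 2 * K1 + 4 * K2 : ℕ) : ℝ) ≤ 26 + 256 * (a ^ (-(4/3) : ℝ) * (r * h ^ (4/3 : ℝ))) := by
      have i1 : (((4 * r) / (2 * s) : ℕ) : ℝ) ≤ ((4 * r : ℕ) : ℝ) / ((2 * s : ℕ) : ℝ) :=
        Nat.cast_div_le
      have i2 : (((6 * r) / (2 * s) : ℕ) : ℝ) ≤ ((6 * r : ℕ) : ℝ) / ((2 * s : ℕ) : ℝ) :=
        Nat.cast_div_le
      have i3 : ((4 * r : ℕ) : ℝ) / ((2 * s : ℕ) : ℝ) = 2 * (r / s) := by
        push_cast; field_simp; norm_num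
      have i4 : ((6 * r : ℕ) : ℝ) / ((2 * s : ℕ) : ℝ) = 3 * (r / s) := by
        push_cast; field_simp; norm_num
      rw [i3] at i1
      rw [i4] at i2
      have i5 : (r:ℝ) / s ≤ 8 * (a ^ (-(4/3) : ℝ) * (r * h ^ (4/3 : ℝ))) := by
        have j1 : (r:ℝ) / s ≤ 8 * (r / y) := by
          rw [div_le_iff₀ hsp]
          have j2 : 8 * (r / y) * s = r * (8 * s / y) := by ring
          rw [j2]
          have j3 : 1 ≤ 8 * s / y := by rw [le_div_iff₀ (by linarith)]; linarith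
          exact le_mul_of_one_le_right hrp.le j3
        have j4 : (r:ℝ) / y = a ^ (-(4/3) : ℝ) * (r * h ^ (4/3 : ℝ)) := by
          rw [hy, Real.div_rpow ha.le hhp.le, Real.rpow_neg ha.le]
          field_simp
        rw [j4] at j1
        exact j1
      have i6 : ((8 + 2 * K1 + 4 * K2 : ℕ) : ℝ) = 26 + 4 * (((4 * r) / (2 * s) : ℕ) : ℝ) +
          8 * (((6 * r) / (2 * s) : ℕ) : ℝ) := by
        rw [hK1, hK2]; push_cast; ring
      rw [i6]
      linarith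
    have h10 : κ^26 * Real.exp (-(256 * ℓ * a ^ (-(4/3) : ℝ) * (r * h ^ (4/3 : ℝ)))) ≤
        κ^(8 + 2 * K1 + 4 * K2) := by
      rw [hpw, hpw, ← Real.exp_add]
      apply Real.exp_le_exp.mpr
      have := mul_le_mul_of_nonneg_left h9 hℓ0.le
      push_cast at this ⊢
      linarith
    calc (c0 / 3)^2 * (1/2) * κ^26 * ((r:ℝ) ^ (-(5/24) : ℝ) *
          Real.exp (-(256 * ℓ * a ^ (-(4/3) : ℝ) * (r * h ^ (4/3 : ℝ)))))
        = ((c0 / 3)^2 * (1/2) * (r:ℝ) ^ (-(5/24) : ℝ)) *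
          (κ^26 * Real.exp (-(256 * ℓ * a ^ (-(4/3) : ℝ) * (r * h ^ (4/3 : ℝ))))) := by ring
      _ ≤ A^2 * κ^(8 + 2 * K1 + 4 * K2) := mul_le_mul hA2 h10 (by positivity) (by positivity)
      _ ≤ _ := h7

end H362S
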