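import Pool.Agent.H362S.Stmts
import Pool.Agent.H362S.TaskE0

/-!
Upper bound for the two-point function at and below the critical point, uniformly in the
distance and in the parameter (from `tau_far` and `tau_le_pow_sharp` of helper841).
-/

set_option maxHeartbeats 1000000

namespace H362S

open H974 H31K Finset MeasureTheory

theorem two_up (hF : FarS) : ∃ c C : ℝ, 0 < c ∧ 0 < C ∧
    ∀ (p : unitInterval) (x : Vtx) (r : ℕ), r = max x.1.natAbs x.2.natAbs → 1 ≤ r →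
      (p:ℝ) ≤ 1/2 →
      tau p x ≤
        C * ((r:ℝ) ^ (-(5/24) : ℝ) * Real.exp (-(c * (r * (1/2 - (p:ℝ)) ^ (4/3 : ℝ))))) := by
  obtain ⟨CF, hCF, hfar⟩ := hF
  obtain ⟨c0, C0, -, hC0, h0⟩ := Pool.Agent.H160R2.SA.arSharp
  have hS : ∀ n : ℕ, 1 ≤ n → arm (1/2) n ≤ C0 * (n:ℝ) ^ (-(5/48) : ℝ) := fun n hn => (h0 n hn).2
  have hCF0 : 0 < CF := by linarith
  set K : ℝ := 8 * C0^2 + 3 with hK
  have hK0 : 0 < K := by positivity
  refine ⟨1 / (16 * CF), 3 * K + 32 * C0^2, by positivity, by positivity, ?_⟩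
  intro p x r hr hr1 hp
  have hp0 : (0:ℝ) ≤ p := p.2.1
  have hp1 : (p:ℝ) ≤ 1 := p.2.2
  have hrr : (1:ℝ) ≤ r := by exact_mod_cast hr1
  have hrp : (0:ℝ) < r := by linarith
  set h : ℝ := 1/2 - (p:ℝ) with hh'
  have hh0 : 0 ≤ h := by rw [hh']; linarith
  have hx : 0 < (r:ℝ) ^ (-(5/24) : ℝ) := by positivity
  have hbase : tau p x ≤ K * (r:ℝ) ^ (-(5/24) : ℝ) := by
    have h1 := tau_le_pow_sharp hC0 hS p hp x
    rw [← hr] at h1
    refine h1.trans (mul_le_mul_of_nonneg_left ?_ hK0.le)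
    exact Real.rpow_le_rpow_of_nonpos hrp (by linarith) (by norm_num)
  set E : ℝ := Real.exp (-(1 / (16 * CF) * (r * h ^ (4/3 : ℝ)))) with hE
  have hE0 : 0 < E := Real.exp_pos _
  have hexp1 : (1/3 : ℝ) ≤ Real.exp (-1) := by
    rw [Real.exp_neg, one_div]
    apply inv_anti₀ (Real.exp_pos _)
    have := Real.exp_one_lt_d9
    linarith
  have hsmall : (1/3 : ℝ) ≤ E → tau p x ≤ (3 * K + 32 * C0^2) * ((r:ℝ) ^ (-(5/24) : ℝ) * E) := by
    intro hE3
    have i1 : K * (r:ℝ) ^ (-(5/24) : ℝ) ≤ 3 * K * ((r:ℝ) ^ (-(5/24) : ℝ) * E) := by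
      have : 0 ≤ K * (r:ℝ) ^ (-(5/24) : ℝ) := by positivity
      nlinarith
    have i2 : 0 ≤ 32 * C0^2 * ((r:ℝ) ^ (-(5/24) : ℝ) * E) := by positivity
    linarith
  rcases hh0.eq_or_lt with he | hhp
  · apply hsmall
    rw [hE, ← he, Real.zero_rpow (by norm_num), mul_zero, mul_zero, neg_zero, Real.exp_zero]
    norm_num
  · obtain ⟨N, hN2, hN, heps⟩ := hfar (1 - (p:ℝ)) (by linarith) (by linarith)
    have hNr : (2:ℝ) ≤ N := by exact_mod_cast hN2
    have hNp : (0:ℝ) < N := by linarith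
    have hh : 1 - (p:ℝ) - 1/2 = h := by rw [hh']; ring
    rw [hh] at hN
    -- `h ^ (4/3) ≤ CF / N`
    have hNh : h ^ (4/3 : ℝ) ≤ CF / N := by
      rw [le_div_iff₀ hNp]
      have i1 : h ^ (4/3 : ℝ) * h ^ (-(4/3) : ℝ) = 1 := by
        rw [← Real.rpow_add hhp]; norm_num
      calc h ^ (4/3 : ℝ) * N ≤ h ^ (4/3 : ℝ) * (CF * h ^ (-(4/3) : ℝ)) :=
            mul_le_mul_of_nonneg_left hN (by positivity)
        _ = CF * (h ^ (4/3 : ℝ) * h ^ (-(4/3) : ℝ)) := by ring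
        _ = CF := by rw [i1, mul_one]
    have hexp : 1 / (16 * CF) * (r * h ^ (4/3 : ℝ)) ≤ r / (16 * N) := by
      calc 1 / (16 * CF) * (r * h ^ (4/3 : ℝ)) ≤ 1 / (16 * CF) * (r * (CF / N)) := by
            apply mul_le_mul_of_nonneg_left _ (by positivity)
            exact mul_le_mul_of_nonneg_left hNh hrp.le
        _ = r / (16 * N) := by field_simp
    by_cases hrN : r ≤ 4 * N
    · apply hsmall
      have i1 : (r:ℝ) ≤ 4 * N := by exact_mod_cast hrN
      have i2 : (r:ℝ) / (16 * N) ≤ 1 := by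
        rw [div_le_one (by positivity)]; linarith
      refine hexp1.trans (Real.exp_le_exp.mpr ?_)
      linarith
    · push Not at hrN
      have i1 := tau_far p hN2 heps x (by rw [← hr]; exact hrN)
      rw [← hr] at i1
      have i2 : arm p (N - 1) ≤ C0 * (((N - 1 : ℕ)) : ℝ) ^ (-(5/48) : ℝ) :=
        (arm_mono_param hp0 hp (by norm_num) _).trans (hS (N - 1) (by omega))
      have i3 : (N:ℝ) / 2 ≤ ((N - 1 : ℕ) : ℝ) := by
        have j1 : N ≤ 2 * (N - 1) := by omega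
        have j2 : (N:ℝ) ≤ 2 * ((N - 1 : ℕ) : ℝ) := by exact_mod_cast j1
        linarith
      have i4 : (((N - 1 : ℕ)) : ℝ) ^ (-(5/48) : ℝ) ≤ ((N:ℝ) / 2) ^ (-(5/48) : ℝ) :=
        Real.rpow_le_rpow_of_nonpos (by positivity) i3 (by norm_num)
      have i5 : (arm p (N - 1))^2 ≤ C0^2 * (2 * (N:ℝ) ^ (-(5/24) : ℝ)) := by
        have j1 : (arm p (N - 1))^2 ≤ (C0 * ((N:ℝ) / 2) ^ (-(5/48) : ℝ))^2 :=
          pow_le_pow_left₀ (arm_nonneg hp0 hp1 _)
            (i2.trans (mul_le_mul_of_nonneg_left i4 hC0.le)) 2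
        have j2 : (C0 * ((N:ℝ) / 2) ^ (-(5/48) : ℝ))^2 = C0^2 * ((N:ℝ) / 2) ^ (-(5/24) : ℝ) := by
          rw [mul_pow, ← Real.rpow_natCast (((N:ℝ) / 2) ^ (-(5/48) : ℝ)),
            ← Real.rpow_mul (by positivity)]
          norm_num
        have j3 : ((N:ℝ) / 2) ^ (-(5/24) : ℝ) ≤ 2 * (N:ℝ) ^ (-(5/24) : ℝ) := by
          rw [Real.div_rpow hNp.le (by norm_num), Real.rpow_neg (by norm_num : (0:ℝ) ≤ 2),
            div_inv_eq_mul, mul_comm]
          apply mul_le_mul_of_nonneg_right _ (by positivity)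
          calc (2:ℝ) ^ (5/24 : ℝ) ≤ (2:ℝ) ^ (1:ℝ) :=
                Real.rpow_le_rpow_of_exponent_le (by norm_num) (by norm_num)
            _ = 2 := Real.rpow_one _
        rw [j2] at j1
        exact j1.trans (mul_le_mul_of_nonneg_left j3 (by positivity))
      -- `N ^ (-5/24) exp(- r / (8 N)) ≤ 16 r ^ (-5/24) exp (- r / (16 N))`
      have i6 : (N:ℝ) ^ (-(5/24) : ℝ) ≤ (r:ℝ) ^ (-(5/24) : ℝ) * (16 * Real.exp (r / (16 * N))) := by
        have hrN' : (1:ℝ) ≤ r / N := by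
          rw [le_div_iff₀ hNp]
          have : ((4 * N : ℕ) : ℝ) < r := by exact_mod_cast hrN
          push_cast at this
          linarith
        have j1 : (N:ℝ) ^ (-(5/24) : ℝ) = (r:ℝ) ^ (-(5/24) : ℝ) * ((r:ℝ) / N) ^ (5/24 : ℝ) := by
          rw [Real.div_rpow hrp.le hNp.le, Real.rpow_neg hrp.le, Real.rpow_neg hNp.le]
          field_simp
        have j2 : ((r:ℝ) / N) ^ (5/24 : ℝ) ≤ (r:ℝ) / N := by
          calc ((r:ℝ) / N) ^ (5/24 : ℝ) ≤ ((r:ℝ) / N) ^ (1:ℝ) :=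
                Real.rpow_le_rpow_of_exponent_le hrN' (by norm_num)
            _ = _ := Real.rpow_one _
        have j3 : (r:ℝ) / N ≤ 16 * Real.exp (r / (16 * N)) := by
          have k1 := Real.add_one_le_exp ((r:ℝ) / (16 * N))
          have k2 : (r:ℝ) / N = 16 * (r / (16 * N)) := by field_simp
          rw [k2]
          linarith
        rw [j1]
        exact mul_le_mul_of_nonneg_left (j2.trans j3) hx.le
      have i7 : Real.exp (r / (16 * N)) * Real.exp (-((r:ℝ) / (8 * N))) =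
          Real.exp (-((r:ℝ) / (16 * N))) := by
        rw [← Real.exp_add]
        congr 1
        field_simp
        ring
      have i8 : Real.exp (-((r:ℝ) / (16 * N))) ≤ E :=
        Real.exp_le_exp.mpr (by linarith)
      calc tau p x ≤ (arm p (N - 1))^2 * Real.exp (-((r:ℝ) / (8 * N))) := i1
        _ ≤ (C0^2 * (2 * (N:ℝ) ^ (-(5/24) : ℝ))) * Real.exp (-((r:ℝ) / (8 * N))) :=
            mul_le_mul_of_nonneg_right i5 (Real.exp_pos _).le
        _ ≤ (C0^2 * (2 * ((r:ℝ) ^ (-(5/24) : ℝ) * (16 * Real.exp (r / (16 * N)))))) *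
            Real.exp (-((r:ℝ) / (8 * N))) := by
            apply mul_le_mul_of_nonneg_right _ (Real.exp_pos _).le
            apply mul_le_mul_of_nonneg_left _ (by positivity)
            exact mul_le_mul_of_nonneg_left i6 (by norm_num)
        _ = 32 * C0^2 * ((r:ℝ) ^ (-(5/24) : ℝ) *
            (Real.exp (r / (16 * N)) * Real.exp (-((r:ℝ) / (8 * N))))) := by ring
        _ = 32 * C0^2 * ((r:ℝ) ^ (-(5/24) : ℝ) * Real.exp (-((r:ℝ) / (16 * N)))) := by rw [i7]
        _ ≤ 32 * C0^2 * ((r:ℝ) ^ (-(5/24) : ℝ) * E) := by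
            apply mul_le_mul_of_nonneg_left _ (by positivity)
            exact mul_le_mul_of_nonneg_left i8 hx.le
        _ ≤ (3 * K + 32 * C0^2) * ((r:ℝ) ^ (-(5/24) : ℝ) * E) := by
            apply mul_le_mul_of_nonneg_right _ (by positivity)
            linarith

end H362S
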