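import Pool.Agent.H362S.FinB
import Pool.Agent.H362S.TaskE0
import Pool.Agent.H160R2.CV.Sharp

/-!
The tail of the cluster volume at and above the critical point, uniformly in the volume and in the
parameter.
-/

set_option maxHeartbeats 1000000

namespace H362S

open H974 H31K Finset MeasureTheory
open Pool.Agent.H160R2

theorem vol_low_p : ∃ c : ℝ, 0 < c ∧ ∀ p : unitInterval, (1/2 : ℝ) ≤ p → ∀ n : ℕ, 12 ≤ n →
    ∀ N : ℕ, (N : ℝ) ≤ c * ((n : ℝ) ^ 2 * CV.ar n) →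
    c * CV.ar n ≤ (bondLaw p).real {ω | (N : ℕ∞) ≤ (cluster0 ω).encard} := by
  obtain ⟨c, hc, h⟩ := CV.vol_lower
  refine ⟨c, hc, fun p hp n hn N hN => ?_⟩
  have h1 := h n hn (boxE (5 * n)) (Finset.Subset.refl _)
  have h2 : Pr CV.P (boxE (5 * n)) (fun F => CV.Vol (c * ((n : ℝ) ^ 2 * CV.ar n)) ↑F) ≤
      Pr (fun _ => (p:ℝ)) (boxE (5 * n))
        (fun F => CV.Vol (c * ((n : ℝ) ^ 2 * CV.ar n)) ↑F) := by
    apply Pr_mono_param
    · show Ok (fun _ : Edg => (1/2:ℝ))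
      exact okq (by norm_num) (by norm_num)
    · exact okq p.2.1 p.2.2
    · intro e
      exact hp
    · intro F G hFG _ hF
      exact CV.InfAux.vol_mono (by exact_mod_cast hFG) hF
  rw [← law_event] at h2
  refine (h1.trans h2).trans (measureReal_mono ?_)
  intro ω hω
  have h3 : CV.Vol (c * ((n : ℝ) ^ 2 * CV.ar n)) (↑(FF (boxE (5 * n)) ω) : Set Edg) := hω
  rw [FF_coe] at h3
  obtain ⟨T, hT, hr⟩ := CV.InfAux.vol_mono Set.inter_subset_left h3
  exact (CV.InfAux.encard_iff ω N).2 ⟨T, hN.trans hT, hr⟩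

theorem vol_low : ∃ c : ℝ, 0 < c ∧ ∀ p : unitInterval, (1/2 : ℝ) ≤ p → ∀ N : ℕ, 1 ≤ N →
    c * (N : ℝ) ^ (-(5 / 91) : ℝ) ≤ (bondLaw p).real {ω | (N : ℕ∞) ≤ (cluster0 ω).encard} := by
  obtain ⟨c, hc, hlo⟩ := vol_low_p
  obtain ⟨a, A, ha, hA, har⟩ := Pool.Agent.H160R2.SA.arSharp
  set B : ℝ := max 12 (1 / (c * a)) with hB
  have hB12 : 12 ≤ B := le_max_left _ _
  have hBc : 1 / (c * a) ≤ B := le_max_right _ _
  refine ⟨c * a * (1 / (2 * B)), by positivity, fun p hp N hN => ?_⟩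
  have hN' : (1 : ℝ) ≤ N := by exact_mod_cast hN
  have hNpos : (0 : ℝ) < N := by linarith
  have hP : (0 : ℝ) < (N : ℝ) ^ (48 / 91 : ℝ) := Real.rpow_pos_of_pos hNpos _
  have hP1 : (1 : ℝ) ≤ (N : ℝ) ^ (48 / 91 : ℝ) := Real.one_le_rpow hN' (by norm_num)
  set x : ℝ := B * (N : ℝ) ^ (48 / 91 : ℝ) with hx
  have hx12 : 12 ≤ x := by rw [hx]; nlinarith
  set n : ℕ := ⌈x⌉₊ with hn
  have hn1 : x ≤ n := Nat.le_ceil x
  have hn2 : (n : ℝ) ≤ 2 * x := by
    have := Nat.ceil_lt_add_one (a := x) (by linarith)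
    linarith
  have hn12 : 12 ≤ n := by
    have : (12 : ℝ) ≤ n := hx12.trans hn1
    exact_mod_cast this
  have hnpos : (0 : ℝ) < n := by linarith
  obtain ⟨ha1, -⟩ := har n (by omega)
  have hmain : (N : ℝ) ≤ c * ((n : ℝ) ^ 2 * CV.ar n) := by
    have e1 : (n : ℝ) ^ (91 / 48 : ℝ) = (n : ℝ) ^ 2 * (n : ℝ) ^ (-(5 / 48 : ℝ)) := by
      rw [← Real.rpow_natCast (n : ℝ) 2, ← Real.rpow_add hnpos]
      congr 1
      push_cast
      ring
    have e2 : x ^ (91 / 48 : ℝ) ≤ (n : ℝ) ^ (91 / 48 : ℝ) :=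
      Real.rpow_le_rpow (by linarith) hn1 (by norm_num)
    have e3 : B * N ≤ x ^ (91 / 48 : ℝ) := by
      rw [hx, Real.mul_rpow (by linarith) hP.le, ← Real.rpow_mul hNpos.le]
      have e4 : (48 / 91 : ℝ) * (91 / 48) = 1 := by norm_num
      rw [e4, Real.rpow_one]
      apply mul_le_mul_of_nonneg_right _ hNpos.le
      have : B ^ (1 : ℝ) ≤ B ^ (91 / 48 : ℝ) :=
        Real.rpow_le_rpow_of_exponent_le (by linarith) (by norm_num)
      rwa [Real.rpow_one] at this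
    have e5 : a * (B * N) ≤ (n : ℝ) ^ 2 * CV.ar n := by
      calc a * (B * N) ≤ a * (n : ℝ) ^ (91 / 48 : ℝ) :=
            mul_le_mul_of_nonneg_left (e3.trans e2) ha.le
        _ = (n : ℝ) ^ 2 * (a * (n : ℝ) ^ (-(5 / 48 : ℝ))) := by rw [e1]; ring
        _ ≤ (n : ℝ) ^ 2 * CV.ar n := mul_le_mul_of_nonneg_left ha1 (by positivity)
    have e6 : 1 ≤ c * a * B := by
      rw [div_le_iff₀ (by positivity)] at hBc
      linarith
    calc (N : ℝ) = 1 * N := by ring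
      _ ≤ (c * a * B) * N := mul_le_mul_of_nonneg_right e6 hNpos.le
      _ = c * (a * (B * N)) := by ring
      _ ≤ _ := mul_le_mul_of_nonneg_left e5 hc.le
  refine le_trans ?_ (hlo p hp n hn12 N hmain)
  have e1 : (2 * x) ^ (-(5 / 48 : ℝ)) ≤ (n : ℝ) ^ (-(5 / 48 : ℝ)) :=
    Real.rpow_le_rpow_of_nonpos hnpos hn2 (by norm_num)
  have e2 : (1 / (2 * B)) * (N : ℝ) ^ (-(5 / 91) : ℝ) ≤ (2 * x) ^ (-(5 / 48 : ℝ)) := by
    rw [hx, ← mul_assoc, Real.mul_rpow (by linarith) hP.le, ← Real.rpow_mul hNpos.le]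
    have e4 : (48 / 91 : ℝ) * (-(5 / 48)) = -(5 / 91) := by norm_num
    rw [e4]
    apply mul_le_mul_of_nonneg_right _ (by positivity)
    have : (2 * B) ^ (-1 : ℝ) ≤ (2 * B) ^ (-(5 / 48 : ℝ)) :=
      Real.rpow_le_rpow_of_exponent_le (by linarith) (by norm_num)
    rwa [Real.rpow_neg_one, ← one_div] at this
  calc c * a * (1 / (2 * B)) * (N : ℝ) ^ (-(5 / 91) : ℝ)
      = c * (a * ((1 / (2 * B)) * (N : ℝ) ^ (-(5 / 91) : ℝ))) := by ring
    _ ≤ c * (a * (n : ℝ) ^ (-(5 / 48 : ℝ))) := by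
        apply mul_le_mul_of_nonneg_left _ hc.le
        exact mul_le_mul_of_nonneg_left (e2.trans e1) ha.le
    _ ≤ c * CV.ar n := mul_le_mul_of_nonneg_left ha1 hc.le

theorem tau_win {C0 : ℝ} (hC0 : 0 < C0) (p : unitInterval) {n : ℕ}
    (h : ∀ m : ℕ, 1 ≤ m → m ≤ n → arm p m ≤ C0 * (m:ℝ)^(-(5/48) : ℝ)) (x : Vtx)
    (hx : CV.nv x ≤ n) :
    tau p x ≤ (8 * C0^2 + 3) * ((CV.nv x : ℝ) + 1)^(-(5/24) : ℝ) := by
  set r := CV.nv x with hr
  have hr' : r = max x.1.natAbs x.2.natAbs := rfl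
  have hp0 : (0:ℝ) ≤ p := p.2.1
  have hp1 : (p:ℝ) ≤ 1 := p.2.2
  have hr0 : (0:ℝ) < (r:ℝ) + 1 := by positivity
  by_cases h3 : r ≤ 2
  · have h4 : (1:ℝ)/3 ≤ ((r:ℝ) + 1)^(-(5/24) : ℝ) := by
      have h5 : (r:ℝ) + 1 ≤ 3 := by
        have : (r:ℝ) ≤ 2 := by exact_mod_cast h3
        linarith
      calc (1:ℝ)/3 = (3:ℝ)^(-1:ℝ) := by rw [Real.rpow_neg_one]; norm_num
        _ ≤ (3:ℝ)^(-(5/24) : ℝ) :=
            Real.rpow_le_rpow_of_exponent_le (by norm_num) (by norm_num)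
        _ ≤ ((r:ℝ) + 1)^(-(5/24) : ℝ) :=
            Real.rpow_le_rpow_of_nonpos hr0 h5 (by norm_num)
    have h6 := tau_le_one p x
    have h7 : 0 ≤ 8 * C0^2 * ((r:ℝ) + 1)^(-(5/24) : ℝ) := by positivity
    nlinarith
  · have h8 : 1 ≤ (r-1)/2 := by omega
    have h9 : r + 1 ≤ 8 * ((r-1)/2) := by omega
    have h10 : 2 * (((r-1)/2 : ℕ):ℤ) < |x.1| ∨ 2 * (((r-1)/2 : ℕ):ℤ) < |x.2| := by
      have : r = x.1.natAbs ∨ r = x.2.natAbs := by
        rcases max_choice x.1.natAbs x.2.natAbs with h | h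
        · left; rw [hr', h]
        · right; rw [hr', h]
      rw [Int.abs_eq_natAbs, Int.abs_eq_natAbs]
      rcases this with h | h
      · left; omega
      · right; omega
    have h11 := tau_le_arm_sq p h10
    set m := (r-1)/2 with hm
    have hm0 : (0:ℝ) < m := by exact_mod_cast (by omega : 0 < m)
    have h12 : arm p m ≤ C0 * (m:ℝ)^(-(5/48) : ℝ) := h m h8 (by omega)
    have h13 : (arm p m)^2 ≤ (C0 * (m:ℝ)^(-(5/48) : ℝ))^2 :=
      pow_le_pow_left₀ (arm_nonneg hp0 hp1 m) h12 2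
    have h14 : (C0 * (m:ℝ)^(-(5/48) : ℝ))^2 = C0^2 * (m:ℝ)^(-(5/24) : ℝ) := by
      rw [mul_pow, ← Real.rpow_natCast ((m:ℝ)^(-(5/48) : ℝ)), ← Real.rpow_mul hm0.le]
      congr 2
      push_cast
      ring
    have h15 : (m:ℝ)^(-(5/24) : ℝ) ≤ (((r:ℝ)+1)/8)^(-(5/24) : ℝ) := by
      apply Real.rpow_le_rpow_of_nonpos (by positivity) _ (by norm_num)
      have : ((r + 1 : ℕ):ℝ) ≤ ((8 * m : ℕ) : ℝ) := by exact_mod_cast h9
      push_cast at this
      linarith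
    have h16 : (((r:ℝ)+1)/8)^(-(5/24) : ℝ) ≤ 8 * ((r:ℝ)+1)^(-(5/24) : ℝ) := by
      rw [Real.div_rpow hr0.le (by norm_num)]
      rw [div_eq_mul_inv, mul_comm]
      apply mul_le_mul_of_nonneg_right _ (by positivity)
      rw [← Real.rpow_neg (by norm_num), neg_neg]
      calc (8:ℝ)^(5/24 : ℝ) ≤ (8:ℝ)^(1:ℝ) :=
            Real.rpow_le_rpow_of_exponent_le (by norm_num) (by norm_num)
        _ = 8 := Real.rpow_one _
    have h17 : 0 ≤ ((r:ℝ)+1)^(-(5/24) : ℝ) := by positivity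
    calc tau p x ≤ (arm p m)^2 := h11
      _ ≤ C0^2 * (m:ℝ)^(-(5/24) : ℝ) := h13.trans h14.le
      _ ≤ C0^2 * (8 * ((r:ℝ)+1)^(-(5/24) : ℝ)) :=
          mul_le_mul_of_nonneg_left (h15.trans h16) (by positivity)
      _ ≤ _ := by nlinarith

theorem mem_bx_nv {n : ℕ} {x : Vtx} : x ∈ CV.bx n ↔ CV.nv x ≤ n := by
  unfold CV.bx CV.nv
  rw [Finset.mem_product, Finset.mem_Icc, Finset.mem_Icc]
  omega

theorem sum_tau {C0 : ℝ} (hC0 : 0 < C0) (p : unitInterval) {n : ℕ} (hn : 1 ≤ n)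
    (h : ∀ m : ℕ, 1 ≤ m → m ≤ n → arm p m ≤ C0 * (m:ℝ)^(-(5/48) : ℝ)) :
    ∑ x ∈ CV.bx n, tau p x ≤ 32 * (8 * C0^2 + 3) * (n:ℝ)^(43/24 : ℝ) := by
  classical
  set K : ℝ := 8 * C0^2 + 3 with hK
  have hK0 : 0 < K := by positivity
  have hnr : (1:ℝ) ≤ n := by exact_mod_cast hn
  have h1 : ∑ x ∈ CV.bx n, tau p x ≤
      ∑ x ∈ CV.bx n, K * ((CV.nv x : ℝ) + 1)^(-(5/24) : ℝ) :=
    Finset.sum_le_sum fun x hx => tau_win hC0 p h x (mem_bx_nv.mp hx)
  have h2 : ∑ x ∈ CV.bx n, K * ((CV.nv x : ℝ) + 1)^(-(5/24) : ℝ) =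
      ∑ r ∈ Finset.range (n + 1), ∑ x ∈ (CV.bx n).filter (fun x => CV.nv x = r),
        K * ((CV.nv x : ℝ) + 1)^(-(5/24) : ℝ) :=
    (Finset.sum_fiberwise_of_maps_to (g := CV.nv) (t := Finset.range (n + 1))
      (fun x hx => Finset.mem_range.mpr (by have := mem_bx_nv.mp hx; omega)) _).symm
  have h3 : ∀ r ∈ Finset.range (n + 1), ∑ x ∈ (CV.bx n).filter (fun x => CV.nv x = r),
      K * ((CV.nv x : ℝ) + 1)^(-(5/24) : ℝ) ≤ 8 * K * ((n:ℝ) + 1)^(19/24 : ℝ) := by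
    intro r hr
    have hrn : (r:ℝ) + 1 ≤ (n:ℝ) + 1 := by
      have : r ≤ n := by have := Finset.mem_range.mp hr; omega
      have : (r:ℝ) ≤ n := by exact_mod_cast this
      linarith
    have hr0 : (0:ℝ) < (r:ℝ) + 1 := by positivity
    have e1 : ∑ x ∈ (CV.bx n).filter (fun x => CV.nv x = r),
        K * ((CV.nv x : ℝ) + 1)^(-(5/24) : ℝ) =
        ((CV.bx n).filter (fun x => CV.nv x = r)).card * (K * ((r:ℝ) + 1)^(-(5/24) : ℝ)) := by
      rw [← nsmul_eq_mul, ← Finset.sum_const]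
      apply Finset.sum_congr rfl
      intro x hx
      rw [(Finset.mem_filter.mp hx).2]
    rw [e1]
    have e2 : (((CV.bx n).filter (fun x => CV.nv x = r)).card : ℝ) ≤ 8 * ((r:ℝ) + 1) := by
      refine le_trans ?_ (t10_T_card r)
      exact_mod_cast Finset.card_le_card (fun x hx => by
        have h5 := (Finset.mem_filter.mp hx).2
        rw [← h5]
        exact t10_T_mem x)
    have e3 : ((r:ℝ) + 1) * ((r:ℝ) + 1)^(-(5/24) : ℝ) = ((r:ℝ) + 1)^(19/24 : ℝ) := by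
      rw [show (19/24 : ℝ) = 1 + -(5/24) by norm_num, Real.rpow_add hr0, Real.rpow_one]
    calc (((CV.bx n).filter (fun x => CV.nv x = r)).card : ℝ) * (K * ((r:ℝ) + 1)^(-(5/24) : ℝ))
        ≤ (8 * ((r:ℝ) + 1)) * (K * ((r:ℝ) + 1)^(-(5/24) : ℝ)) :=
          mul_le_mul_of_nonneg_right e2 (by positivity)
      _ = 8 * K * (((r:ℝ) + 1) * ((r:ℝ) + 1)^(-(5/24) : ℝ)) := by ring
      _ = 8 * K * ((r:ℝ) + 1)^(19/24 : ℝ) := by rw [e3]
      _ ≤ 8 * K * ((n:ℝ) + 1)^(19/24 : ℝ) :=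
          mul_le_mul_of_nonneg_left (Real.rpow_le_rpow hr0.le hrn (by norm_num)) (by positivity)
  have h4 := Finset.sum_le_card_nsmul _ _ _ h3
  rw [Finset.card_range, nsmul_eq_mul] at h4
  have h5 : ((n + 1 : ℕ) : ℝ) * (8 * K * ((n:ℝ) + 1)^(19/24 : ℝ)) ≤
      32 * K * (n:ℝ)^(43/24 : ℝ) := by
    have hn0 : (0:ℝ) < (n:ℝ) + 1 := by positivity
    have e1 : ((n + 1 : ℕ) : ℝ) * (8 * K * ((n:ℝ) + 1)^(19/24 : ℝ)) =
        8 * K * ((n:ℝ) + 1)^(43/24 : ℝ) := by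
      rw [show (43/24 : ℝ) = 1 + 19/24 by norm_num, Real.rpow_add hn0, Real.rpow_one]
      push_cast; ring
    rw [e1]
    have e2 : ((n:ℝ) + 1)^(43/24 : ℝ) ≤ 4 * (n:ℝ)^(43/24 : ℝ) := by
      calc ((n:ℝ) + 1)^(43/24 : ℝ) ≤ (2 * (n:ℝ))^(43/24 : ℝ) :=
            Real.rpow_le_rpow hn0.le (by linarith) (by norm_num)
        _ = (2:ℝ)^(43/24 : ℝ) * (n:ℝ)^(43/24 : ℝ) := Real.mul_rpow (by norm_num) (by positivity)
        _ ≤ 4 * (n:ℝ)^(43/24 : ℝ) := by
            apply mul_le_mul_of_nonneg_right _ (by positivity)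
            calc (2:ℝ)^(43/24 : ℝ) ≤ (2:ℝ)^(2:ℝ) :=
                  Real.rpow_le_rpow_of_exponent_le (by norm_num) (by norm_num)
              _ = 4 := by norm_num
    have := mul_le_mul_of_nonneg_left e2 (by positivity : 0 ≤ 8 * K)
    linarith
  linarith

/-- Markov's inequality. -/
theorem vol_markov (p : unitInterval) (n : ℕ) {N : ℕ} (hN : 1 ≤ N) :
    (bondLaw p).real {ω | (N : ℕ∞) ≤ (cluster0 ω).encard} ≤
      arm p n + (∑ x ∈ CV.bx n, tau p x) / N := by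
  classical
  have hN0 : (0:ℝ) < N := by exact_mod_cast hN
  set f : (sqLattice.edgeSet → Bool) → ℝ := fun ω =>
    ∑ x ∈ CV.bx n, Set.indicator {ω | x ∈ cluster0 ω} (fun _ => (1:ℝ)) ω with hf
  have hsub : {ω | (N : ℕ∞) ≤ (cluster0 ω).encard} ⊆
      {ω | ∃ w ∈ cluster0 ω, (n : ℤ) ≤ max |w.1| |w.2|} ∪ {ω | (N:ℝ) ≤ f ω} := by
    intro ω hω
    by_cases hA : ∃ w ∈ cluster0 ω, (n : ℤ) ≤ max |w.1| |w.2|
    · exact Or.inl hA
    · right
      push Not at hA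
      have hC : cluster0 ω ⊆ ↑((CV.bx n).filter (fun x => x ∈ cluster0 ω)) := by
        intro w hw
        rw [Finset.coe_filter]
        refine ⟨?_, hw⟩
        have h1 := hA w hw
        rw [mem_bx_nv]
        unfold CV.nv
        rw [max_lt_iff, Int.abs_eq_natAbs, Int.abs_eq_natAbs] at h1
        omega
      have h2 : (cluster0 ω).encard ≤ (((CV.bx n).filter (fun x => x ∈ cluster0 ω)).card : ℕ∞) := by
        rw [← Set.encard_coe_eq_coe_finsetCard]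
        exact Set.encard_le_encard hC
      have h3 : (N : ℕ∞) ≤ (((CV.bx n).filter (fun x => x ∈ cluster0 ω)).card : ℕ∞) :=
        le_trans hω h2
      have h4 : N ≤ ((CV.bx n).filter (fun x => x ∈ cluster0 ω)).card := by exact_mod_cast h3
      have h5 : f ω = (((CV.bx n).filter (fun x => x ∈ cluster0 ω)).card : ℝ) := by
        simp only [hf]
        rw [Finset.card_filter]
        push_cast
        apply Finset.sum_congr rfl
        intro x _
        by_cases hx : x ∈ cluster0 ω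
        · rw [Set.indicator_of_mem (show ω ∈ {ω | x ∈ cluster0 ω} from hx), if_pos hx]
        · rw [Set.indicator_of_notMem (show ω ∉ {ω | x ∈ cluster0 ω} from hx), if_neg hx]
      show (N:ℝ) ≤ f ω
      rw [h5]
      exact_mod_cast h4
  have hint : ∀ x ∈ CV.bx n, Integrable (Set.indicator {ω | x ∈ cluster0 ω} (fun _ => (1:ℝ)))
      (bondLaw p) := fun x _ => (integrable_const (1:ℝ)).indicator (t10_meas x)
  have hfint : Integrable f (bondLaw p) := integrable_finset_sum _ hint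
  have hf0 : 0 ≤ f := by
    intro ω
    exact Finset.sum_nonneg fun x _ => Set.indicator_nonneg (fun _ _ => zero_le_one) _
  have hM := mul_meas_ge_le_integral_of_nonneg (μ := bondLaw p)
    (Filter.Eventually.of_forall hf0) hfint (N:ℝ)
  have hI : ∫ ω, f ω ∂(bondLaw p) = ∑ x ∈ CV.bx n, tau p x := by
    simp only [hf]
    rw [integral_finset_sum _ hint]
    apply Finset.sum_congr rfl
    intro x _
    rw [integral_indicator_const _ (t10_meas x)]
    unfold tau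
    simp
  rw [hI] at hM
  have h6 : (bondLaw p).real {ω | (N:ℝ) ≤ f ω} ≤ (∑ x ∈ CV.bx n, tau p x) / N := by
    rw [le_div_iff₀ hN0]
    linarith
  calc (bondLaw p).real {ω | (N : ℕ∞) ≤ (cluster0 ω).encard} ≤
        (bondLaw p).real ({ω | ∃ w ∈ cluster0 ω, (n : ℤ) ≤ max |w.1| |w.2|} ∪
          {ω | (N:ℝ) ≤ f ω}) := measureReal_mono hsub
    _ ≤ (bondLaw p).real {ω | ∃ w ∈ cluster0 ω, (n : ℤ) ≤ max |w.1| |w.2|} +
        (bondLaw p).real {ω | (N:ℝ) ≤ f ω} := measureReal_union_le _ _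
    _ ≤ _ := by rw [arm_law]; linarith

theorem vol_unif : ∃ c C : ℝ, 0 < c ∧ 0 < C ∧
    ∀ (p : unitInterval) (N : ℕ), (1/2 : ℝ) ≤ p → 1 ≤ N →
      c * max ((N:ℝ) ^ (-(5/91) : ℝ)) (((p:ℝ) - 1/2) ^ (5/36 : ℝ)) ≤
        (bondLaw p).real {ω | (N : ℕ∞) ≤ (cluster0 ω).encard} ∧
      (bondLaw p).real {ω | (N : ℕ∞) ≤ (cluster0 ω).encard} ≤
        C * max ((N:ℝ) ^ (-(5/91) : ℝ)) (((p:ℝ) - 1/2) ^ (5/36 : ℝ)) := by
  obtain ⟨c2, hc2, hV⟩ := vol_low
  obtain ⟨κ, a, -, ha, hA⟩ := armS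
  obtain ⟨c1, hc1, hL⟩ := thetaLow
  obtain ⟨c0, C0', hc0, hC0', h0⟩ := Pool.Agent.H160R2.SA.arSharp
  set C0 : ℝ := 3 * C0' with hC0d
  have hC0 : 0 < C0 := by positivity
  have hS : ∀ n : ℕ, 1 ≤ n → arm (1/2) n ≤ C0' * (n:ℝ) ^ (-(5/48) : ℝ) :=
    fun n hn => (h0 n hn).2
  -- the bound in the window
  have hwin : ∀ (p : unitInterval) (n : ℕ), (1/2 : ℝ) ≤ p → 1 ≤ n →
      (p:ℝ) - 1/2 ≤ a * (n:ℝ) ^ (-(3/4) : ℝ) → ∀ N : ℕ, 1 ≤ N → (n:ℝ) ^ (91/48 : ℝ) ≤ N →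
      (bondLaw p).real {ω | (N : ℕ∞) ≤ (cluster0 ω).encard} ≤
        (C0 + 32 * (8 * C0^2 + 3)) * (n:ℝ) ^ (-(5/48) : ℝ) := by
    intro p n hp hn hw N hN hnN
    have hn0 : (0:ℝ) < n := by exact_mod_cast (by omega : 0 < n)
    have hN0 : (0:ℝ) < N := by exact_mod_cast (by omega : 0 < N)
    have harm : ∀ m : ℕ, 1 ≤ m → m ≤ n → arm p m ≤ C0 * (m:ℝ)^(-(5/48) : ℝ) := by
      intro m hm hmn
      have hm0 : (0:ℝ) < m := by exact_mod_cast (by omega : 0 < m)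
      have h1 : |(p:ℝ) - 1/2| ≤ a * (m:ℝ) ^ (-(3/4) : ℝ) := by
        rw [abs_of_nonneg (by linarith)]
        refine hw.trans (mul_le_mul_of_nonneg_left ?_ ha.le)
        exact Real.rpow_le_rpow_of_nonpos hm0 (by exact_mod_cast hmn) (by norm_num)
      have h2 := (hA m p hm h1).2.1
      have h3 := hS m hm
      rw [hC0d]
      linarith
    have h1 := vol_markov p n hN
    have h2 := harm n hn le_rfl
    have h3 := sum_tau hC0 p hn harm
    have h4 : (∑ x ∈ CV.bx n, tau p x) / N ≤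
        32 * (8 * C0^2 + 3) * (n:ℝ) ^ (-(5/48) : ℝ) := by
      rw [div_le_iff₀ hN0]
      have e1 : (n:ℝ)^(43/24 : ℝ) = (n:ℝ) ^ (-(5/48) : ℝ) * (n:ℝ) ^ (91/48 : ℝ) := by
        rw [← Real.rpow_add hn0]; norm_num
      calc _ ≤ 32 * (8 * C0^2 + 3) * (n:ℝ)^(43/24 : ℝ) := h3
        _ = 32 * (8 * C0^2 + 3) * (n:ℝ) ^ (-(5/48) : ℝ) * (n:ℝ) ^ (91/48 : ℝ) := by
            rw [e1]; ring
        _ ≤ _ := mul_le_mul_of_nonneg_left hnN (by positivity)
    calc _ ≤ _ := h1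
      _ ≤ C0 * (n:ℝ)^(-(5/48) : ℝ) + 32 * (8 * C0^2 + 3) * (n:ℝ) ^ (-(5/48) : ℝ) :=
          add_le_add h2 h4
      _ = _ := by ring
  set K : ℝ := C0 + 32 * (8 * C0^2 + 3) with hK
  have hK0 : 0 < K := by positivity
  refine ⟨min c2 c1, 2 * K * a ^ (-(5/36) : ℝ) + 2 * K + a ^ (-(5/36) : ℝ), lt_min hc2 hc1,
    by positivity, ?_⟩
  intro p N hp hN
  have hN1 : (1:ℝ) ≤ N := by exact_mod_cast hN
  have hN0 : (0:ℝ) < N := by linarith
  have hp0 : (0:ℝ) ≤ p := p.2.1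
  have hp1 : (p:ℝ) ≤ 1 := p.2.2
  set h : ℝ := (p:ℝ) - 1/2 with hh
  have hh0 : 0 ≤ h := by rw [hh]; linarith
  have hx : 0 < (N:ℝ) ^ (-(5/91) : ℝ) := by positivity
  have hy : 0 ≤ h ^ (5/36 : ℝ) := by positivity
  constructor
  · -- lower bound
    rw [mul_max_of_nonneg _ _ (lt_min hc2 hc1).le]
    apply max_le
    · exact (mul_le_mul_of_nonneg_right (min_le_left _ _) hx.le).trans (hV p hp N hN)
    · rcases hh0.eq_or_lt with he | hlt
      · rw [← he, Real.zero_rpow (by norm_num), mul_zero]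
        exact measureReal_nonneg
      · have h1 := hL p (by linarith)
        have h3 : min c2 c1 * h ^ (5/36 : ℝ) ≤ c1 * h ^ (5/36 : ℝ) :=
          mul_le_mul_of_nonneg_right (min_le_right _ _) hy
        refine h3.trans (h1.trans (measureReal_mono ?_))
        intro ω hω
        show (N : ℕ∞) ≤ (cluster0 ω).encard
        rw [Set.Infinite.encard_eq hω]
        exact le_top
  · -- upper bound
    set M := max ((N:ℝ) ^ (-(5/91) : ℝ)) (h ^ (5/36 : ℝ)) with hM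
    have hM1 : (N:ℝ) ^ (-(5/91) : ℝ) ≤ M := le_max_left _ _
    have hM2 : h ^ (5/36 : ℝ) ≤ M := le_max_right _ _
    have hM0 : 0 ≤ M := hx.le.trans hM1
    have hap : 0 < a ^ (-(5/36) : ℝ) := by positivity
    have t1 : 0 ≤ 2 * K * a ^ (-(5/36) : ℝ) * M := by positivity
    have t2 : 0 ≤ 2 * K * M := by positivity
    have t3 : 0 ≤ a ^ (-(5/36) : ℝ) * M := by positivity
    set y : ℝ := (N:ℝ) ^ (48/91 : ℝ) with hyd
    have hy1 : 1 ≤ y := Real.one_le_rpow hN1 (by norm_num)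
    set n : ℕ := ⌊y⌋₊ with hnd
    have hn : 1 ≤ n := Nat.le_floor (by exact_mod_cast hy1)
    have hn1 : (1:ℝ) ≤ n := by exact_mod_cast hn
    have hn0 : (0:ℝ) < n := by linarith
    have hny : (n:ℝ) ≤ y := Nat.floor_le (by linarith)
    have hyn : y < n + 1 := Nat.lt_floor_add_one y
    have hyN : y ^ (91/48 : ℝ) = N := by
      rw [hyd, ← Real.rpow_mul hN0.le]
      norm_num
    have hnN : (n:ℝ) ^ (91/48 : ℝ) ≤ N := by
      rw [← hyN]; exact Real.rpow_le_rpow hn0.le hny (by norm_num)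
    have htwo : (2:ℝ) ^ (5/48 : ℝ) ≤ 2 := by
      calc (2:ℝ) ^ (5/48 : ℝ) ≤ (2:ℝ) ^ (1:ℝ) :=
            Real.rpow_le_rpow_of_exponent_le (by norm_num) (by norm_num)
        _ = 2 := Real.rpow_one _
    by_cases hw : h ≤ a * (n:ℝ) ^ (-(3/4) : ℝ)
    · have h1 := hwin p n hp hn hw N hN hnN
      have e1 : (n:ℝ) ^ (-(5/48) : ℝ) ≤ (y / 2) ^ (-(5/48) : ℝ) :=
        Real.rpow_le_rpow_of_nonpos (by positivity) (by linarith) (by norm_num)
      have e2 : (y / 2) ^ (-(5/48) : ℝ) = (2:ℝ) ^ (5/48 : ℝ) * (N:ℝ) ^ (-(5/91) : ℝ) := by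
        rw [Real.div_rpow (by linarith) (by norm_num), hyd, ← Real.rpow_mul hN0.le,
          Real.rpow_neg (by norm_num : (0:ℝ) ≤ 2), div_inv_eq_mul, mul_comm]
        congr 1
        norm_num
      rw [e2] at e1
      have h2 : (n:ℝ) ^ (-(5/48) : ℝ) ≤ 2 * M :=
        e1.trans (mul_le_mul htwo hM1 hx.le (by norm_num))
      have h3 : K * (n:ℝ) ^ (-(5/48) : ℝ) ≤ 2 * K * M := by
        have := mul_le_mul_of_nonneg_left h2 hK0.le
        linarith
      linarith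
    · push Not at hw
      have hhp : 0 < h := lt_of_le_of_lt (by positivity) hw
      have key : a ^ (-(5/36) : ℝ) * h ^ (5/36 : ℝ) = (h / a) ^ (5/36 : ℝ) := by
        rw [Real.div_rpow hh0 ha.le, Real.rpow_neg ha.le]
        field_simp
      rcases lt_or_ge a h with hah | hah
      · have h1 : (bondLaw p).real {ω | (N : ℕ∞) ≤ (cluster0 ω).encard} ≤ 1 :=
          measureReal_le_one
        have h2 : 1 ≤ (h / a) ^ (5/36 : ℝ) := by
          apply Real.one_le_rpow _ (by norm_num)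
          rw [le_div_iff₀ ha]; linarith
        have h3 : a ^ (-(5/36) : ℝ) * h ^ (5/36 : ℝ) ≤ a ^ (-(5/36) : ℝ) * M :=
          mul_le_mul_of_nonneg_left hM2 hap.le
        rw [key] at h3
        linarith
      · set x : ℝ := (a / h) ^ (4/3 : ℝ) with hxd
        have hah1 : 1 ≤ a / h := by rw [le_div_iff₀ hhp]; linarith
        have hx1 : 1 ≤ x := Real.one_le_rpow hah1 (by norm_num)
        set m : ℕ := ⌊x⌋₊ with hm
        have hm1 : 1 ≤ m := Nat.le_floor (by exact_mod_cast hx1)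
        have hm1r : (1:ℝ) ≤ m := by exact_mod_cast hm1
        have hmx : (m:ℝ) ≤ x := Nat.floor_le (by linarith)
        have hxm : x ≤ 2 * m := by
          have := Nat.lt_floor_add_one x
          have h3 : x < m + 1 := this
          linarith
        have hx34 : x ^ (3/4 : ℝ) = a / h := by
          rw [hxd, ← Real.rpow_mul (by positivity)]
          norm_num
        have hxn : x < n := by
          by_contra hc
          push Not at hc
          have h4 : (n:ℝ) ^ (3/4 : ℝ) ≤ a / h := by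
            rw [← hx34]; exact Real.rpow_le_rpow hn0.le hc (by norm_num)
          rw [le_div_iff₀ hhp] at h4
          have h5 : a * (n:ℝ) ^ (-(3/4) : ℝ) * (n:ℝ) ^ (3/4 : ℝ) = a := by
            rw [mul_assoc, ← Real.rpow_add hn0]
            norm_num
          have h6 : a * (n:ℝ) ^ (-(3/4) : ℝ) * (n:ℝ) ^ (3/4 : ℝ) < h * (n:ℝ) ^ (3/4 : ℝ) :=
            mul_lt_mul_of_pos_right hw (by positivity)
          linarith
        have hmn : (m:ℝ) ≤ n := by linarith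
        have hwm : h ≤ a * (m:ℝ) ^ (-(3/4) : ℝ) := by
          have h4 : (m:ℝ) ^ (3/4 : ℝ) ≤ a / h := by
            rw [← hx34]; exact Real.rpow_le_rpow (by positivity) hmx (by norm_num)
          rw [le_div_iff₀ hhp] at h4
          rw [Real.rpow_neg (by positivity), ← div_eq_mul_inv, le_div_iff₀ (by positivity)]
          linarith
        have hmN : (m:ℝ) ^ (91/48 : ℝ) ≤ N :=
          (Real.rpow_le_rpow (by positivity) hmn (by norm_num)).trans hnN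
        have h1 := hwin p m hp hm1 hwm N hN hmN
        have h3 : (m:ℝ) ^ (-(5/48) : ℝ) ≤ 2 * (h / a) ^ (5/36 : ℝ) := by
          have e1 : (m:ℝ) ^ (-(5/48) : ℝ) ≤ (x / 2) ^ (-(5/48) : ℝ) :=
            Real.rpow_le_rpow_of_nonpos (by positivity) (by linarith) (by norm_num)
          have e2 : (x / 2) ^ (-(5/48) : ℝ) = (2:ℝ) ^ (5/48 : ℝ) * (h / a) ^ (5/36 : ℝ) := by
            rw [Real.div_rpow (by linarith) (by norm_num), hxd, ← Real.rpow_mul (by positivity),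
              Real.rpow_neg (by norm_num : (0:ℝ) ≤ 2), div_inv_eq_mul, mul_comm]
            congr 1
            rw [show (4/3 : ℝ) * -(5/48) = -(5/36) by norm_num, Real.rpow_neg (by positivity),
              ← Real.inv_rpow (by positivity), inv_div]
          rw [e2] at e1
          exact e1.trans (mul_le_mul_of_nonneg_right htwo (by positivity))
        have h5 : (h / a) ^ (5/36 : ℝ) ≤ a ^ (-(5/36) : ℝ) * M := by
          rw [← key]; exact mul_le_mul_of_nonneg_left hM2 hap.le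
        have h6 : K * (2 * (h / a) ^ (5/36 : ℝ)) ≤ 2 * K * a ^ (-(5/36) : ℝ) * M := by
          have := mul_le_mul_of_nonneg_left h5 (by positivity : 0 ≤ 2 * K)
          linarith
        have h7 : K * (m:ℝ) ^ (-(5/48) : ℝ) ≤ K * (2 * (h / a) ^ (5/36 : ℝ)) :=
          mul_le_mul_of_nonneg_left h3 hK0.le
        linarith

end H362S
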